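import Pool.Agent.Run7.h965.MX.Gen

/-!
A Carlson type theorem for families of sequences of located words which are closed under limits.
-/

set_option autoImplicit false

namespace Pool.Agent.Run7.h965.MX

open Filter Pool.Agent.W68.Mil Pool.Agent.H752R3.MT

/-- block sequences of located words -/
def BW (t : ℕ → SW) : Prop :=
  (∀ i, t i ≠ [] ∧ (t i).Pairwise fun x y => x.1 < y.1) ∧
    ∀ i, ∀ x ∈ t i, ∀ y ∈ t (i + 1), x.1 < y.1

/-- the unions of the words with indices in `I` -/
def un (x : ℕ → SW) (I : Finset ℕ) : SW := (I.sort (· ≤ ·)).flatMap x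

theorem wd_zero (w : ℕ → VW) (a : ℕ → ℕ) (I : Finset ℕ) :
    wd w a I = un (fun i => sb (a i) (w i)) I := rfl

/-- the rank of finite sequences with respect to a set of bad sequences -/
inductive Rk (v : Ultrafilter SW) (B : Set (List SW)) : Ordinal.{0} → List SW → Prop
  | base {α : Ordinal} {σ : List SW} (h : σ ∈ B) : Rk v B α σ
  | step {α : Ordinal} {σ : List SW} (D : Set SW) (f : SW → Ordinal) (hD : D ∈ v)
      (hf : ∀ t ∈ D, f t < α) (h : ∀ t ∈ D, Rk v B (f t) (σ ++ [t])) : Rk v B α σ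

/-- sequences with a rank -/
def Bd (v : Ultrafilter SW) (B : Set (List SW)) (σ : List SW) : Prop := ∃ α, Rk v B α σ

theorem not_bd {v : Ultrafilter SW} {B : Set (List SW)} {σ : List SW} (h : ¬ Bd v B σ) :
    {t | ¬ Bd v B (σ ++ [t])} ∈ v := by
  by_contra hc
  have h1 : {t | Bd v B (σ ++ [t])} ∈ v := by
    rw [← Ultrafilter.compl_mem_iff_notMem] at hc
    convert hc using 1
    ext t
    simp
  choose! f hf using fun t (ht : t ∈ {t | Bd v B (σ ++ [t])}) => ht
  exact h ⟨(⨆ t, f t) + 1, Rk.step _ f h1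
    (fun t _ => Order.lt_add_one_iff.2 (Ordinal.le_iSup f t)) hf⟩

/-- the least rank -/
noncomputable def rk (v : Ultrafilter SW) (B : Set (List SW)) (σ : List SW) : Ordinal.{0} :=
  sInf {α | Rk v B α σ}

theorem rk_step {v : Ultrafilter SW} {B : Set (List SW)} {σ : List SW} (h : Bd v B σ)
    (hB : σ ∉ B) : {t | Bd v B (σ ++ [t]) ∧ rk v B (σ ++ [t]) < rk v B σ} ∈ v := by
  have h1 : Rk v B (rk v B σ) σ := csInf_mem h
  cases h1 with
  | base h => exact absurd h hB
  | step D f hD hf h2 =>
    filter_upwards [hD] with t ht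
    exact ⟨⟨_, h2 t ht⟩, lt_of_le_of_lt (csInf_le' (h2 t ht)) (hf t ht)⟩

/-- the initial segments which have no good extension -/
def bad (G : (ℕ → SW) → Prop) : Set (List SW) :=
  {σ | ∀ t, BW t → (List.range σ.length).map t = σ → ¬ G t}

theorem seg_not_bad {G : (ℕ → SW) → Prop} {t : ℕ → SW} (ht : BW t) (hG : G t) (l : ℕ) :
    (List.range l).map t ∉ bad G := fun h => h t ht (by simp) hG

theorem bw_wd {w : ℕ → VW} (hne : ∀ i, w i ≠ [])
    (hs : ∀ i, (w i).Pairwise fun x y => x.1 < y.1)
    (hw : ∀ i, ∀ x ∈ w i, ∀ y ∈ w (i + 1), x.1 < y.1) {F : ℕ → Finset ℕ} (hF : Blk F)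
    (a : ℕ → ℕ) : BW (fun l => wd w a (F l)) := by
  have hlt : ∀ i j, i < j → ∀ x ∈ w i, ∀ y ∈ w j, x.1 < y.1 := by
    intro i j hij
    induction j, hij using Nat.le_induction with
    | base => exact hw i
    | succ j hj ih =>
      intro x hx y hy
      obtain ⟨z, hz⟩ := List.exists_mem_of_ne_nil _ (hne j)
      exact (ih x hx z hz).trans (hw j z hz y hy)
  have hmem : ∀ (I : Finset ℕ) (x : ℕ × ℕ), x ∈ wd w a I → ∃ i ∈ I, ∃ y ∈ w i, x.1 = y.1 := by
    intro I x hx
    unfold wd wrd at hx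
    rw [List.mem_flatMap] at hx
    obtain ⟨i, hi, hx⟩ := hx
    unfold sb at hx
    obtain ⟨y, hy, rfl⟩ := List.mem_map.1 hx
    exact ⟨i, (Finset.mem_sort _).1 hi, y, hy, rfl⟩
  refine ⟨fun l => ⟨wd_ne_nil hne (hF.1 l), ?_⟩, fun l x hx y hy => ?_⟩
  · have hp : ∀ L : List ℕ, L.Pairwise (· < ·) →
        (wrd w a L).Pairwise fun x y => x.1 < y.1 := by
      intro L h1
      unfold wrd
      induction L with
      | nil => simp
      | cons i L ih =>
        rw [List.pairwise_cons] at h1
        rw [List.flatMap_cons, List.pairwise_append]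
        refine ⟨?_, ih h1.2, fun x hx y hy => ?_⟩
        · unfold sb
          rw [List.pairwise_map]
          exact hs i
        · unfold sb at hx
          obtain ⟨x', hx', rfl⟩ := List.mem_map.1 hx
          rw [List.mem_flatMap] at hy
          obtain ⟨i', hi', hy⟩ := hy
          unfold sb at hy
          obtain ⟨y', hy', rfl⟩ := List.mem_map.1 hy
          exact hlt i i' (h1.1 i' hi') x' hx' y' hy'
    exact hp _ (Finset.sortedLT_sort _).pairwise
  · obtain ⟨i, hi, x', hx', hx2⟩ := hmem _ x hx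
    obtain ⟨i', hi', y', hy', hy2⟩ := hmem _ y hy
    rw [hx2, hy2]
    exact hlt i i' (hF.2 l i hi i' hi') x' hx' y' hy'

/-- `closed_words`: countably many families of sequences of located words, closed under limits,
such that below every block sequence there is one in the family -/
theorem closed_words (G : ℕ → (ℕ → SW) → Prop)
    (hcl : ∀ j t, BW t → ¬ G j t → ∃ m, ∀ t', BW t' → (∀ i < m, t' i = t i) → ¬ G j t')
    (hex : ∀ j x, BW x → ∃ F, Blk F ∧ G j (fun l => un x (F l)))
    (H K : List VW → ℕ) (N : ℕ) :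
    ∃ w : ℕ → VW, (∀ i, Var (w i)) ∧ (∀ i, Bey N (w i)) ∧
      (∀ i, ∀ x ∈ w i, ∀ y ∈ w (i + 1), x.1 < y.1) ∧
      ∀ (j : ℕ) (F : ℕ → Finset ℕ) (a : ℕ → ℕ), Blk F →
        (∀ l, ∀ i ∈ F l, j ≤ K ((List.range i).map w)) →
        (∀ i, a i ≤ H ((List.range i).map w)) → G j (fun l => wd w a (F l)) := by
  classical
  obtain ⟨v, E, hv, hE, hB, hV, -⟩ := exists_ult
  -- the empty sequence has no rank
  have hnil : ∀ j, ¬ Bd v (bad (G j)) [] := by
    intro j hbd
    obtain ⟨w, -, hw2, hw3, hw4⟩ := generic hv hE hB hV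
      (fun _ σ => if Bd v (bad (G j)) σ ∧ σ ∉ bad (G j) then
        {t | Bd v (bad (G j)) (σ ++ [t]) ∧ rk v (bad (G j)) (σ ++ [t]) < rk v (bad (G j)) σ}
        else Set.univ)
      (fun _ σ => by
        split_ifs with h
        · exact rk_step h.1 h.2
        · exact Filter.univ_mem) (fun _ => 0) (fun _ => 0) 0
    have hx : BW (fun i => sb 0 (w i)) := by
      have h1 := bw_wd (fun i => (hw2 i).1) (fun i => (hw2 i).2.1) hw3
        (F := fun i => {i}) ⟨fun i => Finset.singleton_nonempty i, fun i x hx y hy => by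
          rw [Finset.mem_singleton] at hx hy; omega⟩ (fun _ => 0)
      have h2 : (fun l => wd w (fun _ => 0) {l}) = fun i => sb 0 (w i) := by
        funext i
        simp [wd, wrd]
      rw [← h2]
      exact h1
    obtain ⟨F, hF, hG⟩ := hex j _ hx
    have hy : BW (fun l => wd w (fun _ => 0) (F l)) :=
      bw_wd (fun i => (hw2 i).1) (fun i => (hw2 i).2.1) hw3 hF _
    have h3 := hw4 0 F (fun _ => 0) hF (fun _ _ _ => Nat.zero_le _) (fun _ => le_rfl)
    have hb : ∀ l, Bd v (bad (G j)) ((List.range l).map fun l => wd w (fun _ => 0) (F l)) := by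
      intro l
      induction l with
      | zero => exact hbd
      | succ l ih =>
        have h4 := h3 l
        rw [if_pos ⟨ih, seg_not_bad hy hG l⟩] at h4
        rw [List.range_succ, List.map_append]
        exact h4.1
    refine not_strictAnti_of_wellFoundedLT
      (fun l => rk v (bad (G j)) ((List.range l).map fun l => wd w (fun _ => 0) (F l))) ?_
    refine strictAnti_nat_of_succ_lt fun l => ?_
    have h4 := h3 l
    rw [if_pos ⟨hb l, seg_not_bad hy hG l⟩] at h4
    rw [List.range_succ, List.map_append]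
    exact h4.2
  obtain ⟨w, hw1, hw2, hw3, hw4⟩ := generic hv hE hB hV
    (fun j σ => if ¬ Bd v (bad (G j)) σ then {t | ¬ Bd v (bad (G j)) (σ ++ [t])} else Set.univ)
    (fun j σ => by
      split_ifs with h
      · exact Filter.univ_mem
      · exact not_bd h) H K N
  refine ⟨w, hw1, hw2, hw3, fun j F a hF hj ha => ?_⟩
  have hb : ∀ l, ¬ Bd v (bad (G j)) ((List.range l).map fun l => wd w a (F l)) := by
    intro l
    induction l with
    | zero => exact hnil j
    | succ l ih =>
      have h4 := hw4 j F a hF hj ha l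
      rw [if_pos ih] at h4
      rw [List.range_succ, List.map_append]
      exact h4
  by_contra hG
  have ht : BW (fun l => wd w a (F l)) :=
    bw_wd (fun i => (hw2 i).1) (fun i => (hw2 i).2.1) hw3 hF a
  obtain ⟨m, hm⟩ := hcl j _ ht hG
  refine hb m ⟨0, Rk.base ?_⟩
  intro t' ht' hseg
  refine hm t' ht' fun i hi => ?_
  have h5 := congrArg (fun L => L[i]?) hseg
  simpa [hi] using h5

end Pool.Agent.Run7.h965.MX
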