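import Pool.Agent.Run7.h965.MX.Closed
import Pool.Agent.W68.GapMain

/-!
Exact prime patterns along systems of located variable words.
-/

set_option autoImplicit false

namespace Pool.Agent.Run7.h965.MX

open Filter Pool.Agent.W68.Mil Pool.Agent.H752R3.MT Pool.Agent.W68.Her

/-- the union of the first `m + 1` words -/
def cat (t : ℕ → SW) (m : ℕ) : SW := (List.range (m + 1)).flatMap t

theorem cat_succ (t : ℕ → SW) (m : ℕ) : cat t (m + 1) = cat t m ++ t (m + 1) := by
  unfold cat
  rw [List.range_succ, List.flatMap_append]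
  simp

theorem cat_zero (t : ℕ → SW) : cat t 0 = t 0 := by simp [cat]

theorem BW.lt {t : ℕ → SW} (ht : BW t) {i j : ℕ} (hij : i < j) :
    ∀ x ∈ t i, ∀ y ∈ t j, x.1 < y.1 := by
  induction j, hij using Nat.le_induction with
  | base => exact ht.2 i
  | succ j hj ih =>
    intro x hx y hy
    obtain ⟨z, hz⟩ := List.exists_mem_of_ne_nil _ (ht.1 j).1
    exact (ih x hx z hz).trans (ht.2 j z hz y hy)

/-- increasing positions -/
def Inc (s : SW) : Prop := s.Pairwise fun x y => x.1 < y.1

theorem BW.inc_cat {t : ℕ → SW} (ht : BW t) (m : ℕ) : Inc (cat t m) := by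
  induction m with
  | zero => rw [cat_zero]; exact (ht.1 0).2
  | succ m ih =>
    rw [cat_succ]
    refine List.pairwise_append.2 ⟨ih, (ht.1 _).2, fun x hx y hy => ?_⟩
    unfold cat at hx
    rw [List.mem_flatMap] at hx
    obtain ⟨i, hi, hx⟩ := hx
    exact ht.lt (List.mem_range.1 hi) x hx y hy

theorem BW.cat_ne {t : ℕ → SW} (ht : BW t) (m : ℕ) : cat t m ≠ [] := by
  rcases m with _ | m
  · rw [cat_zero]; exact (ht.1 0).1
  · rw [cat_succ]
    intro h
    exact (ht.1 (m + 1)).1 (List.append_eq_nil_iff.1 h).2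

theorem cat_congr {t t' : ℕ → SW} {M : ℕ} (h : ∀ i < M, t' i = t i) {m : ℕ} (hm : m < M) :
    cat t' m = cat t m := by
  unfold cat
  refine List.flatMap_congr fun i hi => h i ?_
  have := List.mem_range.1 hi
  omega

/-- a function which grows strictly along extensions -/
def Gr (g : SW → ℤ) : Prop := ∀ s t, s ≠ [] → t ≠ [] → Inc (s ++ t) → g s < g (s ++ t)

theorem Gr.mono_cat {g : SW → ℤ} (hg : Gr g) {t : ℕ → SW} (ht : BW t) : StrictMono fun m => g (cat t m) :=
  strictMono_nat_of_lt_succ fun m => by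
    rw [cat_succ]
    refine hg _ _ (ht.cat_ne m) (ht.1 _).1 ?_
    rw [← cat_succ]
    exact ht.inc_cat _

theorem Gr.le_cat {g : SW → ℤ} (hg : Gr g) {t : ℕ → SW} (ht : BW t) (m : ℕ) :
    g (t 0) + m ≤ g (cat t m) := by
  induction m with
  | zero => rw [cat_zero]; simp
  | succ m ih =>
    have h1 : g (cat t m) < g (cat t (m + 1)) := hg.mono_cat ht (Nat.lt_succ_self m)
    push_cast
    omega

/-- grouping an infinite block sequence along an infinite set of indices -/
theorem group {x : ℕ → SW} (M : Set ℕ) (hM : M.Infinite) :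
    ∃ F : ℕ → Finset ℕ, Blk F ∧ (∀ m, cat (fun l => un x (F l)) m = cat x (Nat.nth (· ∈ M) m)) := by
  classical
  set μ : ℕ → ℕ := Nat.nth (· ∈ M) with hμ
  have hμm : StrictMono μ := Nat.nth_strictMono hM
  set F : ℕ → Finset ℕ := fun l => Finset.Ico (if l = 0 then 0 else μ (l - 1) + 1) (μ l + 1) with hF
  have hsort : ∀ a b, (Finset.Ico a (a + b)).sort (· ≤ ·) = List.range' a b := by
    intro a b
    rw [← List.toFinset_range'_1]
    refine (List.toFinset_sort (· ≤ ·) (List.nodup_range')).2 ?_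
    exact (List.pairwise_lt_range' (s := a) (n := b)).imp fun h => h.le
  have hun : ∀ a b, a ≤ b → un x (Finset.Ico a b) = (List.range' a (b - a)).flatMap x := by
    intro a b hab
    unfold un
    conv_lhs => rw [show b = a + (b - a) by omega]
    rw [hsort]
  refine ⟨F, ⟨fun l => ?_, fun l a ha b hb => ?_⟩, fun m => ?_⟩
  · rw [hF]
    simp only
    rw [Finset.nonempty_Ico]
    split_ifs with h
    · omega
    · have := hμm (show l - 1 < l by omega)
      omega
  · simp only [hF, Finset.mem_Ico] at ha hb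
    rw [if_neg (by omega)] at hb
    simp only [Nat.add_sub_cancel] at hb
    omega
  · induction m with
    | zero =>
      rw [cat_zero]
      simp only [hF, if_pos]
      rw [hun _ _ (by omega)]
      unfold cat
      rw [Nat.sub_zero, List.range_eq_range']
    | succ m ih =>
      rw [cat_succ, ih]
      simp only [hF]
      rw [if_neg (by omega), Nat.add_sub_cancel]
      have h1 : μ m < μ (m + 1) := hμm (Nat.lt_succ_self m)
      rw [hun _ _ (by omega)]
      unfold cat
      rw [← List.flatMap_append]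
      congr 1
      rw [List.range_eq_range', List.range_eq_range']
      have h2 := List.range'_append (s := 0) (m := μ m + 1) (n := μ (m + 1) + 1 - (μ m + 1)) (step := 1)
      rw [show 0 + 1 * (μ m + 1) = μ m + 1 by omega,
        show μ m + 1 + (μ (m + 1) + 1 - (μ m + 1)) = μ (m + 1) + 1 by omega] at h2
      exact h2

/-- bad sequences are recognised by an initial segment -/
theorem closed_of_size {Φ : SW → ℤ × ℤ} {g : SW → ℤ} (hg : Gr g)
    (hgΦ : ∀ s, g s ≤ |(Φ s).1| + |(Φ s).2|) {t : ℕ → SW} (ht : BW t)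
    (hG : ¬ ExF (Set.range fun m => Φ (cat t m))) :
    ∃ m, ∀ t', BW t' → (∀ i < m, t' i = t i) → ¬ ExF (Set.range fun m => Φ (cat t' m)) := by
  unfold ExF at hG
  push Not at hG
  obtain ⟨T, hT1, hT2⟩ := hG
  obtain ⟨M, hM⟩ : ∃ M : ℕ, ∀ f ∈ T, |f.1| + |f.2| - g (t 0) < M := by
    refine ⟨(T.sup fun f => (|f.1| + |f.2| - g (t 0)).toNat) + 1, fun f hf => ?_⟩
    have h1 : (|f.1| + |f.2| - g (t 0)).toNat ≤ T.sup fun f => (|f.1| + |f.2| - g (t 0)).toNat :=
      Finset.le_sup (f := fun f : ℤ × ℤ => (|f.1| + |f.2| - g (t 0)).toNat) hf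
    have h2 := Int.self_le_toNat (|f.1| + |f.2| - g (t 0))
    have h3 : ((|f.1| + |f.2| - g (t 0)).toNat : ℤ) ≤
        ((T.sup fun f => (|f.1| + |f.2| - g (t 0)).toNat : ℕ) : ℤ) := by
      exact_mod_cast h1
    push_cast
    linarith
  refine ⟨M + 1, fun t' ht' htt hG' => ?_⟩
  have h0 : t' 0 = t 0 := htt 0 (by omega)
  refine (congr_inf (fun f hf => ?_) (hG' T hT1)) hT2
  have hb : ∀ s : ℕ → SW, BW s → s 0 = t 0 → ∀ m, Φ (cat s m) = f → m < M + 1 := by
    intro s hs hs0 m hm
    have h1 := hM f hf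
    have h2 := hg.le_cat hs m
    have h3 := hgΦ (cat s m)
    rw [hm] at h3
    rw [hs0] at h2
    have : (m : ℤ) < M := by linarith
    have : m < M := by exact_mod_cast this
    omega
  constructor
  · rintro ⟨m, rfl⟩
    refine ⟨m, ?_⟩
    simp only
    rw [cat_congr htt (hb t' ht' h0 m rfl)]
  · rintro ⟨m, rfl⟩
    refine ⟨m, ?_⟩
    simp only
    rw [cat_congr htt (hb t ht rfl m rfl)]

/-- infinite exact sets below a sequence of forms -/
theorem exists_group {x : ℕ → SW} {Φ : SW → ℤ × ℤ} (hinj : Function.Injective fun n => Φ (cat x n))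
    (hp : ∀ n, 1 ≤ (Φ (cat x n)).1 ∧ IsCoprime (Φ (cat x n)).1 (Φ (cat x n)).2) :
    ∃ F, Blk F ∧ ExF (Set.range fun m => Φ (cat (fun l => un x (F l)) m)) := by
  classical
  obtain ⟨G, hG1, hG2, hG3⟩ := Pool.Agent.H361R2.Inf.exact_infinite
    (Set.range fun n => Φ (cat x n)) (Set.infinite_range_of_injective hinj) (by
      rintro _ ⟨m, rfl⟩
      exact hp m)
  set M : Set ℕ := (fun n => Φ (cat x n)) ⁻¹' G with hM
  have hMG : (fun n => Φ (cat x n)) '' M = G := by
    ext f
    constructor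
    · rintro ⟨m, hm, rfl⟩; exact hm
    · intro hf
      obtain ⟨m, rfl⟩ := hG1 hf
      exact ⟨m, hf, rfl⟩
  have hMi : M.Infinite := by
    intro h
    apply hG2
    rw [← hMG]
    exact h.image _
  obtain ⟨F, hF, hFc⟩ := group (x := x) M hMi
  refine ⟨F, hF, ?_⟩
  have : (Set.range fun m => Φ (cat (fun l => un x (F l)) m)) = G := by
    rw [← hMG]
    ext f
    constructor
    · rintro ⟨m, rfl⟩
      simp only
      rw [hFc]
      exact ⟨_, Nat.nth_mem_of_infinite hMi m, rfl⟩
    · rintro ⟨n, hn, rfl⟩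
      obtain ⟨m, hm⟩ : ∃ m, Nat.nth (· ∈ M) m = n := by
        have h : Set.range (Nat.nth (· ∈ M)) = {n | n ∈ M} := Nat.range_nth_of_infinite hMi
        have h' : n ∈ Set.range (Nat.nth (· ∈ M)) := by
          rw [h]; exact hn
        exact h'
      refine ⟨m, ?_⟩
      simp only
      rw [hFc, hm]
  rw [this]
  exact hG3

/-- the word over a union of blocks -/
theorem cat_wd {w : ℕ → VW} {a : ℕ → ℕ} {F : ℕ → Finset ℕ} (hF : Blk F) (m : ℕ) :
    cat (fun l => wd w a (F l)) m = wd w a ((Finset.range (m + 1)).biUnion F) := by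
  classical
  have happ : ∀ I J : Finset ℕ, (∀ x ∈ I, ∀ y ∈ J, x < y) → wd w a (I ∪ J) = wd w a I ++ wd w a J := by
    intro I J hIJ
    unfold wd wrd
    rw [← List.flatMap_append]
    congr 1
    have h1 : (I.sort (· ≤ ·) ++ J.sort (· ≤ ·)).toFinset = I ∪ J := by
      ext x
      simp
    rw [← h1]
    have hpw : (I.sort (· ≤ ·) ++ J.sort (· ≤ ·)).Pairwise (· < ·) :=
      List.pairwise_append.2 ⟨(Finset.sortedLT_sort _).pairwise, (Finset.sortedLT_sort _).pairwise,
        fun x hx y hy => hIJ x ((Finset.mem_sort _).1 hx) y ((Finset.mem_sort _).1 hy)⟩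
    refine (List.toFinset_sort (· ≤ ·) (hpw.imp fun h => h.ne)).2 ?_
    exact hpw.imp fun h => h.le
  induction m with
  | zero =>
    rw [cat_zero]
    simp
  | succ m ih =>
    rw [cat_succ, ih, ← happ]
    · congr 1
      rw [Finset.range_add_one (n := m + 1), Finset.biUnion_insert, Finset.union_comm]
    · intro x hx y hy
      obtain ⟨i, hi, hx⟩ := Finset.mem_biUnion.1 hx
      have := Finset.mem_range.1 hi
      exact hF.lt (by omega : i < m + 1) x hx y hy

/-- exact patterns of forms along systems of words: infinite patterns -/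
theorem forms_inf (Φ : ℕ → SW → ℤ × ℤ) (g : ℕ → SW → ℤ) (hg : ∀ j, Gr (g j))
    (hgΦ : ∀ j s, g j s ≤ |(Φ j s).1| + |(Φ j s).2|)
    (hp : ∀ j s, s ≠ [] → Inc s → 1 ≤ (Φ j s).1 ∧ IsCoprime (Φ j s).1 (Φ j s).2)
    (hinj : ∀ j t, BW t → Function.Injective fun n => Φ j (cat t n))
    (H K : List VW → ℕ) (N : ℕ) :
    ∃ w : ℕ → VW, (∀ i, Var (w i)) ∧ (∀ i, Bey N (w i)) ∧
      (∀ i, ∀ x ∈ w i, ∀ y ∈ w (i + 1), x.1 < y.1) ∧
      ∀ (j : ℕ) (F : ℕ → Finset ℕ) (a : ℕ → ℕ), Blk F →
        (∀ l, ∀ i ∈ F l, j ≤ K ((List.range i).map w)) →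
        (∀ i, a i ≤ H ((List.range i).map w)) →
        ExF (Set.range fun m => Φ j (wd w a ((Finset.range (m + 1)).biUnion F))) := by
  classical
  obtain ⟨w, h1, h2, h3, h4⟩ := closed_words
    (fun j t => ExF (Set.range fun m => Φ j (cat t m)))
    (fun j t ht hG => closed_of_size (hg j) (hgΦ j) ht hG)
    (fun j x hx => exists_group (hinj j x hx) (fun n => hp j _ (hx.cat_ne n) (hx.inc_cat n))) H K N
  refine ⟨w, h1, h2, h3, fun j F a hF hj ha => ?_⟩
  have h5 := h4 j F a hF hj ha
  have e : (fun m => Φ j (cat (fun l => wd w a (F l)) m)) =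
      fun m => Φ j (wd w a ((Finset.range (m + 1)).biUnion F)) := by
    funext m
    rw [cat_wd hF]
  rwa [e] at h5

end Pool.Agent.Run7.h965.MX
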