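import Pool.Agent.Run7.h965.MX.Gaps2

/-!
Exact prime patterns of linear forms along systems of located variable words: finite patterns, with
parameters.
-/

set_option autoImplicit false

namespace Pool.Agent.Run7.h965.MX

open Filter Pool.Agent.W68.Mil Pool.Agent.H752R3.MT Pool.Agent.W68.Her

/-- finite patterns of forms -/
theorem forms_cut {Φ : SW → ℤ × ℤ} {g : SW → ℤ} (hg : Gr g)
    (hgΦ : ∀ s, g s ≤ |(Φ s).1| + |(Φ s).2|) {w : ℕ → VW} {N : ℕ}
    (hw2 : ∀ i, Bey N (w i)) (hw3 : ∀ i, ∀ x ∈ w i, ∀ y ∈ w (i + 1), x.1 < y.1) {i₀ : ℕ}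
    {a : ℕ → ℕ} (hR : ∀ F : ℕ → Finset ℕ, Blk F → (∀ l, ∀ i ∈ F l, i₀ ≤ i) →
      ExF (Set.range fun m => Φ (wd w a ((Finset.range (m + 1)).biUnion F)))) (k : ℕ)
    (F : ℕ → Finset ℕ) (h1 : ∀ l ≤ k, (F l).Nonempty) (h2 : ∀ l ≤ k, ∀ i ∈ F l, i₀ ≤ i)
    (h3 : ∀ l < k, ∀ i ∈ F l, ∀ i' ∈ F (l + 1), i < i') :
    ExF {f | ∃ m ≤ k, f = Φ (wd w a ((Finset.range (m + 1)).biUnion F))} := by
  classical
  intro T hT
  have hne : ∀ i, w i ≠ [] := fun i => (hw2 i).1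
  have hs : ∀ i, (w i).Pairwise fun x y => x.1 < y.1 := fun i => (hw2 i).2.1
  set g0 := g (wd w a (F 0)) with hg0
  obtain ⟨M, hM⟩ : ∃ M : ℕ, ∀ f ∈ T, |f.1| + |f.2| - g0 < M := by
    refine ⟨(T.sup fun f => (|f.1| + |f.2| - g0).toNat) + 1, fun f hf => ?_⟩
    have h1 : (|f.1| + |f.2| - g0).toNat ≤ T.sup fun f => (|f.1| + |f.2| - g0).toNat :=
      Finset.le_sup (f := fun f : ℤ × ℤ => (|f.1| + |f.2| - g0).toNat) hf
    have h2 := Int.self_le_toNat (|f.1| + |f.2| - g0)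
    have h3 : ((|f.1| + |f.2| - g0).toNat : ℤ) ≤
        ((T.sup fun f => (|f.1| + |f.2| - g0).toNat : ℕ) : ℤ) := by
      exact_mod_cast h1
    push_cast
    linarith
  obtain ⟨G, hG1, hG2, hG3, hG4⟩ := Pool.Agent.W68.Gap.extend i₀ (k + 1) F
    (fun l hl => h1 l (by omega)) (fun l hl => h2 l (by omega)) (fun l hl => h3 l (by omega)) M
  have hcong : ∀ m ≤ k, (Finset.range (m + 1)).biUnion G = (Finset.range (m + 1)).biUnion F := by
    intro m hm
    refine Finset.biUnion_congr rfl fun l hl => hG2 l ?_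
    have := Finset.mem_range.1 hl
    omega
  have hbw : BW (fun l => wd w a (G l)) := bw_wd hne hs hw3 hG1 a
  have hbig : ∀ m, k < m → ∀ f ∈ T, f ≠ Φ (wd w a ((Finset.range (m + 1)).biUnion G)) := by
    intro m hm f hf hfm
    have e1 : g (cat (fun l => wd w a (G l)) (k + 1)) ≤ g (cat (fun l => wd w a (G l)) m) :=
      (hg.mono_cat hbw).monotone hm
    have e2 : g (wd w a (G 0)) ≤ g (cat (fun l => wd w a (G l)) k) := by
      have := (hg.mono_cat hbw).monotone (Nat.zero_le k)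
      simp only [cat_zero] at this
      exact this
    have e3 := gr_card hg hne hs hw3 a (I := (Finset.range (k + 1)).biUnion G) (J := G (k + 1)) (by
      obtain ⟨i, hi⟩ := hG1.1 0
      exact ⟨i, Finset.mem_biUnion.2 ⟨0, Finset.mem_range.2 (by omega), hi⟩⟩) (by
      intro x hx y hy
      obtain ⟨i, hi, hx⟩ := Finset.mem_biUnion.1 hx
      have := Finset.mem_range.1 hi
      exact hG1.lt (by omega : i < k + 1) x hx y hy)
    have e4 : (Finset.range (k + 1)).biUnion G ∪ G (k + 1) =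
        (Finset.range (k + 1 + 1)).biUnion G := by
      rw [Finset.range_add_one (n := k + 1), Finset.biUnion_insert, Finset.union_comm]
    rw [e4, ← cat_wd hG1, ← cat_wd hG1] at e3
    have e5 : (M : ℤ) < (G (k + 1)).card := by exact_mod_cast hG4
    have e6 := hgΦ (cat (fun l => wd w a (G l)) m)
    rw [cat_wd hG1, ← hfm, ← cat_wd hG1] at e6
    have e7 := hM f hf
    rw [hG2 0 (by omega)] at e2
    linarith
  refine congr_inf (fun f hf => ?_) (hR G hG1 hG3 T hT)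
  constructor
  · rintro ⟨m, hm⟩
    by_cases hmk : m ≤ k
    · refine ⟨m, hmk, ?_⟩
      rw [← hcong m hmk]
      exact hm.symm
    · exact absurd hm.symm (hbig m (by omega) f hf)
  · rintro ⟨m, hm, h⟩
    refine ⟨m, ?_⟩
    simp only
    rw [hcong m hm]
    exact h.symm

/-- closed families of sequences of words with a parameter -/
theorem param_words (G : ℕ → ℕ → (ℕ → SW) → Prop)
    (hcl : ∀ j c t, BW t → ¬ G j c t → ∃ m, ∀ t', BW t' → (∀ i < m, t' i = t i) → ¬ G j c t')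
    (hex : ∀ j c x, BW x → ∃ F, Blk F ∧ G j c (fun l => un x (F l)))
    (H C : List VW → ℕ) (N : ℕ) :
    ∃ w : ℕ → VW, (∀ i, Var (w i)) ∧ (∀ i, Bey N (w i)) ∧
      (∀ i, ∀ x ∈ w i, ∀ y ∈ w (i + 1), x.1 < y.1) ∧
      ∀ (j c i₀ : ℕ) (F : ℕ → Finset ℕ) (a : ℕ → ℕ), j ≤ i₀ →
        c ≤ C ((List.range i₀).map w) → Blk F → (∀ l, ∀ i ∈ F l, i₀ ≤ i) →
        (∀ i, a i ≤ H ((List.range i).map w)) → G j c (fun l => wd w a (F l)) := by
  obtain ⟨w, h1, h2, h3, h4⟩ := closed_words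
    (fun t s => G (Denumerable.ofNat (ℕ × ℕ) t).1 (Denumerable.ofNat (ℕ × ℕ) t).2 s)
    (fun t s hs hG => hcl _ _ s hs hG) (fun t x hx => hex _ _ x hx) H (KK C) N
  refine ⟨w, h1, h2, h3, fun j c i₀ F a hj hc hF hF2 ha => ?_⟩
  have h5 := h4 (Encodable.encode (j, c)) F a hF (fun l i hi => KK_le C w (hF2 l i hi) hj hc) ha
  simpa only [Denumerable.ofNat_encode] using h5

/-- exact patterns of forms along systems of words, with parameters -/
theorem forms_param (Φ : ℕ → ℕ → SW → ℤ × ℤ) (g : ℕ → ℕ → SW → ℤ) (hg : ∀ j c, Gr (g j c))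
    (hgΦ : ∀ j c s, g j c s ≤ |(Φ j c s).1| + |(Φ j c s).2|)
    (hp : ∀ j c s, s ≠ [] → Inc s → 1 ≤ (Φ j c s).1 ∧ IsCoprime (Φ j c s).1 (Φ j c s).2)
    (hinj : ∀ j c t, BW t → Function.Injective fun n => Φ j c (cat t n))
    (H C : List VW → ℕ) (N : ℕ) :
    ∃ w : ℕ → VW, (∀ i, Var (w i)) ∧ (∀ i, Bey N (w i)) ∧
      (∀ i, ∀ x ∈ w i, ∀ y ∈ w (i + 1), x.1 < y.1) ∧
      ∀ (j k c i₀ : ℕ) (F : ℕ → Finset ℕ) (a : ℕ → ℕ), j ≤ i₀ →
        c ≤ C ((List.range i₀).map w) →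
        (∀ l ≤ k, (F l).Nonempty) → (∀ l ≤ k, ∀ i ∈ F l, i₀ ≤ i) →
        (∀ l < k, ∀ i ∈ F l, ∀ i' ∈ F (l + 1), i < i') →
        (∀ i, a i ≤ H ((List.range i).map w)) →
        ExF {f | ∃ m ≤ k, f = Φ j c (wd w a ((Finset.range (m + 1)).biUnion F))} := by
  obtain ⟨w, h1, h2, h3, h4⟩ := param_words
    (fun j c t => ExF (Set.range fun m => Φ j c (cat t m)))
    (fun j c t ht hG => closed_of_size (hg j c) (hgΦ j c) ht hG)
    (fun j c x hx => exists_group (hinj j c x hx)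
      (fun n => hp j c _ (hx.cat_ne n) (hx.inc_cat n))) H C N
  refine ⟨w, h1, h2, h3, fun j k c i₀ F a hj hc hF1 hF2 hF3 ha => ?_⟩
  refine forms_cut (hg j c) (hgΦ j c) h2 h3 (i₀ := i₀) (fun F hF hF2 => ?_) k F hF1 hF2 hF3
  have h5 := h4 j c i₀ F a hj hc hF hF2 ha
  have e : (fun m => Φ j c (cat (fun l => wd w a (F l)) m)) =
      fun m => Φ j c (wd w a ((Finset.range (m + 1)).biUnion F)) := by
    funext m
    rw [cat_wd hF]
  rwa [e] at h5

end Pool.Agent.Run7.h965.MX
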