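import Pool.Agent.Run7.h965.MX.Forms

/-!
Vectors of consecutive prime gaps along systems of located variable words.
-/

set_option autoImplicit false

namespace Pool.Agent.Run7.h965.MX

open Filter Pool.Agent.W68.Mil Pool.Agent.H752R3.MT Pool.Agent.W68.Her

/-- exact patterns relative to the first word -/
def Rel (φ : SW → ℤ) (q : ℕ) (r : ℤ) (t : ℕ → SW) : Prop :=
  (∀ m, (q : ℤ) ∣ φ (cat t m) - φ (t 0)) ∧
    ExF (Set.range fun m => ((q : ℤ), r + (φ (cat t m) - φ (t 0))))

theorem rel_closed {φ : SW → ℤ} (hφ : Gr φ) {q : ℕ} {r : ℤ} {t : ℕ → SW} (ht : BW t)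
    (hG : ¬ Rel φ q r t) :
    ∃ m, ∀ t', BW t' → (∀ i < m, t' i = t i) → ¬ Rel φ q r t' := by
  unfold Rel at hG
  rw [not_and_or] at hG
  rcases hG with hG | hG
  · push Not at hG
    obtain ⟨m, hm⟩ := hG
    refine ⟨m + 1, fun t' ht' htt hG' => hm ?_⟩
    have := hG'.1 m
    rwa [cat_congr htt (Nat.lt_succ_self m), htt 0 (by omega)] at this
  · unfold ExF at hG
    push Not at hG
    obtain ⟨T, hT1, hT2⟩ := hG
    obtain ⟨M, hM⟩ : ∃ M : ℕ, ∀ f ∈ T, f.2 - r < M := by
      refine ⟨(T.sup fun f => (f.2 - r).toNat) + 1, fun f hf => ?_⟩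
      have h1 : (f.2 - r).toNat ≤ T.sup fun f => (f.2 - r).toNat :=
        Finset.le_sup (f := fun f : ℤ × ℤ => (f.2 - r).toNat) hf
      have h2 := Int.self_le_toNat (f.2 - r)
      have h3 : ((f.2 - r).toNat : ℤ) ≤ ((T.sup fun f => (f.2 - r).toNat : ℕ) : ℤ) := by
        exact_mod_cast h1
      push_cast
      linarith
    refine ⟨M + 1, fun t' ht' htt hG' => ?_⟩
    have h0 : t' 0 = t 0 := htt 0 (by omega)
    refine (congr_inf (fun f hf => ?_) (hG'.2 T hT1)) hT2
    have hb : ∀ s : ℕ → SW, BW s → ∀ m, ((q : ℤ), r + (φ (cat s m) - φ (s 0))) = f →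
        m < M + 1 := by
      intro s hs m hm
      have h1 := hM f hf
      have h2 := hφ.le_cat hs m
      rw [← hm] at h1
      simp only at h1
      have : (m : ℤ) < M := by linarith
      have : m < M := by exact_mod_cast this
      omega
    constructor
    · rintro ⟨m, rfl⟩
      refine ⟨m, ?_⟩
      simp only
      rw [cat_congr htt (hb t' ht' m rfl), h0]
    · rintro ⟨m, rfl⟩
      refine ⟨m, ?_⟩
      simp only
      rw [cat_congr htt (hb t ht m rfl), h0]

theorem rel_exists {φ : SW → ℤ} (hφ : Gr φ) {q : ℕ} (hq : 1 ≤ q) {r : ℤ}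
    (hr : IsCoprime r (q : ℤ)) {x : ℕ → SW} (hx : BW x) :
    ∃ F, Blk F ∧ Rel φ q r (fun l => un x (F l)) := by
  classical
  have hq0 : (1 : ℤ) ≤ q := by exact_mod_cast hq
  have : NeZero q := ⟨by omega⟩
  obtain ⟨c, hc⟩ := Finite.exists_infinite_fiber fun n => ((φ (cat x n) : ℤ) : ZMod q)
  rw [Set.infinite_coe_iff] at hc
  set Nc : Set ℕ := (fun n => ((φ (cat x n) : ℤ) : ZMod q)) ⁻¹' {c} with hNc
  obtain ⟨nc, hnc⟩ := hc.nonempty
  have hdvd : ∀ n ∈ Nc, ∀ n' ∈ Nc, (q : ℤ) ∣ φ (cat x n) - φ (cat x n') := by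
    intro n hn n' hn'
    rw [← ZMod.intCast_zmod_eq_zero_iff_dvd, Int.cast_sub]
    rw [hNc, Set.mem_preimage, Set.mem_singleton_iff] at hn hn'
    rw [hn, hn', sub_self]
  set f : ℕ → ℤ × ℤ := fun n => ((q : ℤ), r - φ (cat x nc) + φ (cat x n)) with hf
  have hfinj : Function.Injective f := by
    intro m m' h
    have := (Prod.ext_iff.1 h).2
    simp only [hf] at this
    exact (hφ.mono_cat hx).injective (show φ (cat x m) = φ (cat x m') by linarith)
  obtain ⟨G, hG1, hG2, hG3⟩ := Pool.Agent.H361R2.Inf.exact_infinite (f '' Nc)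
    (hc.image hfinj.injOn) (by
      rintro _ ⟨m, hm, rfl⟩
      refine ⟨hq0, ?_⟩
      obtain ⟨t, ht⟩ := hdvd m hm nc hnc
      have e : (f m).2 = r + q * t := by
        simp only [hf]
        linarith
      rw [e]
      exact (IsCoprime.add_mul_left_right_iff).2 hr.symm)
  set M : Set ℕ := f ⁻¹' G with hM
  have hMN : M ⊆ Nc := by
    intro n hn
    obtain ⟨n', hn', h⟩ := hG1 hn
    rwa [← hfinj h]
  have hMG : f '' M = G := by
    ext g
    constructor
    · rintro ⟨m, hm, rfl⟩; exact hm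
    · intro hg
      obtain ⟨m, hm, rfl⟩ := hG1 hg
      exact ⟨m, hg, rfl⟩
  have hMi : M.Infinite := by
    intro h
    apply hG2
    rw [← hMG]
    exact h.image _
  obtain ⟨F, hF, hFc⟩ := group (x := x) M hMi
  set μ : ℕ → ℕ := Nat.nth (· ∈ M) with hμ
  have hμM : ∀ m, μ m ∈ M := fun m => Nat.nth_mem_of_infinite hMi m
  have h00 : un x (F 0) = cat x (μ 0) := by
    rw [← hFc 0, cat_zero]
  refine ⟨F, hF, fun m => ?_, ?_⟩
  · simp only
    rw [hFc, h00]
    exact hdvd _ (hMN (hμM m)) _ (hMN (hμM 0))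
  · obtain ⟨t, ht⟩ := hdvd _ (hMN (hμM 0)) nc hnc
    have h1 := Pool.Agent.W68.Gap.exF_translate hG3 t
    have hset : (Set.range fun m => ((q : ℤ), r + (φ (cat (fun l => un x (F l)) m) -
        φ (un x (F 0))))) = {g | (g.1, g.2 + g.1 * t) ∈ G} := by
      ext g
      simp only [Set.mem_range]
      constructor
      · rintro ⟨m, rfl⟩
        rw [hFc, h00]
        show ((q : ℤ), r + (φ (cat x (μ m)) - φ (cat x (μ 0))) + q * t) ∈ G
        rw [← ht]
        have : r + (φ (cat x (μ m)) - φ (cat x (μ 0))) + (φ (cat x (μ 0)) - φ (cat x nc)) =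
            r - φ (cat x nc) + φ (cat x (μ m)) := by ring
        rw [this]
        exact hμM m
      · intro hg
        have hg' : (g.1, g.2 + g.1 * t) ∈ f '' M := by rw [hMG]; exact hg
        obtain ⟨n, hn, he⟩ := hg'
        obtain ⟨m, rfl⟩ : ∃ m, μ m = n := by
          have h : Set.range (Nat.nth (· ∈ M)) = {n | n ∈ M} := Nat.range_nth_of_infinite hMi
          have h' : n ∈ Set.range (Nat.nth (· ∈ M)) := by
            rw [h]; exact hn
          exact h'
        refine ⟨m, ?_⟩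
        simp only [hf, Prod.mk.injEq] at he
        ext
        · exact he.1
        · have h3 := he.2
          rw [← he.1, ← ht] at h3
          simp only
          rw [hFc, h00]
          linarith
    show ExF (Set.range fun m => ((q : ℤ), r + (φ (cat (fun l => un x (F l)) m) -
        φ (un x (F 0)))))
    rw [hset]
    exact h1

/-- consecutive prime gaps along systems of words: infinite patterns -/
theorem gaps_inf (φ : ℕ → SW → ℤ) (hφ : ∀ j, Gr (φ j)) (q : ℕ → ℕ) (hq : ∀ j, 1 ≤ q j)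
    (r : ℕ → ℤ) (hr : ∀ j, IsCoprime (r j) (q j : ℤ)) (H K : List VW → ℕ) (N : ℕ) :
    ∃ w : ℕ → VW, (∀ i, Var (w i)) ∧ (∀ i, Bey N (w i)) ∧
      (∀ i, ∀ x ∈ w i, ∀ y ∈ w (i + 1), x.1 < y.1) ∧
      ∀ (j : ℕ) (F : ℕ → Finset ℕ) (a : ℕ → ℕ), Blk F →
        (∀ l, ∀ i ∈ F l, j ≤ K ((List.range i).map w)) →
        (∀ i, a i ≤ H ((List.range i).map w)) →
        Rel (φ j) (q j) (r j) (fun l => wd w a (F l)) :=
  closed_words (fun j t => Rel (φ j) (q j) (r j) t)
    (fun j _ ht hG => rel_closed (hφ j) ht hG)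
    (fun j _ hx => rel_exists (hφ j) (hq j) (hr j) hx) H K N

/-- adding a block raises the value by at least its number of words -/
theorem gr_card {φ : SW → ℤ} (hφ : Gr φ) {w : ℕ → VW} (hne : ∀ i, w i ≠ [])
    (hs : ∀ i, (w i).Pairwise fun x y => x.1 < y.1)
    (hw : ∀ i, ∀ x ∈ w i, ∀ y ∈ w (i + 1), x.1 < y.1) (a : ℕ → ℕ) {I J : Finset ℕ}
    (hI : I.Nonempty) (hIJ : ∀ x ∈ I, ∀ y ∈ J, x < y) :
    φ (wd w a I) + J.card ≤ φ (wd w a (I ∪ J)) := by
  classical
  have hlt : ∀ i j, i < j → ∀ x ∈ w i, ∀ y ∈ w j, x.1 < y.1 := by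
    intro i j hij
    induction j, hij using Nat.le_induction with
    | base => exact hw i
    | succ j hj ih =>
      intro x hx y hy
      obtain ⟨z, hz⟩ := List.exists_mem_of_ne_nil _ (hne j)
      exact (ih x hx z hz).trans (hw j z hz y hy)
  have hp : ∀ L : List ℕ, L.Pairwise (· < ·) → Inc (wrd w a L) := by
    intro L h1
    unfold wrd Inc
    induction L with
    | nil => simp
    | cons i L ih =>
      rw [List.pairwise_cons] at h1
      rw [List.flatMap_cons, List.pairwise_append]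
      refine ⟨?_, ih h1.2, fun x hx y hy => ?_⟩
      · unfold sb
        rw [List.pairwise_map]
        exact hs i
      · unfold sb at hx
        obtain ⟨x', hx', rfl⟩ := List.mem_map.1 hx
        rw [List.mem_flatMap] at hy
        obtain ⟨i', hi', hy⟩ := hy
        unfold sb at hy
        obtain ⟨y', hy', rfl⟩ := List.mem_map.1 hy
        exact hlt i i' (h1.1 i' hi') x' hx' y' hy'
  have hsort : (I ∪ J).sort (· ≤ ·) = I.sort (· ≤ ·) ++ J.sort (· ≤ ·) := by
    have h1 : (I.sort (· ≤ ·) ++ J.sort (· ≤ ·)).toFinset = I ∪ J := by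
      ext x
      simp
    rw [← h1]
    have hpw : (I.sort (· ≤ ·) ++ J.sort (· ≤ ·)).Pairwise (· < ·) :=
      List.pairwise_append.2 ⟨(Finset.sortedLT_sort _).pairwise, (Finset.sortedLT_sort _).pairwise,
        fun x hx y hy => hIJ x ((Finset.mem_sort _).1 hx) y ((Finset.mem_sort _).1 hy)⟩
    refine (List.toFinset_sort (· ≤ ·) (hpw.imp fun h => h.ne)).2 ?_
    exact hpw.imp fun h => h.le
  have key : ∀ L L' : List ℕ, L ≠ [] → (L ++ L').Pairwise (· < ·) →
      φ (wrd w a L) + L'.length ≤ φ (wrd w a (L ++ L')) := by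
    intro L L'
    induction L' generalizing L with
    | nil => intro _ _; simp
    | cons i L' ih =>
      intro hL hpw
      have h1 : L ++ i :: L' = (L ++ [i]) ++ L' := by simp
      rw [h1] at hpw ⊢
      have h2 := ih (L ++ [i]) (by simp) hpw
      have h3 : φ (wrd w a L) < φ (wrd w a (L ++ [i])) := by
        have e : wrd w a (L ++ [i]) = wrd w a L ++ sb (a i) (w i) := by
          unfold wrd
          rw [List.flatMap_append]
          simp
        rw [e]
        refine hφ _ _ (wrd_ne_nil hne hL) ?_ ?_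
        · unfold sb
          rw [ne_eq, List.map_eq_nil_iff]
          exact hne i
        · rw [← e]
          exact hp _ (List.pairwise_append.1 hpw).1
      simp only [List.length_cons]
      push_cast
      linarith
  have h4 := key (I.sort (· ≤ ·)) (J.sort (· ≤ ·)) (by
    intro h
    obtain ⟨i, hi⟩ := hI
    rw [← Finset.mem_sort (· ≤ ·), h] at hi
    simp at hi) (by
    rw [← hsort]
    exact (Finset.sortedLT_sort _).pairwise)
  rw [← hsort, Finset.length_sort] at h4
  exact h4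

end Pool.Agent.Run7.h965.MX
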