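import Pool.Agent.Run7.h965.MX.Gaps

/-!
Vectors of consecutive prime gaps along systems of located variable words: finite patterns, and
arrays of positive integers.
-/

set_option autoImplicit false

namespace Pool.Agent.Run7.h965.MX

open Filter Pool.Agent.W68.Mil Pool.Agent.H752R3.MT Pool.Agent.W68.Her

/-- the finite patterns -/
theorem gaps_fin {φ : SW → ℤ} (hφ : Gr φ) {q : ℕ} (hq : 1 ≤ q) {r : ℤ} {w : ℕ → VW} {N : ℕ}
    (hw2 : ∀ i, Bey N (w i)) (hw3 : ∀ i, ∀ x ∈ w i, ∀ y ∈ w (i + 1), x.1 < y.1) {j : ℕ}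
    {a : ℕ → ℕ} (hR : ∀ F : ℕ → Finset ℕ, Blk F → (∀ l, ∀ i ∈ F l, j ≤ i) →
      Rel φ q r (fun l => wd w a (F l))) (k : ℕ) (F : ℕ → Finset ℕ)
    (h1 : ∀ l ≤ k, (F l).Nonempty) (h2 : ∀ l ≤ k, ∀ i ∈ F l, j ≤ i)
    (h3 : ∀ l < k, ∀ i ∈ F l, ∀ i' ∈ F (l + 1), i < i') :
    (∀ m ≤ k, (q : ℤ) ∣ φ (wd w a ((Finset.range (m + 1)).biUnion F)) - φ (wd w a (F 0))) ∧
      ∀ R : ℕ, {n : ℕ | (n : ℤ) ≡ r [ZMOD q] ∧ ∀ y : ℤ, |y| ≤ R →
        (Nat.Prime ((n : ℤ) + y).toNat ↔ ∃ m ≤ k,
          y = φ (wd w a ((Finset.range (m + 1)).biUnion F)) - φ (wd w a (F 0)))}.Infinite := by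
  classical
  have hne : ∀ i, w i ≠ [] := fun i => (hw2 i).1
  have hs : ∀ i, (w i).Pairwise fun x y => x.1 < y.1 := fun i => (hw2 i).2.1
  have hext := fun R => Pool.Agent.W68.Gap.extend j (k + 1) F (fun l hl => h1 l (by omega))
    (fun l hl => h2 l (by omega)) (fun l hl => h3 l (by omega)) R
  have hcong : ∀ G : ℕ → Finset ℕ, (∀ l < k + 1, G l = F l) → ∀ m ≤ k,
      (Finset.range (m + 1)).biUnion G = (Finset.range (m + 1)).biUnion F := by
    intro G hG m hm
    refine Finset.biUnion_congr rfl fun l hl => hG l ?_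
    have := Finset.mem_range.1 hl
    omega
  constructor
  · intro m hm
    obtain ⟨G, hG1, hG2, hG3, -⟩ := hext 0
    have h4 := (hR G hG1 hG3).1 m
    rw [cat_wd hG1] at h4
    simp only at h4
    rwa [hcong G hG2 m hm, hG2 0 (by omega)] at h4
  · intro R
    obtain ⟨G, hG1, hG2, hG3, hG4⟩ := hext R
    have hrel := (hR G hG1 hG3).2
    have hbw : BW (fun l => wd w a (G l)) := bw_wd hne hs hw3 hG1 a
    have hwin := Pool.Agent.W68.Gap.window hq (r := r)
      (P := fun y => ∃ m, y = φ (cat (fun l => wd w a (G l)) m) - φ (wd w a (G 0))) (by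
        have : {f : ℤ × ℤ | f.1 = (q : ℤ) ∧ ∃ m, f.2 - r =
            φ (cat (fun l => wd w a (G l)) m) - φ (wd w a (G 0))} =
            Set.range fun m => ((q : ℤ), r + (φ (cat (fun l => wd w a (G l)) m) -
              φ (wd w a (G 0)))) := by
          ext f
          simp only [Set.mem_ofPred_eq, Set.mem_range]
          constructor
          · rintro ⟨h1, m, h2⟩
            refine ⟨m, ?_⟩
            ext
            · exact h1.symm
            · simp only
              linarith
          · rintro ⟨m, rfl⟩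
            refine ⟨rfl, m, ?_⟩
            simp only
            ring
        rw [this]
        exact hrel) R
    have hbig : ∀ m, k < m → (R : ℤ) < φ (cat (fun l => wd w a (G l)) m) - φ (wd w a (G 0)) := by
      intro m hm
      have e1 : φ (cat (fun l => wd w a (G l)) (k + 1)) ≤ φ (cat (fun l => wd w a (G l)) m) :=
        (hφ.mono_cat hbw).monotone hm
      have e2 : φ (wd w a (G 0)) ≤ φ (cat (fun l => wd w a (G l)) k) := by
        have := (hφ.mono_cat hbw).monotone (Nat.zero_le k)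
        simp only [cat_zero] at this
        exact this
      have e3 := gr_card hφ hne hs hw3 a (I := (Finset.range (k + 1)).biUnion G) (J := G (k + 1)) (by
        obtain ⟨i, hi⟩ := hG1.1 0
        exact ⟨i, Finset.mem_biUnion.2 ⟨0, Finset.mem_range.2 (by omega), hi⟩⟩) (by
        intro x hx y hy
        obtain ⟨i, hi, hx⟩ := Finset.mem_biUnion.1 hx
        have := Finset.mem_range.1 hi
        exact hG1.lt (by omega : i < k + 1) x hx y hy)
      have e4 : (Finset.range (k + 1)).biUnion G ∪ G (k + 1) =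
          (Finset.range (k + 1 + 1)).biUnion G := by
        rw [Finset.range_add_one (n := k + 1), Finset.biUnion_insert, Finset.union_comm]
      rw [e4, ← cat_wd hG1, ← cat_wd hG1] at e3
      have e5 : (R : ℤ) < (G (k + 1)).card := by exact_mod_cast hG4
      linarith
    refine hwin.mono ?_
    rintro n ⟨hn1, hn2⟩
    refine ⟨hn1, fun y hy => ?_⟩
    rw [hn2 y hy]
    constructor
    · rintro ⟨m, rfl⟩
      by_cases hm : m ≤ k
      · refine ⟨m, hm, ?_⟩
        rw [cat_wd hG1, hcong G hG2 m hm, hG2 0 (by omega)]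
      · exfalso
        have h5 := hbig m (by omega)
        have h6 := le_abs_self (φ (cat (fun l => wd w a (G l)) m) - φ (wd w a (G 0)))
        linarith
    · rintro ⟨m, hm, h2⟩
      refine ⟨m, ?_⟩
      rw [cat_wd hG1, hcong G hG2 m hm, hG2 0 (by omega)]
      exact h2

/-- the sum of an array over a word -/
def arr (d : ℕ → ℕ → ℕ) (s : SW) : ℤ := (s.map fun x => (d x.1 x.2 : ℤ)).sum

theorem arr_append (d : ℕ → ℕ → ℕ) (s t : SW) : arr d (s ++ t) = arr d s + arr d t := by
  unfold arr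
  rw [List.map_append, List.sum_append]

theorem arr_pos {d : ℕ → ℕ → ℕ} (hd : ∀ p a, 1 ≤ d p a) {s : SW} (hs : s ≠ []) : 0 < arr d s := by
  induction s with
  | nil => exact absurd rfl hs
  | cons x s ih =>
    have h0 : (1 : ℤ) ≤ d x.1 x.2 := by exact_mod_cast hd x.1 x.2
    have h1 : arr d (x :: s) = d x.1 x.2 + arr d s := by
      unfold arr
      rw [List.map_cons, List.sum_cons]
    rw [h1]
    by_cases h2 : s = []
    · rw [h2]
      unfold arr
      simp
      omega
    · have := ih h2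
      omega

theorem arr_gr {d : ℕ → ℕ → ℕ} (hd : ∀ p a, 1 ≤ d p a) : Gr (arr d) := by
  intro s t _ ht _
  rw [arr_append]
  have := arr_pos hd ht
  omega

theorem arr_wd (d : ℕ → ℕ → ℕ) (w : ℕ → VW) (a : ℕ → ℕ) (I : Finset ℕ) :
    arr d (wd w a I) = ∑ i ∈ I, arr d (sb (a i) (w i)) := by
  classical
  have h1 : ∀ L : List ℕ, arr d (wrd w a L) = (L.map fun i => arr d (sb (a i) (w i))).sum := by
    intro L
    induction L with
    | nil => rfl
    | cons i L ih =>
      rw [List.map_cons, List.sum_cons, ← ih, ← arr_append]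
      rfl
  unfold wd
  rw [h1]
  conv_rhs => rw [← Finset.sort_toFinset I (· ≤ ·)]
  rw [List.sum_toFinset _ (Finset.sort_nodup _ _)]

/-- the positions of the variable -/
def vp (w : VW) : Finset ℕ := (w.toFinset.filter fun x => x.2 = none).image Prod.fst

/-- the positions of the letters -/
def lp (w : VW) : Finset ℕ := (w.toFinset.filter fun x => x.2 ≠ none).image Prod.fst

open Classical in
/-- the letter at the position `p` -/
noncomputable def let' (w : ℕ → VW) (p : ℕ) : ℕ :=
  if h : ∃ i c, (p, some c) ∈ w i then h.choose_spec.choose else 0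

theorem pos_unique {w : ℕ → VW} (hne : ∀ i, w i ≠ [])
    (hs : ∀ i, (w i).Pairwise fun x y => x.1 < y.1)
    (hw : ∀ i, ∀ x ∈ w i, ∀ y ∈ w (i + 1), x.1 < y.1) {i i' : ℕ} {x y : ℕ × Option ℕ}
    (hx : x ∈ w i) (hy : y ∈ w i') (hxy : x.1 = y.1) : x = y := by
  have hlt : ∀ i j, i < j → ∀ x ∈ w i, ∀ y ∈ w j, x.1 < y.1 := by
    intro i j hij
    induction j, hij using Nat.le_induction with
    | base => exact hw i
    | succ j hj ih =>
      intro x hx y hy
      obtain ⟨z, hz⟩ := List.exists_mem_of_ne_nil _ (hne j)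
      exact (ih x hx z hz).trans (hw j z hz y hy)
  rcases Nat.lt_trichotomy i i' with h | h | h
  · have := hlt _ _ h x hx y hy
    omega
  · subst h
    by_contra hne'
    have h1 : (w i).Pairwise fun x y => x.1 ≠ y.1 := (hs i).imp fun h => h.ne
    rw [List.pairwise_iff_getElem] at h1
    obtain ⟨m, hm, rfl⟩ := List.getElem_of_mem hx
    obtain ⟨m', hm', rfl⟩ := List.getElem_of_mem hy
    rcases Nat.lt_trichotomy m m' with h2 | h2 | h2
    · exact h1 m m' hm hm' h2 hxy
    · subst h2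
      exact hne' rfl
    · exact h1 m' m hm' hm h2 hxy.symm
  · have := hlt _ _ h y hy x hx
    omega

theorem let_eq {w : ℕ → VW} (hne : ∀ i, w i ≠ [])
    (hs : ∀ i, (w i).Pairwise fun x y => x.1 < y.1)
    (hw : ∀ i, ∀ x ∈ w i, ∀ y ∈ w (i + 1), x.1 < y.1) {i p c : ℕ} (h : (p, some c) ∈ w i) :
    let' w p = c := by
  have h1 : ∃ i c, (p, some c) ∈ w i := ⟨i, c, h⟩
  unfold let'
  rw [dif_pos h1]
  have h2 := h1.choose_spec.choose_spec
  have h3 := pos_unique hne hs hw h2 h rfl
  simpa using h3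

theorem arr_sb {w : ℕ → VW} (hne : ∀ i, w i ≠ [])
    (hs : ∀ i, (w i).Pairwise fun x y => x.1 < y.1)
    (hw : ∀ i, ∀ x ∈ w i, ∀ y ∈ w (i + 1), x.1 < y.1) (d : ℕ → ℕ → ℕ) (i c : ℕ) :
    arr d (sb c (w i)) = ∑ p ∈ lp (w i), (d p (let' w p) : ℤ) + ∑ p ∈ vp (w i), (d p c : ℤ) := by
  classical
  have hnd : (w i).Nodup := (hs i).imp fun h h' => by rw [h'] at h; omega
  have h1 : arr d (sb c (w i)) = ∑ x ∈ (w i).toFinset, (d x.1 (x.2.getD c) : ℤ) := by
    unfold arr sb
    rw [List.map_map, List.sum_toFinset _ hnd]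
    rfl
  have hinj : Set.InjOn Prod.fst (((w i).toFinset : Finset (ℕ × Option ℕ)) : Set (ℕ × Option ℕ)) := by
    intro x hx y hy hxy
    rw [Finset.mem_coe, List.mem_toFinset] at hx hy
    exact pos_unique hne hs hw hx hy hxy
  rw [h1, ← Finset.sum_filter_add_sum_filter_not _ (fun x => x.2 = none), add_comm]
  unfold lp vp
  congr 1
  · rw [Finset.sum_image (fun x hx y hy h => hinj (Finset.filter_subset _ _ hx)
      (Finset.filter_subset _ _ hy) h)]
    refine Finset.sum_congr rfl fun x hx => ?_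
    rw [Finset.mem_filter, List.mem_toFinset] at hx
    obtain ⟨b, hb⟩ := Option.ne_none_iff_exists'.1 hx.2
    have h2 : (x.1, some b) ∈ w i := by rw [← hb]; exact hx.1
    rw [let_eq hne hs hw h2, hb]
    rfl
  · rw [Finset.sum_image (fun x hx y hy h => hinj (Finset.filter_subset _ _ hx)
      (Finset.filter_subset _ _ hy) h)]
    refine Finset.sum_congr rfl fun x hx => ?_
    rw [Finset.mem_filter] at hx
    rw [hx.2]
    rfl

theorem mem_vl {w : VW} {p : ℕ} (h : p ∈ lp w ∪ vp w) : ∃ x ∈ w, x.1 = p := by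
  classical
  unfold lp vp at h
  rw [Finset.mem_union, Finset.mem_image, Finset.mem_image] at h
  rcases h with ⟨x, hx, rfl⟩ | ⟨x, hx, rfl⟩
  · exact ⟨x, List.mem_toFinset.1 (Finset.mem_filter.1 hx).1, rfl⟩
  · exact ⟨x, List.mem_toFinset.1 (Finset.mem_filter.1 hx).1, rfl⟩

/-- sum over an initial segment -/
def tot (h : ℕ → ℕ) (N : ℕ) : ℕ := ∑ b ∈ Finset.range (N + 1), h b

theorem le_tot (h : ℕ → ℕ) {b N : ℕ} (hb : b ≤ N) : h b ≤ tot h N :=
  Finset.single_le_sum (f := h) (fun _ _ => Nat.zero_le _) (Finset.mem_range.2 (by omega))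

/-- codes of pairs up to given bounds -/
def cds (n C : ℕ) : ℕ :=
  ∑ j ∈ Finset.range (n + 1), ∑ c ∈ Finset.range (C + 1), Encodable.encode (j, c)

theorem le_cds {n C j c : ℕ} (hj : j ≤ n) (hc : c ≤ C) : Encodable.encode (j, c) ≤ cds n C := by
  unfold cds
  refine le_trans ?_ (Finset.single_le_sum (f := fun j => ∑ c ∈ Finset.range (C + 1),
    Encodable.encode (j, c)) (fun _ _ => Nat.zero_le _) (Finset.mem_range.2 (by omega : j < n + 1)))
  exact Finset.single_le_sum (f := fun c => Encodable.encode (j, c)) (fun _ _ => Nat.zero_le _)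
    (Finset.mem_range.2 (by omega : c < C + 1))

/-- the bound for the codes of the families which are active -/
def KK (C : List VW → ℕ) (L : List VW) : ℕ :=
  ∑ m ∈ Finset.range (L.length + 1), cds (L.take m).length (C (L.take m))

theorem KK_le (C : List VW → ℕ) (w : ℕ → VW) {i₀ i j c : ℕ} (hi : i₀ ≤ i) (hj : j ≤ i₀)
    (hc : c ≤ C ((List.range i₀).map w)) :
    Encodable.encode (j, c) ≤ KK C ((List.range i).map w) := by
  have e : ((List.range i).map w).take i₀ = (List.range i₀).map w := by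
    rw [← List.map_take, List.take_range, min_eq_left hi]
  have h1 : Encodable.encode (j, c) ≤ cds (((List.range i).map w).take i₀).length
      (C (((List.range i).map w).take i₀)) := by
    rw [e]
    exact le_cds (by simpa using hj) hc
  refine h1.trans ?_
  unfold KK
  exact Finset.single_le_sum (f := fun m => cds (((List.range i).map w).take m).length
    (C (((List.range i).map w).take m))) (fun _ _ => Nat.zero_le _)
    (Finset.mem_range.2 (by simp; omega))

/-- consecutive prime gaps along systems of words, with multipliers -/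
theorem gaps_mult (φ : ℕ → SW → ℤ) (hφ : ∀ j, Gr (φ j)) (q : ℕ → ℕ) (hq : ∀ j, 1 ≤ q j)
    (r : ℕ → ℤ) (hr : ∀ j, IsCoprime (r j) (q j : ℤ)) (H C : List VW → ℕ) (N : ℕ) :
    ∃ w : ℕ → VW, (∀ i, Var (w i)) ∧ (∀ i, Bey N (w i)) ∧
      (∀ i, ∀ x ∈ w i, ∀ y ∈ w (i + 1), x.1 < y.1) ∧
      ∀ (j k i₀ c : ℕ) (F : ℕ → Finset ℕ) (a : ℕ → ℕ), j ≤ i₀ → 1 ≤ c →
        (c = 1 ∨ c ≤ C ((List.range i₀).map w)) →
        (∀ l ≤ k, (F l).Nonempty) → (∀ l ≤ k, ∀ i ∈ F l, i₀ ≤ i) →
        (∀ l < k, ∀ i ∈ F l, ∀ i' ∈ F (l + 1), i < i') →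
        (∀ i, a i ≤ H ((List.range i).map w)) →
        (∀ m ≤ k, (q j : ℤ) ∣ c * (φ j (wd w a ((Finset.range (m + 1)).biUnion F)) -
          φ j (wd w a (F 0)))) ∧
        ∀ R : ℕ, {n : ℕ | (n : ℤ) ≡ r j [ZMOD q j] ∧ ∀ y : ℤ, |y| ≤ R →
          (Nat.Prime ((n : ℤ) + y).toNat ↔ ∃ m ≤ k,
            y = c * (φ j (wd w a ((Finset.range (m + 1)).biUnion F)) -
              φ j (wd w a (F 0))))}.Infinite := by
  classical
  obtain ⟨w, hw1, hw2, hw3, hw4⟩ := gaps_inf
    (fun t s => (((Denumerable.ofNat (ℕ × ℕ) t).2 : ℤ) + 1) * φ (Denumerable.ofNat (ℕ × ℕ) t).1 s)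
    (fun t s u hs hu hi => by
      have := hφ (Denumerable.ofNat (ℕ × ℕ) t).1 s u hs hu hi
      have h0 : (0 : ℤ) < ((Denumerable.ofNat (ℕ × ℕ) t).2 : ℤ) + 1 := by positivity
      exact mul_lt_mul_of_pos_left this h0)
    (fun t => q (Denumerable.ofNat (ℕ × ℕ) t).1) (fun t => hq _)
    (fun t => r (Denumerable.ofNat (ℕ × ℕ) t).1) (fun t => hr _) H (KK C) N
  refine ⟨w, hw1, hw2, hw3, ?_⟩
  intro j k i₀ c F a hj hc hcC h1 h2 h3 ha
  have hc' : (((c - 1 : ℕ) : ℤ) + 1) = c := by
    have : ((c - 1 : ℕ) : ℤ) = (c : ℤ) - 1 := by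
      rw [Nat.cast_sub hc]
      simp
    rw [this]
    ring
  have hGr : Gr (fun s => (c : ℤ) * φ j s) := by
    intro s u hs hu hi
    have := hφ j s u hs hu hi
    have h0 : (0 : ℤ) < c := by exact_mod_cast hc
    exact mul_lt_mul_of_pos_left this h0
  have hfin := gaps_fin (φ := fun s => (c : ℤ) * φ j s) hGr (hq j) (r := r j) hw2 hw3 (j := i₀)
    (a := a) (fun F hF hF2 => by
      have h4 := hw4 (Encodable.encode (j, c - 1)) F a hF (fun l i hi =>
        KK_le C w (hF2 l i hi) hj (by omega)) ha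
      simp only [Denumerable.ofNat_encode] at h4
      rw [hc'] at h4
      exact h4) k F h1 h2 h3
  simpa only [mul_sub] using hfin

/-- the values of the word `w i`, summed over all letters up to `A` -/
def sv (d : ℕ → ℕ → ℕ) (A : ℕ) (u : VW) : ℕ := ∑ a ∈ Finset.range (A + 1), (arr d (sb a u)).toNat

/-- the bound for the letters -/
def lb (h : ℕ → ℕ) (L : List VW) : ℕ := L.length + tot h (lst L.flatten)

/-- the bound for the products -/
def pb (d : ℕ → ℕ → ℕ → ℕ) (h : ℕ → ℕ) (L : List VW) : ℕ :=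
  ∑ j ∈ Finset.range (L.length + 1), (L.map fun u => 1 + sv (d j) (lb h L) u).prod

/-- mixed sums of arrays are vectors of consecutive prime gaps -/
theorem arrays (d : ℕ → ℕ → ℕ → ℕ) (hd : ∀ j p a, 1 ≤ d j p a) (q : ℕ → ℕ) (hq : ∀ j, 1 ≤ q j)
    (r : ℕ → ℤ) (hr : ∀ j, IsCoprime (r j) (q j : ℤ)) (h : ℕ → ℕ) :
    ∃ (V W : ℕ → Finset ℕ) (b : ℕ → ℕ), (∀ i, (W i).Nonempty) ∧ (∀ i, Disjoint (V i) (W i)) ∧
      (∀ i, ∀ x ∈ V i ∪ W i, ∀ y ∈ V (i + 1) ∪ W (i + 1), x < y) ∧
      ∀ (j k : ℕ) (F : ℕ → Finset ℕ) (E : Finset ℕ) (a : ℕ → ℕ), (∀ l ≤ k, (F l).Nonempty) →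
        (∀ l ≤ k, ∀ i ∈ F l, j ≤ i) → (∀ l < k, ∀ i ∈ F l, ∀ i' ∈ F (l + 1), i < i') →
        (∀ i ∈ E, ∀ i' ∈ F 0, i < i') →
        (∀ i, a i ≤ i ∨ ∃ i' < i, ∃ p ∈ V i' ∪ W i', a i ≤ h p) →
        ∀ R : ℕ, {n : ℕ | (n : ℤ) ≡ r j [ZMOD q j] ∧ ∀ y : ℤ, |y| ≤ R →
          (Nat.Prime ((n : ℤ) + y).toNat ↔ ∃ m ≤ k + 1,
            y = (∏ i ∈ E, (∑ p ∈ V i, (d j p (b p) : ℤ) + ∑ p ∈ W i, (d j p (a i) : ℤ))) *
              ∑ l ∈ Finset.range m, ∑ i ∈ F l,
                (∑ p ∈ V i, (d j p (b p) : ℤ) + ∑ p ∈ W i, (d j p (a i) : ℤ)))}.Infinite := by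
  classical
  obtain ⟨w, hw1, hw2, hw3, hw4⟩ := gaps_mult (fun j => arr (d j)) (fun j => arr_gr (hd j)) q hq
    r hr (lb h) (pb d h) 0
  have hne : ∀ i, w i ≠ [] := fun i => (hw2 i).1
  have hs : ∀ i, (w i).Pairwise fun x y => x.1 < y.1 := fun i => (hw2 i).2.1
  have hlt : ∀ i j, i < j → ∀ x ∈ w i, ∀ y ∈ w j, x.1 < y.1 := by
    intro i j hij
    induction j, hij using Nat.le_induction with
    | base => exact hw3 i
    | succ j hj ih =>
      intro x hx y hy
      obtain ⟨z, hz⟩ := List.exists_mem_of_ne_nil _ (hne j)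
      exact (ih x hx z hz).trans (hw3 j z hz y hy)
  refine ⟨fun i => lp (w (2 * i + 1)), fun i => vp (w (2 * i + 1)), let' w, fun i => ?_, fun i => ?_,
    fun i x hx y hy => ?_, ?_⟩
  · obtain ⟨x, hx, hx2⟩ := hw1 (2 * i + 1)
    exact ⟨x.1, Finset.mem_image.2 ⟨x, Finset.mem_filter.2 ⟨List.mem_toFinset.2 hx, hx2⟩, rfl⟩⟩
  · rw [Finset.disjoint_left]
    intro p hp hp'
    unfold lp at hp
    unfold vp at hp'
    obtain ⟨x, hx, rfl⟩ := Finset.mem_image.1 hp
    obtain ⟨y, hy, hxy⟩ := Finset.mem_image.1 hp'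
    rw [Finset.mem_filter, List.mem_toFinset] at hx hy
    have := pos_unique hne hs hw3 hy.1 hx.1 hxy
    rw [this] at hy
    exact hx.2 hy.2
  · obtain ⟨x', hx', rfl⟩ := mem_vl hx
    obtain ⟨y', hy', rfl⟩ := mem_vl hy
    exact hlt (2 * i + 1) (2 * (i + 1) + 1) (by omega) x' hx' y' hy'
  · intro j k F E a h1 h2 h3 hE ha R
    -- the smallest index
    obtain ⟨i₁, hi₁, hmin⟩ : ∃ i₁ ∈ F 0, ∀ i ∈ F 0, i₁ ≤ i :=
      ⟨(F 0).min' (h1 0 (by omega)), Finset.min'_mem _ _, fun i hi => Finset.min'_le _ _ hi⟩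
    have hji₁ : j ≤ i₁ := h2 0 (by omega) i₁ hi₁
    have hall : ∀ l ≤ k, ∀ i ∈ F l, i₁ ≤ i := by
      intro l
      induction l with
      | zero => intro _; exact hmin
      | succ l ih =>
        intro hl i hi
        obtain ⟨i', hi'⟩ := h1 l (by omega)
        exact (ih (by omega) i' hi').trans (h3 l (by omega) i' hi' i hi).le
    set F' : ℕ → Finset ℕ := fun l => if l = 0 then {2 * i₁} else
      (F (l - 1)).image (fun i => 2 * i + 1) with hF'
    set a' : ℕ → ℕ := fun i => if i % 2 = 0 then 0 else a (i / 2) with ha'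
    have hF'0 : F' 0 = {2 * i₁} := by simp [hF']
    have hF's : ∀ l, F' (l + 1) = (F l).image (fun i => 2 * i + 1) := by intro l; simp [hF']
    have ha's : ∀ i, a' (2 * i + 1) = a i := by
      intro i
      simp only [ha']
      rw [if_neg (by omega)]
      congr 1
      omega
    have halb : ∀ i n, 2 * i + 1 ≤ n → a i ≤ lb h ((List.range n).map w) := by
      intro i n hn
      unfold lb
      rw [List.length_map, List.length_range]
      rcases ha i with h4 | ⟨i', hi', p, hp, h4⟩
      · omega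
      · obtain ⟨x, hx, rfl⟩ := mem_vl hp
        have h5 : x.1 ≤ lst ((List.range n).map w).flatten :=
          le_lst (List.mem_flatten.2 ⟨w (2 * i' + 1), List.mem_map.2 ⟨2 * i' + 1,
            List.mem_range.2 (by omega), rfl⟩, hx⟩)
        have h6 := le_tot h h5
        omega
    have haH : ∀ i, a' i ≤ lb h ((List.range i).map w) := by
      intro i
      by_cases h4 : i % 2 = 0
      · simp only [ha']
        rw [if_pos h4]
        exact Nat.zero_le _
      · simp only [ha']
        rw [if_neg h4]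
        exact halb (i / 2) i (by omega)
    have hX : ∀ i c, ∑ p ∈ lp (w (2 * i + 1)), (d j p (let' w p) : ℤ) +
        ∑ p ∈ vp (w (2 * i + 1)), (d j p c : ℤ) = arr (d j) (sb c (w (2 * i + 1))) :=
      fun i c => (arr_sb hne hs hw3 (d j) (2 * i + 1) c).symm
    have hXpos : ∀ i c, 0 < arr (d j) (sb c (w i)) := fun i c => arr_pos (hd j) (by
      unfold sb
      rw [ne_eq, List.map_eq_nil_iff]
      exact hne i)
    set c : ℕ := ∏ i ∈ E, (arr (d j) (sb (a i) (w (2 * i + 1)))).toNat with hc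
    have hcZ : ∏ i ∈ E, (∑ p ∈ lp (w (2 * i + 1)), (d j p (let' w p) : ℤ) +
        ∑ p ∈ vp (w (2 * i + 1)), (d j p (a i) : ℤ)) = c := by
      rw [hc, Nat.cast_prod]
      refine Finset.prod_congr rfl fun i _ => ?_
      rw [hX, Int.toNat_of_nonneg (hXpos _ _).le]
    have hc1 : 1 ≤ c := by
      rw [hc]
      refine Nat.one_le_iff_ne_zero.2 (Finset.prod_ne_zero_iff.2 fun i _ => ?_)
      have := hXpos (2 * i + 1) (a i)
      omega
    have hcC : c ≤ pb d h ((List.range (2 * i₁)).map w) := by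
      set L := (List.range (2 * i₁)).map w with hL
      have hEi : ∀ i ∈ E, i < i₁ := fun i hi => hE i hi i₁ hi₁
      have e1 : c ≤ ∏ i ∈ E, (1 + sv (d j) (lb h L) (w (2 * i + 1))) := by
        rw [hc]
        refine Finset.prod_le_prod' fun i hi => ?_
        have h5 : a i ≤ lb h L := halb i _ (by have := hEi i hi; omega)
        have h6 : (arr (d j) (sb (a i) (w (2 * i + 1)))).toNat ≤
            sv (d j) (lb h L) (w (2 * i + 1)) :=
          Finset.single_le_sum (f := fun a => (arr (d j) (sb a (w (2 * i + 1)))).toNat)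
            (fun _ _ => Nat.zero_le _) (Finset.mem_range.2 (by omega))
        omega
      have e2 : ∏ i ∈ E, (1 + sv (d j) (lb h L) (w (2 * i + 1))) =
          ∏ i ∈ E.image (fun i => 2 * i + 1), (1 + sv (d j) (lb h L) (w i)) := by
        rw [Finset.prod_image (by intro x _ y _ h; simpa using h)]
      have e3 : ∏ i ∈ E.image (fun i => 2 * i + 1), (1 + sv (d j) (lb h L) (w i)) ≤
          ∏ i ∈ Finset.range (2 * i₁), (1 + sv (d j) (lb h L) (w i)) := by
        refine Finset.prod_le_prod_of_subset_of_one_le' ?_ (fun i _ _ => by omega)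
        intro x hx
        obtain ⟨i, hi, rfl⟩ := Finset.mem_image.1 hx
        have := hEi i hi
        exact Finset.mem_range.2 (by omega)
      have e4 : ∏ i ∈ Finset.range (2 * i₁), (1 + sv (d j) (lb h L) (w i)) =
          (L.map fun u => 1 + sv (d j) (lb h L) u).prod := by
        have hprod : ∀ (g : ℕ → ℕ) (n : ℕ),
            ∏ i ∈ Finset.range n, g i = ((List.range n).map g).prod := by
          intro g n
          induction n with
          | zero => rfl
          | succ n ih =>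
            rw [Finset.prod_range_succ, ih, List.range_succ, List.map_append, List.prod_append]
            simp
        rw [hprod]
        rw [show ((List.range (2 * i₁)).map fun i => 1 + sv (d j) (lb h L) (w i)) =
          L.map fun u => 1 + sv (d j) (lb h L) u by rw [hL, List.map_map]; rfl]
      have e5 : (L.map fun u => 1 + sv (d j) (lb h L) u).prod ≤ pb d h L := by
        unfold pb
        refine Finset.single_le_sum (f := fun j => (L.map fun u => 1 + sv (d j) (lb h L) u).prod)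
          (fun _ _ => Nat.zero_le _) (Finset.mem_range.2 ?_)
        rw [hL, List.length_map, List.length_range]
        omega
      calc c ≤ _ := e1
        _ = _ := e2
        _ ≤ _ := e3
        _ = _ := e4
        _ ≤ _ := e5
    obtain ⟨-, hinf⟩ := hw4 j (k + 1) (2 * i₁) c F' a' (by omega) hc1 (Or.inr hcC)
      (fun l hl => by
        rcases l with _ | l
        · rw [hF'0]; exact Finset.singleton_nonempty _
        · rw [hF's]; exact (h1 l (by omega)).image _)
      (fun l hl i hi => by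
        rcases l with _ | l
        · rw [hF'0, Finset.mem_singleton] at hi
          omega
        · rw [hF's, Finset.mem_image] at hi
          obtain ⟨i', hi', rfl⟩ := hi
          have := hall l (by omega) i' hi'
          omega)
      (fun l hl i hi i' hi' => by
        rw [hF's, Finset.mem_image] at hi'
        obtain ⟨i₂, hi₂, rfl⟩ := hi'
        rcases l with _ | l
        · rw [hF'0, Finset.mem_singleton] at hi
          have := hall 0 (by omega) i₂ hi₂
          omega
        · rw [hF's, Finset.mem_image] at hi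
          obtain ⟨i₃, hi₃, rfl⟩ := hi
          have := h3 l (by omega) i₃ hi₃ i₂ hi₂
          omega) haH
    have hdisj : ∀ l l', l ≤ k → l' ≤ k → l < l' → ∀ i ∈ F l, ∀ i' ∈ F l', i < i' := by
      intro l l' _ hl' hll
      induction l', hll using Nat.le_induction with
      | base => exact h3 l (by omega)
      | succ l' hl ih =>
        intro i hi i' hi'
        obtain ⟨i₂, hi₂⟩ := h1 l' (by omega)
        exact (ih (by omega) i hi i₂ hi₂).trans (h3 l' (by omega) i₂ hi₂ i' hi')
    have hval : ∀ m ≤ k + 1, arr (d j) (wd w a' ((Finset.range (m + 1)).biUnion F')) -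
        arr (d j) (wd w a' (F' 0)) = ∑ l ∈ Finset.range m, ∑ i ∈ F l,
          (∑ p ∈ lp (w (2 * i + 1)), (d j p (let' w p) : ℤ) +
            ∑ p ∈ vp (w (2 * i + 1)), (d j p (a i) : ℤ)) := by
      intro m hm
      rw [arr_wd, arr_wd, Finset.sum_biUnion, Finset.sum_range_succ', add_sub_cancel_right]
      · refine Finset.sum_congr rfl fun l _ => ?_
        rw [hF's, Finset.sum_image (by intro x _ y _ h; simpa using h)]
        refine Finset.sum_congr rfl fun i _ => ?_
        rw [ha's, hX]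
      · have hkey : ∀ l l', l < l' → l' < m + 1 → Disjoint (F' l) (F' l') := by
          intro l l' hll hl'
          rw [Finset.disjoint_left]
          intro i hi hi'
          obtain ⟨l₁, rfl⟩ : ∃ l₁, l' = l₁ + 1 := ⟨l' - 1, by omega⟩
          rw [hF's, Finset.mem_image] at hi'
          obtain ⟨i₂, hi₂, rfl⟩ := hi'
          rcases l with _ | l
          · rw [hF'0, Finset.mem_singleton] at hi
            have := hall l₁ (by omega) i₂ hi₂
            omega
          · rw [hF's, Finset.mem_image] at hi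
            obtain ⟨i₃, hi₃, h5⟩ := hi
            have := hdisj l l₁ (by omega) (by omega) (by omega) i₃ hi₃ i₂ hi₂
            omega
        intro l hl l' hl' hne'
        rw [Finset.mem_coe, Finset.mem_range] at hl hl'
        rcases Nat.lt_or_gt_of_ne hne' with h5 | h5
        · exact hkey l l' h5 hl'
        · exact (hkey l' l h5 hl).symm
    refine (hinf R).mono ?_
    rintro n ⟨hn1, hn2⟩
    refine ⟨hn1, fun y hy => ?_⟩
    rw [hn2 y hy, hcZ]
    constructor
    · rintro ⟨m, hm, h5⟩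
      exact ⟨m, hm, by rw [h5, hval m hm]⟩
    · rintro ⟨m, hm, h5⟩
      exact ⟨m, hm, by rw [h5, hval m hm]⟩

end Pool.Agent.Run7.h965.MX
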