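import Pool.Agent.Run7.h965.MX.Ult
import Pool.Agent.W68.Mil

/-!
Generic sequences of located variable words.
-/

set_option autoImplicit false

namespace Pool.Agent.Run7.h965.MX

open Filter Pool.Agent.W68.Mil Pool.Agent.H752R3.MT

/-- located words -/
abbrev SW := List (ℕ × ℕ)

/-- located variable words -/
abbrev VW := List (ℕ × Option ℕ)

/-- the star of a set -/
def str (v : Ultrafilter SW) (X : Set SW) : Set SW := {t | t ∈ X ∧ {s | t ++ s ∈ X} ∈ v}

theorem str_mem {v : Ultrafilter SW} (hv : ∀ X ∈ v, {s | {t | s ++ t ∈ X} ∈ v} ∈ v)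
    {X : Set SW} (hX : X ∈ v) : str v X ∈ v :=
  Filter.inter_mem (f := (v : Filter SW)) hX (hv X hX)

theorem str_step {v : Ultrafilter SW} (hv : ∀ X ∈ v, {s | {t | s ++ t ∈ X} ∈ v} ∈ v)
    {X : Set SW} {t : SW} (ht : t ∈ str v X) : {s | t ++ s ∈ str v X} ∈ v := by
  have h1 : {s | t ++ s ∈ X} ∈ v := ht.2
  filter_upwards [h1, hv _ h1] with s hs1 hs2
  refine ⟨hs1, ?_⟩
  filter_upwards [hs2] with u hu
  rw [List.append_assoc]
  exact hu

/-- the states: complete words and the word in progress; a word is added only if `j` is at most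
the value of `K` -/
def sts (H K : List VW → ℕ) (j : ℕ) : List VW → Set (List SW × SW)
  | [] => {([], [])}
  | w :: h => sts H K j h ∪ {x | j ≤ K h ∧ ∃ a ≤ H h, ∃ y ∈ sts H K j h,
      x = (y.1, y.2 ++ sb a w) ∨ (y.2 ≠ [] ∧ x = (y.1 ++ [y.2], sb a w))}

theorem sts_finite (H K : List VW → ℕ) (j : ℕ) (h : List VW) : (sts H K j h).Finite := by
  induction h with
  | nil => exact Set.finite_singleton _
  | cons w h ih =>
    rw [sts]
    refine ih.union ?_
    have h2 : {x : List SW × SW | j ≤ K h ∧ ∃ a ≤ H h, ∃ y ∈ sts H K j h,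
        x = (y.1, y.2 ++ sb a w) ∨ (y.2 ≠ [] ∧ x = (y.1 ++ [y.2], sb a w))} ⊆
        ⋃ a ∈ Set.Iic (H h), ((fun y : List SW × SW => (y.1, y.2 ++ sb a w)) '' sts H K j h ∪
          (fun y : List SW × SW => (y.1 ++ [y.2], sb a w)) '' sts H K j h) := by
      rintro x ⟨-, a, ha, y, hy, hx | ⟨-, hx⟩⟩
      · exact Set.mem_biUnion (Set.mem_Iic.2 ha) (Or.inl ⟨y, hy, hx.symm⟩)
      · exact Set.mem_biUnion (Set.mem_Iic.2 ha) (Or.inr ⟨y, hy, hx.symm⟩)
    exact ((Set.finite_Iic _).biUnion fun a _ => (ih.image _).union (ih.image _)).subset h2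

/-- the invariant -/
def Inv (v : Ultrafilter SW) (D : ℕ → List SW → Set SW) (H K : List VW → ℕ) (h : List VW) :
    Prop :=
  ∀ j, ∀ x ∈ sts H K j h, (∀ ρ t, ρ ++ [t] <+: x.1 → t ∈ D j ρ) ∧ (x.2 ≠ [] → x.2 ∈ str v (D j x.1))

theorem inv_nil (v : Ultrafilter SW) (D : ℕ → List SW → Set SW) (H K : List VW → ℕ) :
    Inv v D H K [] := by
  intro j x hx
  rw [sts, Set.mem_singleton_iff] at hx
  subst hx
  refine ⟨fun ρ t h => ?_, fun h => absurd rfl h⟩
  have := h.length_le
  simp at this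

theorem inv_step {v : Ultrafilter SW} {E : Ultrafilter VW}
    (hv : ∀ X ∈ v, {s | {t | s ++ t ∈ X} ∈ v} ∈ v) (hE : ∀ a, E.map (sb a) = v)
    (hB : ∀ n, {w | Bey n w} ∈ E) (hV : {w | Var w} ∈ E) {D : ℕ → List SW → Set SW}
    (hD : ∀ j σ, D j σ ∈ v) (H K : List VW → ℕ) {h : List VW} (hI : Inv v D H K h) (N : ℕ) :
    ∃ w, Bey (max N (lst h.flatten)) w ∧ Var w ∧ Inv v D H K (w :: h) := by
  have h1 : ∀ᶠ w in (E : Filter VW), ∀ j ∈ Set.Iic (K h), ∀ x ∈ sts H K j h,
      ∀ a ∈ Set.Iic (H h), x.2 ++ sb a w ∈ str v (D j x.1) ∧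
        (x.2 ≠ [] → sb a w ∈ str v (D j (x.1 ++ [x.2]))) := by
    rw [Filter.eventually_all_finite (Set.finite_Iic _)]
    intro j _
    rw [Filter.eventually_all_finite (sts_finite H K j h)]
    intro x hx
    rw [Filter.eventually_all_finite (Set.finite_Iic _)]
    intro a _
    have hm : ∀ X : Set SW, X ∈ v → ∀ᶠ w in (E : Filter VW), sb a w ∈ X := by
      intro X hX
      rw [← hE a, Ultrafilter.mem_map] at hX
      exact hX
    refine Filter.Eventually.and ?_ (hm _ (str_mem hv (hD _ _)) |>.mono fun w hw _ => hw)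
    by_cases h2 : x.2 = []
    · rw [h2]
      simpa using hm _ (str_mem hv (hD _ _))
    · exact hm _ (str_step hv ((hI j x hx).2 h2))
  have h2 : ∀ᶠ w in (E : Filter VW), Bey (max N (lst h.flatten)) w := hB _
  have h3 : ∀ᶠ w in (E : Filter VW), Var w := hV
  obtain ⟨w, hw1, hw2, hw3⟩ := (h1.and (h2.and h3)).exists
  refine ⟨w, hw2, hw3, fun j x hx => ?_⟩
  rw [sts] at hx
  rcases hx with hx | ⟨hj, a, ha, y, hy, rfl | ⟨hy2, rfl⟩⟩
  · exact hI j x hx
  · exact ⟨(hI j y hy).1, fun _ => (hw1 j hj y hy a ha).1⟩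
  · refine ⟨fun ρ t hp => ?_, fun _ => (hw1 j hj y hy a ha).2 hy2⟩
    simp only at hp
    rw [List.prefix_concat_iff] at hp
    rcases hp with hp | hp
    · obtain ⟨rfl, h5⟩ := List.append_inj' hp rfl
      have h6 : t = y.2 := by simpa using h5
      rw [h6]
      exact ((hI j y hy).2 hy2).1
    · exact (hI j y hy).1 ρ t hp

/-- the word with the letters `a i` over the indices in `L` -/
def wrd (w : ℕ → VW) (a : ℕ → ℕ) (L : List ℕ) : SW := L.flatMap fun i => sb (a i) (w i)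

/-- the word with the letters `a i` over the indices in `I` -/
def wd (w : ℕ → VW) (a : ℕ → ℕ) (I : Finset ℕ) : SW := wrd w a (I.sort (· ≤ ·))

/-- the history up to `n` -/
def hst (w : ℕ → VW) : ℕ → List VW
  | 0 => []
  | n + 1 => w n :: hst w n

theorem hst_eq (w : ℕ → VW) (n : ℕ) : (hst w n).reverse = (List.range n).map w := by
  induction n with
  | zero => rfl
  | succ n ih => rw [hst, List.reverse_cons, ih, List.range_succ, List.map_append]; rfl

theorem hst_length (w : ℕ → VW) (n : ℕ) : (hst w n).length = n := by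
  induction n with
  | zero => rfl
  | succ n ih => rw [hst, List.length_cons, ih]

theorem mem_hst {w : ℕ → VW} {n i : ℕ} (h : i < n) : w i ∈ hst w n := by
  induction n with
  | zero => omega
  | succ n ih =>
    rw [hst]
    rcases Nat.lt_succ_iff_lt_or_eq.1 h with h | rfl
    · exact List.mem_cons_of_mem _ (ih h)
    · exact List.mem_cons_self

theorem sts_mono {w : ℕ → VW} {H K : List VW → ℕ} {j n m : ℕ} (h : n ≤ m) :
    sts H K j (hst w n) ⊆ sts H K j (hst w m) := by
  induction m, h using Nat.le_induction with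
  | base => exact subset_rfl
  | succ m hm ih =>
    refine ih.trans ?_
    rw [hst, sts]
    exact Set.subset_union_left

theorem sts_add {w : ℕ → VW} {H K : List VW → ℕ} {j i : ℕ} (hj : j ≤ K (hst w i)) {a : ℕ}
    (ha : a ≤ H (hst w i)) {x : List SW × SW} (hx : x ∈ sts H K j (hst w i)) :
    (x.1, x.2 ++ sb a (w i)) ∈ sts H K j (hst w (i + 1)) := by
  rw [hst, sts]
  exact Or.inr ⟨hj, a, ha, x, hx, Or.inl rfl⟩

theorem sts_new {w : ℕ → VW} {H K : List VW → ℕ} {j i : ℕ} (hj : j ≤ K (hst w i)) {a : ℕ}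
    (ha : a ≤ H (hst w i)) {x : List SW × SW} (hx : x ∈ sts H K j (hst w i)) (hx2 : x.2 ≠ []) :
    (x.1 ++ [x.2], sb a (w i)) ∈ sts H K j (hst w (i + 1)) := by
  rw [hst, sts]
  exact Or.inr ⟨hj, a, ha, x, hx, Or.inr ⟨hx2, rfl⟩⟩

theorem sts_list {w : ℕ → VW} {H K : List VW → ℕ} {j : ℕ} {a : ℕ → ℕ}
    (ha : ∀ i, a i ≤ H (hst w i)) (L : List ℕ) (hL : L.Pairwise (· < ·)) :
    ∀ N M : ℕ, N ≤ M → (∀ i ∈ L, j ≤ K (hst w i)) → (∀ i ∈ L, N ≤ i ∧ i < M) →
      ∀ x ∈ sts H K j (hst w N), (x.1, x.2 ++ wrd w a L) ∈ sts H K j (hst w M) := by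
  induction L with
  | nil =>
    intro N M hNM _ _ x hx
    have := sts_mono hNM hx
    simpa [wrd] using this
  | cons i L ih =>
    intro N M hNM hj hi x hx
    rw [List.pairwise_cons] at hL
    have h0 := hi i List.mem_cons_self
    have h1 := sts_add (w := w) (a := a i) (hj i List.mem_cons_self) (ha i) (sts_mono h0.1 hx)
    have h2 := ih hL.2 (i + 1) M (by omega) (fun i' hi' => hj i' (List.mem_cons_of_mem _ hi'))
      (fun i' hi' => ⟨hL.1 i' hi', (hi i' (List.mem_cons_of_mem _ hi')).2⟩) _ h1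
    simp only [List.append_assoc] at h2
    exact h2

theorem sts_close {w : ℕ → VW} {H K : List VW → ℕ} {j : ℕ} {a : ℕ → ℕ}
    (ha : ∀ i, a i ≤ H (hst w i)) (L : List ℕ) (hL : L.Pairwise (· < ·)) (hLn : L ≠ [])
    {N M : ℕ} (hj : ∀ i ∈ L, j ≤ K (hst w i)) (hLM : ∀ i ∈ L, N ≤ i ∧ i < M) {x : List SW × SW}
    (hx : x ∈ sts H K j (hst w N)) (hx2 : x.2 ≠ []) :
    (x.1 ++ [x.2], wrd w a L) ∈ sts H K j (hst w M) := by
  rcases L with _ | ⟨i, L⟩
  · exact absurd rfl hLn
  · rw [List.pairwise_cons] at hL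
    have h0 := hLM i List.mem_cons_self
    have h1 := sts_new (w := w) (a := a i) (hj i List.mem_cons_self) (ha i) (sts_mono h0.1 hx) hx2
    exact sts_list ha L hL.2 (i + 1) M (by omega) (fun i' hi' => hj i' (List.mem_cons_of_mem _ hi'))
      (fun i' hi' => ⟨hL.1 i' hi', (hLM i' (List.mem_cons_of_mem _ hi')).2⟩) _ h1

theorem wrd_ne_nil {w : ℕ → VW} (hw : ∀ i, w i ≠ []) {a : ℕ → ℕ} {L : List ℕ} (hL : L ≠ []) :
    wrd w a L ≠ [] := by
  rcases L with _ | ⟨i, L⟩
  · exact absurd rfl hL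
  · intro h
    unfold wrd at h
    rw [List.flatMap_cons, List.append_eq_nil_iff] at h
    have := h.1
    unfold sb at this
    rw [List.map_eq_nil_iff] at this
    exact hw i this

theorem wd_ne_nil {w : ℕ → VW} (hw : ∀ i, w i ≠ []) {a : ℕ → ℕ} {I : Finset ℕ}
    (hI : I.Nonempty) : wd w a I ≠ [] :=
  wrd_ne_nil hw (by
    intro h
    obtain ⟨i, hi⟩ := hI
    rw [← Finset.mem_sort (· ≤ ·), h] at hi
    simp at hi)

theorem generic {v : Ultrafilter SW} {E : Ultrafilter VW}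
    (hv : ∀ X ∈ v, {s | {t | s ++ t ∈ X} ∈ v} ∈ v) (hE : ∀ a, E.map (sb a) = v)
    (hB : ∀ n, {w | Bey n w} ∈ E) (hV : {w | Var w} ∈ E) (D : ℕ → List SW → Set SW)
    (hD : ∀ j σ, D j σ ∈ v) (H K : List VW → ℕ) (N : ℕ) :
    ∃ w : ℕ → VW, (∀ i, Var (w i)) ∧ (∀ i, Bey N (w i)) ∧
      (∀ i, ∀ x ∈ w i, ∀ y ∈ w (i + 1), x.1 < y.1) ∧
      ∀ (j : ℕ) (F : ℕ → Finset ℕ) (a : ℕ → ℕ), Blk F →
        (∀ l, ∀ i ∈ F l, j ≤ K ((List.range i).map w)) →
        (∀ i, a i ≤ H ((List.range i).map w)) →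
        ∀ l, wd w a (F l) ∈ D j ((List.range l).map fun l => wd w a (F l)) := by
  classical
  set H' : List VW → ℕ := fun h => H h.reverse with hH'
  set K' : List VW → ℕ := fun h => K h.reverse with hK'
  have hstep := fun h : {h // Inv v D H' K' h} => inv_step hv hE hB hV hD H' K' h.2 N
  choose W hW1 hW2 hW3 using hstep
  let hs : ℕ → {h // Inv v D H' K' h} := fun n =>
    Nat.rec ⟨[], inv_nil v D H' K'⟩ (fun _ h => ⟨W h :: h.1, hW3 h⟩) n
  set w : ℕ → VW := fun n => W (hs n) with hw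
  have hhs : ∀ n, (hs n).1 = hst w n := by
    intro n
    induction n with
    | zero => rfl
    | succ n ih =>
      show W (hs n) :: (hs n).1 = w n :: hst w n
      rw [ih]
  have hBey : ∀ i, Bey (max N (lst (hst w i).flatten)) (w i) := by
    intro i
    rw [← hhs i]
    exact hW1 (hs i)
  have hne : ∀ i, w i ≠ [] := fun i => (hBey i).1
  refine ⟨w, fun i => hW2 _, fun i => ?_, fun i x hx y hy => ?_, ?_⟩
  · obtain ⟨h1, h2, h3⟩ := hBey i
    exact ⟨h1, h2, fun x hx => lt_of_le_of_lt (le_max_left _ _) (h3 x hx)⟩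
  · have h3 := (hBey (i + 1)).2.2 y hy
    have h4 : x.1 ≤ lst (hst w (i + 1)).flatten :=
      le_lst (List.mem_flatten.2 ⟨w i, mem_hst (Nat.lt_succ_self i), hx⟩)
    omega
  · intro j F a hF hjF ha
    have ha' : ∀ i, a i ≤ H' (hst w i) := by
      intro i
      rw [hH']
      simp only
      rw [hst_eq]
      exact ha i
    have hjF' : ∀ l, ∀ i ∈ F l, j ≤ K' (hst w i) := by
      intro l i hi
      rw [hK']
      simp only
      rw [hst_eq]
      exact hjF l i hi
    have key : ∀ l M : ℕ, (∀ i ∈ F l, i < M) →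
        ((List.range l).map fun l => wd w a (F l), wd w a (F l)) ∈ sts H' K' j (hst w M) := by
      intro l
      induction l with
      | zero =>
        intro M hM
        have h0 : (([] : List SW), ([] : SW)) ∈ sts H' K' j (hst w 0) := rfl
        have h1 := sts_list (w := w) ha' ((F 0).sort (· ≤ ·)) (Finset.sortedLT_sort _).pairwise 0 M
          (Nat.zero_le _) (fun i hi => hjF' 0 i ((Finset.mem_sort _).1 hi)) (fun i hi => by
            rw [Finset.mem_sort] at hi
            exact ⟨Nat.zero_le _, hM i hi⟩) _ h0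
        simpa [wd] using h1
      | succ l ih =>
        intro M hM
        obtain ⟨i₁, hi₁⟩ := hF.1 (l + 1)
        obtain ⟨i₀, hi₀⟩ := hF.1 l
        set P := (F l).sup id + 1 with hP
        have hlP : ∀ i ∈ F l, i < P := fun i hi =>
          Nat.lt_succ_of_le (Finset.le_sup (f := id) hi)
        have h1 := ih P hlP
        have hPF : ∀ i ∈ F (l + 1), P ≤ i := by
          intro i hi
          obtain ⟨m, hm, hm2⟩ := Finset.exists_mem_eq_sup (F l) ⟨i₀, hi₀⟩ id
          have := hF.2 l m hm i hi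
          rw [hP, hm2]
          exact this
        have h2 := sts_close (w := w) ha' ((F (l + 1)).sort (· ≤ ·))
          (Finset.sortedLT_sort _).pairwise (by
            intro h
            rw [← Finset.mem_sort (· ≤ ·), h] at hi₁
            simp at hi₁) (M := M) (fun i hi => hjF' (l + 1) i ((Finset.mem_sort _).1 hi))
          (fun i hi => by
            rw [Finset.mem_sort] at hi
            exact ⟨hPF i hi, hM i hi⟩) h1 (wd_ne_nil hne (hF.1 l))
        rw [List.range_succ, List.map_append]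
        exact h2
    intro l
    have h1 := key l ((F l).sup id + 1) (fun i hi => Nat.lt_succ_of_le (Finset.le_sup (f := id) hi))
    rw [← hhs] at h1
    have h2 := ((hs ((F l).sup id + 1)).2 j _ h1).2
    exact (h2 (wd_ne_nil hne (hF.1 l))).1

end Pool.Agent.Run7.h965.MX
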