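import Pool.Agent.Run7.h965.MX.Gaps2

/-!
Exact prime patterns with the index of the first prime in every residue class.
-/

set_option autoImplicit false

namespace Pool.Agent.Run7.h965.MX

open Filter Pool.Agent.W68.Mil Pool.Agent.H752R3.MT Pool.Agent.W68.Her Pool.Agent.H38R3.Ell

/-- the window condition and the class of the index, for a set `U` of indices -/
def Cs (v : ℕ → ℤ) (q : ℕ) (r : ℤ) (M : ℕ) (U : Set ℕ) (c R : ℕ) : Set ℕ :=
  {n : ℕ | (∀ y : ℤ, v (sInf U) ≤ y → y ≤ v (sInf U) + R →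
      (Nat.Prime ((q : ℤ) * n + (r + y)).toNat ↔ ∃ a ∈ U, y = v a)) ∧
    Nat.primeCounting ((q : ℤ) * n + (r + v (sInf U))).toNat ≡ c [MOD M]}

/-- all windows -/
def Gd (v : ℕ → ℤ) (q : ℕ) (r : ℤ) (M : ℕ) (U : Set ℕ) (c : ℕ) : Prop :=
  ∀ R : ℕ, (Cs v q r M U c R).Infinite

theorem cs_anti (v : ℕ → ℤ) (q : ℕ) (r : ℤ) (M : ℕ) (U : Set ℕ) (c : ℕ) {R R' : ℕ} (h : R ≤ R') :
    Cs v q r M U c R' ⊆ Cs v q r M U c R := by
  rintro n ⟨h1, h2⟩
  refine ⟨fun y hy1 hy2 => h1 y hy1 (hy2.trans ?_), h2⟩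
  have : (R : ℤ) ≤ R' := by exact_mod_cast h
  linarith

theorem grow {v : ℕ → ℤ} (hv : StrictMono v) (a n : ℕ) : v a + n ≤ v (a + n) := by
  induction n with
  | zero => simp
  | succ n ih =>
    have h1 : v (a + n) < v (a + (n + 1)) := hv (by omega)
    push_cast
    linarith

theorem lt_of_val {v : ℕ → ℤ} (hv : StrictMono v) {a b R : ℕ} (h : v b ≤ v a + R) : b < a + R + 1 := by
  by_contra hc
  push Not at hc
  have h1 := grow hv a (R + 1)
  have h2 : v (a + (R + 1)) ≤ v b := hv.monotone (by omega)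
  push_cast at h1
  linarith

theorem eoI {v : ℕ → ℤ} (hv : StrictMono v) (q : ℕ) (r : ℤ) (M c : ℕ) :
    EO {U : Set ℕ | ¬ Gd v q r M U c} := by
  intro z hz hzi
  simp only [Set.mem_ofPred_eq] at hz
  unfold Gd at hz
  push Not at hz
  obtain ⟨R, hR⟩ := hz
  obtain ⟨u, hu1, hu2, hu3, -⟩ := exists_init hzi (sInf z + R + 1) 0
  refine ⟨u, hu1, fun w hw => ?_⟩
  have hz0 : sInf z ∈ z := Nat.sInf_mem hzi.nonempty
  have hwz : w ⊆ z := by
    intro n hn
    rcases hw.2.2 n hn with h | h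
    · exact hu3 n h
    · exact h.1
  have hwi : ∀ a, a < sInf z + R + 1 → a ∈ z → a ∈ w := fun a ha haz => hw.2.1 a (hu2 a haz ha)
  have hinf : sInf w = sInf z := by
    apply le_antisymm
    · exact Nat.sInf_le (hwi _ (by omega) hz0)
    · exact Nat.sInf_le (hwz (Nat.sInf_mem hw.1.nonempty))
  simp only [Set.mem_ofPred_eq]
  intro hG
  refine Set.Infinite.mono ?_ (hG R) hR
  rintro n ⟨h1, h2⟩
  rw [hinf] at h1 h2
  refine ⟨fun y hy1 hy2 => ?_, h2⟩
  rw [h1 y hy1 hy2]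
  constructor
  · rintro ⟨a, ha, rfl⟩
    exact ⟨a, hwz ha, rfl⟩
  · rintro ⟨a, ha, rfl⟩
    exact ⟨a, hwi a (lt_of_val hv hy2) ha, rfl⟩

/-- some class works -/
theorem gd_exists {v : ℕ → ℤ} (hv : StrictMono v) {q : ℕ} (hq : 1 ≤ q) (r : ℤ) {M : ℕ} (hM : 1 ≤ M)
    {U : Set ℕ} (hU : ExF ((fun a => ((q : ℤ), r + v a)) '' U)) : ∃ c < M, Gd v q r M U c := by
  classical
  have h1 : ∀ R : ℕ, ∃ c < M, (Cs v q r M U c R).Infinite := by
    intro R
    have h2 := hU ((Finset.Icc (v (sInf U)) (v (sInf U) + R)).image fun y => ((q : ℤ), r + y)) (by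
      intro f hf
      obtain ⟨y, -, rfl⟩ := Finset.mem_image.1 hf
      show (1 : ℤ) ≤ q
      exact_mod_cast hq)
    have h3 : {n : ℕ | ∀ f ∈ (Finset.Icc (v (sInf U)) (v (sInf U) + R)).image
        fun y => ((q : ℤ), r + y), (Nat.Prime (f.1 * n + f.2).toNat ↔
          f ∈ (fun a => ((q : ℤ), r + v a)) '' U)} ⊆ ⋃ c ∈ Finset.range M, Cs v q r M U c R := by
      intro n hn
      rw [Set.mem_iUnion₂]
      refine ⟨Nat.primeCounting ((q : ℤ) * n + (r + v (sInf U))).toNat % M,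
        Finset.mem_range.2 (Nat.mod_lt _ hM), fun y hy1 hy2 => ?_, (Nat.mod_modEq _ _).symm⟩
      have h4 := hn _ (Finset.mem_image.2 ⟨y, Finset.mem_Icc.2 ⟨hy1, hy2⟩, rfl⟩)
      simp only at h4
      rw [h4]
      constructor
      · rintro ⟨a, ha, h5⟩
        refine ⟨a, ha, ?_⟩
        have := (Prod.ext_iff.1 h5).2
        simp only at this
        linarith
      · rintro ⟨a, ha, rfl⟩
        exact ⟨a, ha, rfl⟩
    by_contra hc
    push Not at hc
    refine h2.mono h3 ?_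
    refine Set.Finite.biUnion (Finset.finite_toSet _) fun c hc' => ?_
    exact hc c (Finset.mem_range.1 hc')
  choose g hg1 hg2 using h1
  have : NeZero M := ⟨by omega⟩
  obtain ⟨c, hc⟩ := Finite.exists_infinite_fiber fun R => (⟨g R, hg1 R⟩ : Fin M)
  rw [Set.infinite_coe_iff] at hc
  refine ⟨c, c.2, fun R => ?_⟩
  obtain ⟨R', hR', hlt⟩ := hc.exists_gt R
  rw [Set.mem_preimage, Set.mem_singleton_iff] at hR'
  have h5 := hg2 R'
  have h6 : g R' = (c : ℕ) := by
    rw [← hR']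
  rw [h6] at h5
  exact h5.mono (cs_anti v q r M U c hlt.le)

/-- consecutive primes and the counting function -/
theorem count_next {a b : ℕ} (hab : a < b) (ha : a.Prime) (h : ∀ l, a < l → l < b → ¬ l.Prime) :
    Nat.count Nat.Prime b = Nat.count Nat.Prime a + 1 := by
  classical
  have h1 : ∀ l, a + 1 ≤ l → l ≤ b → Nat.count Nat.Prime l = Nat.count Nat.Prime a + 1 := by
    intro l hl
    induction l, hl using Nat.le_induction with
    | base =>
      intro _
      rw [Nat.count_succ, if_pos ha]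
    | succ l hl ih =>
      intro hlb
      rw [Nat.count_succ, if_neg (h l (by omega) (by omega)), ih (by omega)]
  exact h1 b hab le_rfl

theorem pi_next {a b : ℕ} (hab : a < b) (ha : a.Prime) (hb : b.Prime)
    (h : ∀ l, a < l → l < b → ¬ l.Prime) : Nat.primeCounting b = Nat.primeCounting a + 1 := by
  unfold Nat.primeCounting Nat.primeCounting'
  rw [Nat.count_succ, Nat.count_succ, if_pos ha, if_pos hb, count_next hab ha h]

/-- one more element on the left -/
theorem gd_shift {v : ℕ → ℤ} (hv : StrictMono v) {q : ℕ} (r : ℤ) {M : ℕ}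
    {U : Set ℕ} (hU : U.Nonempty) {b c : ℕ} (hb : b < sInf U) (h : Gd v q r M (insert b U) c) :
    Gd v q r M U (c + 1) := by
  intro R
  have hinf : sInf (insert b U) = b := by
    apply le_antisymm
    · exact Nat.sInf_le (Set.mem_insert _ _)
    · have h1 := Nat.sInf_mem (Set.insert_nonempty b U)
      rcases h1 with h1 | h1
      · exact h1.ge
      · exact hb.le.trans (Nat.sInf_le h1)
  have hU0 : sInf U ∈ U := Nat.sInf_mem hU
  have hvb : v b < v (sInf U) := hv hb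
  obtain ⟨R', hR'⟩ : ∃ R' : ℕ, v (sInf U) + R ≤ v b + R' := by
    refine ⟨(v (sInf U) + R - v b).toNat, ?_⟩
    have := Int.self_le_toNat (v (sInf U) + R - v b)
    linarith
  refine (h R').mono ?_
  rintro n ⟨h1, h2⟩
  rw [hinf] at h1 h2
  have hmem : ∀ y : ℤ, v b < y → ((∃ a ∈ insert b U, y = v a) ↔ ∃ a ∈ U, y = v a) := by
    intro y hy
    constructor
    · rintro ⟨a, ha, rfl⟩
      rcases ha with rfl | ha
      · exact absurd hy (lt_irrefl _)
      · exact ⟨a, ha, rfl⟩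
    · rintro ⟨a, ha, rfl⟩
      exact ⟨a, Set.mem_insert_of_mem _ ha, rfl⟩
  refine ⟨fun y hy1 hy2 => ?_, ?_⟩
  · rw [h1 y (by linarith) (by linarith), hmem y (by linarith)]
  · have hR0 : (0 : ℤ) ≤ R := Int.natCast_nonneg _
    have hp1 : Nat.Prime ((q : ℤ) * n + (r + v b)).toNat :=
      (h1 (v b) le_rfl (by linarith)).2 ⟨b, Set.mem_insert _ _, rfl⟩
    have hp2 : Nat.Prime ((q : ℤ) * n + (r + v (sInf U))).toNat :=
      (h1 (v (sInf U)) hvb.le (by linarith)).2 ⟨_, Set.mem_insert_of_mem _ hU0, rfl⟩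
    have hpos : 0 < (q : ℤ) * n + (r + v b) := by
      by_contra hc
      push Not at hc
      rw [Int.toNat_of_nonpos hc] at hp1
      exact Nat.not_prime_zero hp1
    have e := pi_next (a := ((q : ℤ) * n + (r + v b)).toNat)
      (b := ((q : ℤ) * n + (r + v (sInf U))).toNat) (by omega) hp1 hp2 (by
      intro l hl1 hl2 hlp
      have h3 := h1 ((l : ℤ) - (q : ℤ) * n - r) (by omega) (by omega)
      have e3 : (q : ℤ) * n + (r + ((l : ℤ) - (q : ℤ) * n - r)) = l := by ring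
      rw [e3, Int.toNat_natCast, hmem _ (by omega)] at h3
      obtain ⟨a, ha, ha2⟩ := h3.1 hlp
      have h4 : v (sInf U) ≤ v a := hv.monotone (Nat.sInf_le ha)
      omega)
    show Nat.primeCounting _ ≡ c + 1 [MOD M]
    rw [e]
    exact Nat.ModEq.add_right 1 h2

/-- every infinite set of indices contains an infinite set all of whose infinite subsets are exact
patterns, with the index of the first prime in every residue class -/
theorem all_classes {v : ℕ → ℤ} (hv : StrictMono v) {q : ℕ} (hq : 1 ≤ q) (r : ℤ) {M : ℕ}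
    (hM : 1 ≤ M) (Y : Set ℕ) (hY : Y.Infinite) (hp : ∀ a ∈ Y, IsCoprime (q : ℤ) (r + v a)) :
    ∃ Z ⊆ Y, Z.Infinite ∧ ∀ U ⊆ Z, U.Infinite → ∀ c, Gd v q r M U c := by
  have hF : Function.Injective fun a => ((q : ℤ), r + v a) := by
    intro a b h
    have := (Prod.ext_iff.1 h).2
    simp only at this
    exact hv.injective (by linarith)
  obtain ⟨Y₁, hY₁, hY₁i, hE⟩ := core hF Y hY (fun a ha =>
    ⟨by show (1 : ℤ) ≤ q; exact_mod_cast hq, hp a ha⟩)
  have h1 : ∀ C : ℕ, ∃ Y₂ ⊆ Y₁, Y₂.Infinite ∧ ∀ c < C, (∀ U ∈ Nb ∅ Y₂, Gd v q r M U c) ∨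
      ∀ U ∈ Nb ∅ Y₂, ¬ Gd v q r M U c := by
    intro C
    induction C with
    | zero => exact ⟨Y₁, subset_rfl, hY₁i, fun c hc => absurd hc (Nat.not_lt_zero _)⟩
    | succ C ih =>
      obtain ⟨Y₂, h2, h3, h4⟩ := ih
      obtain ⟨Y₃, h5, h6, h7⟩ := (eoI hv q r M C).cr ∅ Y₂ h3
      refine ⟨Y₃, h5.trans h2, h6, fun c hc => ?_⟩
      rcases Nat.lt_succ_iff_lt_or_eq.1 hc with hc | rfl
      · rcases h4 c hc with h8 | h8
        · exact Or.inl fun U hU => h8 U (Nb_mono h5 hU)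
        · exact Or.inr fun U hU => h8 U (Nb_mono h5 hU)
      · rcases h7 with h7 | h7
        · exact Or.inr h7
        · left
          intro U hU
          by_contra hc2
          exact h7 U hU hc2
  obtain ⟨Y₂, h2, h3, h4⟩ := h1 M
  have hNb : ∀ U ⊆ Y₂, U.Infinite → U ∈ Nb ∅ Y₂ := by
    intro U hU hUi
    exact ⟨hUi, by simp, fun n hn => Or.inr ⟨hU hn, by simp⟩⟩
  have hb : sInf Y₂ ∈ Y₂ := Nat.sInf_mem h3.nonempty
  refine ⟨Y₂ \ {sInf Y₂}, (Set.sdiff_subset.trans h2).trans hY₁, h3.sdiff (Set.finite_singleton _),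
    fun U hU hUi => ?_⟩
  have hUY : U ⊆ Y₂ := hU.trans Set.sdiff_subset
  have hlt : sInf Y₂ < sInf U := by
    have h5 := hU (Nat.sInf_mem hUi.nonempty)
    have h6 : sInf Y₂ ≤ sInf U := Nat.sInf_le h5.1
    have h7 : sInf U ≠ sInf Y₂ := h5.2
    omega
  have hUb : insert (sInf Y₂) U ⊆ Y₂ := Set.insert_subset hb hUY
  have hmod : ∀ c, Gd v q r M U (c % M) → Gd v q r M U c := by
    intro c hc R
    refine (hc R).mono ?_
    rintro n ⟨h5, h6⟩
    exact ⟨h5, h6.trans (Nat.mod_modEq _ _)⟩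
  have hmod' : ∀ c, Gd v q r M U c → Gd v q r M U (c % M) := by
    intro c hc R
    refine (hc R).mono ?_
    rintro n ⟨h5, h6⟩
    exact ⟨h5, h6.trans (Nat.mod_modEq _ _).symm⟩
  -- one step
  have hstep : ∀ c, Gd v q r M U c → Gd v q r M U (c + 1) := by
    intro c hc
    have h5 := hmod' c hc
    have h6 : ∀ U ∈ Nb ∅ Y₂, Gd v q r M U (c % M) := by
      rcases h4 (c % M) (Nat.mod_lt _ hM) with h7 | h7
      · exact h7
      · exact absurd h5 (h7 U (hNb U hUY hUi))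
    have h7 := gd_shift hv r hUi.nonempty hlt
      (h6 _ (hNb _ hUb (hUi.mono (Set.subset_insert _ _))))
    refine hmod _ ?_
    have h8 : (c + 1) % M = (c % M + 1) % M := by
      rw [Nat.mod_add_mod]
    rw [h8]
    intro R
    refine (h7 R).mono ?_
    rintro n ⟨h9, h10⟩
    exact ⟨h9, h10.trans (Nat.mod_modEq _ _).symm⟩
  obtain ⟨c₀, hc₀, hG⟩ := gd_exists hv hq r hM (hE U (hUY.trans h2))
  have h5 : ∀ k, Gd v q r M U (c₀ + k) := by
    intro k
    induction k with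
    | zero => exact hG
    | succ k ih => exact hstep _ ih
  intro c
  have h6 := h5 (c + (M - 1) * c₀)
  refine hmod c ?_
  have h7 := hmod' _ h6
  have h8 : (c₀ + (c + (M - 1) * c₀)) % M = c % M := by
    obtain ⟨m, rfl⟩ : ∃ m, M = m + 1 := ⟨M - 1, by omega⟩
    have e : c₀ + (c + (m + 1 - 1) * c₀) = c + (m + 1) * c₀ := by
      rw [Nat.add_sub_cancel]
      ring
    rw [e, Nat.add_mul_mod_self_left]
  rwa [h8] at h7

end Pool.Agent.Run7.h965.MX
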