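import Pool.Agent.Run7.h965.MX.IdxF

/-!
Arrays of positive integers: vectors of consecutive prime gaps with the index in every class.
-/

set_option autoImplicit false

namespace Pool.Agent.Run7.h965.MX

open Filter Pool.Agent.W68.Mil Pool.Agent.H752R3.MT Pool.Agent.W68.Her

/-- mixed sums of arrays are vectors of consecutive prime gaps, at indices in every class -/
theorem arraysI (d : ℕ → ℕ → ℕ → ℕ) (hd : ∀ j p a, 1 ≤ d j p a) (q : ℕ → ℕ) (hq : ∀ j, 1 ≤ q j)
    (r : ℕ → ℤ) (hr : ∀ j, IsCoprime (r j) (q j : ℤ)) (h : ℕ → ℕ) :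
    ∃ (V W : ℕ → Finset ℕ) (b : ℕ → ℕ), (∀ i, (W i).Nonempty) ∧ (∀ i, Disjoint (V i) (W i)) ∧
      (∀ i, ∀ x ∈ V i ∪ W i, ∀ y ∈ V (i + 1) ∪ W (i + 1), x < y) ∧
      ∀ (j k : ℕ) (F : ℕ → Finset ℕ) (E : Finset ℕ) (a : ℕ → ℕ) (M : ℕ), (∀ l ≤ k, (F l).Nonempty) →
        (∀ l ≤ k, ∀ i ∈ F l, j ≤ i) → (∀ l < k, ∀ i ∈ F l, ∀ i' ∈ F (l + 1), i < i') →
        (∀ i ∈ E, ∀ i' ∈ F 0, i < i') →
        (∀ i, a i ≤ i ∨ ∃ i' < i, ∃ p ∈ V i' ∪ W i', a i ≤ h p) → 1 ≤ M →
        (∀ i ∈ F 0, M ≤ i ∨ ∃ i' < i, ∃ p ∈ V i' ∪ W i', M ≤ h p) →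
        IC (q j) (r j) M (k + 1) fun m =>
            (∏ i ∈ E, (∑ p ∈ V i, (d j p (b p) : ℤ) + ∑ p ∈ W i, (d j p (a i) : ℤ))) *
              ∑ l ∈ Finset.range m, ∑ i ∈ F l,
                (∑ p ∈ V i, (d j p (b p) : ℤ) + ∑ p ∈ W i, (d j p (a i) : ℤ)) := by
  classical
  obtain ⟨w, hw1, hw2, hw3, hw4⟩ := gapsI_mult (fun j => arr (d j)) (fun j => arr_gr (hd j)) q hq
    r hr (lb h) (fun L => pb d h L + lb h L) 0
  have hne : ∀ i, w i ≠ [] := fun i => (hw2 i).1
  have hs : ∀ i, (w i).Pairwise fun x y => x.1 < y.1 := fun i => (hw2 i).2.1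
  have hlt : ∀ i j, i < j → ∀ x ∈ w i, ∀ y ∈ w j, x.1 < y.1 := by
    intro i j hij
    induction j, hij using Nat.le_induction with
    | base => exact hw3 i
    | succ j hj ih =>
      intro x hx y hy
      obtain ⟨z, hz⟩ := List.exists_mem_of_ne_nil _ (hne j)
      exact (ih x hx z hz).trans (hw3 j z hz y hy)
  refine ⟨fun i => lp (w (2 * i + 1)), fun i => vp (w (2 * i + 1)), let' w, fun i => ?_, fun i => ?_,
    fun i x hx y hy => ?_, ?_⟩
  · obtain ⟨x, hx, hx2⟩ := hw1 (2 * i + 1)
    exact ⟨x.1, Finset.mem_image.2 ⟨x, Finset.mem_filter.2 ⟨List.mem_toFinset.2 hx, hx2⟩, rfl⟩⟩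
  · rw [Finset.disjoint_left]
    intro p hp hp'
    unfold lp at hp
    unfold vp at hp'
    obtain ⟨x, hx, rfl⟩ := Finset.mem_image.1 hp
    obtain ⟨y, hy, hxy⟩ := Finset.mem_image.1 hp'
    rw [Finset.mem_filter, List.mem_toFinset] at hx hy
    have := pos_unique hne hs hw3 hy.1 hx.1 hxy
    rw [this] at hy
    exact hx.2 hy.2
  · obtain ⟨x', hx', rfl⟩ := mem_vl hx
    obtain ⟨y', hy', rfl⟩ := mem_vl hy
    exact hlt (2 * i + 1) (2 * (i + 1) + 1) (by omega) x' hx' y' hy'
  · intro j k F E a M h1 h2 h3 hE ha hM1 hM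
    -- the smallest index
    obtain ⟨i₁, hi₁, hmin⟩ : ∃ i₁ ∈ F 0, ∀ i ∈ F 0, i₁ ≤ i :=
      ⟨(F 0).min' (h1 0 (by omega)), Finset.min'_mem _ _, fun i hi => Finset.min'_le _ _ hi⟩
    have hji₁ : j ≤ i₁ := h2 0 (by omega) i₁ hi₁
    have hall : ∀ l ≤ k, ∀ i ∈ F l, i₁ ≤ i := by
      intro l
      induction l with
      | zero => intro _; exact hmin
      | succ l ih =>
        intro hl i hi
        obtain ⟨i', hi'⟩ := h1 l (by omega)
        exact (ih (by omega) i' hi').trans (h3 l (by omega) i' hi' i hi).le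
    set F' : ℕ → Finset ℕ := fun l => if l = 0 then {2 * i₁} else
      (F (l - 1)).image (fun i => 2 * i + 1) with hF'
    set a' : ℕ → ℕ := fun i => if i % 2 = 0 then 0 else a (i / 2) with ha'
    have hF'0 : F' 0 = {2 * i₁} := by simp [hF']
    have hF's : ∀ l, F' (l + 1) = (F l).image (fun i => 2 * i + 1) := by intro l; simp [hF']
    have ha's : ∀ i, a' (2 * i + 1) = a i := by
      intro i
      simp only [ha']
      rw [if_neg (by omega)]
      congr 1
      omega
    have halb : ∀ i n, 2 * i + 1 ≤ n → a i ≤ lb h ((List.range n).map w) := by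
      intro i n hn
      unfold lb
      rw [List.length_map, List.length_range]
      rcases ha i with h4 | ⟨i', hi', p, hp, h4⟩
      · omega
      · obtain ⟨x, hx, rfl⟩ := mem_vl hp
        have h5 : x.1 ≤ lst ((List.range n).map w).flatten :=
          le_lst (List.mem_flatten.2 ⟨w (2 * i' + 1), List.mem_map.2 ⟨2 * i' + 1,
            List.mem_range.2 (by omega), rfl⟩, hx⟩)
        have h6 := le_tot h h5
        omega
    have haH : ∀ i, a' i ≤ lb h ((List.range i).map w) := by
      intro i
      by_cases h4 : i % 2 = 0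
      · simp only [ha']
        rw [if_pos h4]
        exact Nat.zero_le _
      · simp only [ha']
        rw [if_neg h4]
        exact halb (i / 2) i (by omega)
    have hX : ∀ i c, ∑ p ∈ lp (w (2 * i + 1)), (d j p (let' w p) : ℤ) +
        ∑ p ∈ vp (w (2 * i + 1)), (d j p c : ℤ) = arr (d j) (sb c (w (2 * i + 1))) :=
      fun i c => (arr_sb hne hs hw3 (d j) (2 * i + 1) c).symm
    have hXpos : ∀ i c, 0 < arr (d j) (sb c (w i)) := fun i c => arr_pos (hd j) (by
      unfold sb
      rw [ne_eq, List.map_eq_nil_iff]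
      exact hne i)
    have hMC : M ≤ lb h ((List.range (2 * i₁)).map w) := by
      unfold lb
      rw [List.length_map, List.length_range]
      rcases hM i₁ hi₁ with h4 | ⟨i', hi', p, hp, h4⟩
      · omega
      · obtain ⟨x, hx, rfl⟩ := mem_vl hp
        have h5 : x.1 ≤ lst ((List.range (2 * i₁)).map w).flatten :=
          le_lst (List.mem_flatten.2 ⟨w (2 * i' + 1), List.mem_map.2 ⟨2 * i' + 1,
            List.mem_range.2 (by omega), rfl⟩, hx⟩)
        have h6 := le_tot h h5
        omega
    set c : ℕ := ∏ i ∈ E, (arr (d j) (sb (a i) (w (2 * i + 1)))).toNat with hc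
    have hcZ : ∏ i ∈ E, (∑ p ∈ lp (w (2 * i + 1)), (d j p (let' w p) : ℤ) +
        ∑ p ∈ vp (w (2 * i + 1)), (d j p (a i) : ℤ)) = c := by
      rw [hc, Nat.cast_prod]
      refine Finset.prod_congr rfl fun i _ => ?_
      rw [hX, Int.toNat_of_nonneg (hXpos _ _).le]
    have hc1 : 1 ≤ c := by
      rw [hc]
      refine Nat.one_le_iff_ne_zero.2 (Finset.prod_ne_zero_iff.2 fun i _ => ?_)
      have := hXpos (2 * i + 1) (a i)
      omega
    have hcC : c ≤ pb d h ((List.range (2 * i₁)).map w) := by
      set L := (List.range (2 * i₁)).map w with hL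
      have hEi : ∀ i ∈ E, i < i₁ := fun i hi => hE i hi i₁ hi₁
      have e1 : c ≤ ∏ i ∈ E, (1 + sv (d j) (lb h L) (w (2 * i + 1))) := by
        rw [hc]
        refine Finset.prod_le_prod' fun i hi => ?_
        have h5 : a i ≤ lb h L := halb i _ (by have := hEi i hi; omega)
        have h6 : (arr (d j) (sb (a i) (w (2 * i + 1)))).toNat ≤
            sv (d j) (lb h L) (w (2 * i + 1)) :=
          Finset.single_le_sum (f := fun a => (arr (d j) (sb a (w (2 * i + 1)))).toNat)
            (fun _ _ => Nat.zero_le _) (Finset.mem_range.2 (by omega))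
        omega
      have e2 : ∏ i ∈ E, (1 + sv (d j) (lb h L) (w (2 * i + 1))) =
          ∏ i ∈ E.image (fun i => 2 * i + 1), (1 + sv (d j) (lb h L) (w i)) := by
        rw [Finset.prod_image (by intro x _ y _ h; simpa using h)]
      have e3 : ∏ i ∈ E.image (fun i => 2 * i + 1), (1 + sv (d j) (lb h L) (w i)) ≤
          ∏ i ∈ Finset.range (2 * i₁), (1 + sv (d j) (lb h L) (w i)) := by
        refine Finset.prod_le_prod_of_subset_of_one_le' ?_ (fun i _ _ => by omega)
        intro x hx
        obtain ⟨i, hi, rfl⟩ := Finset.mem_image.1 hx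
        have := hEi i hi
        exact Finset.mem_range.2 (by omega)
      have e4 : ∏ i ∈ Finset.range (2 * i₁), (1 + sv (d j) (lb h L) (w i)) =
          (L.map fun u => 1 + sv (d j) (lb h L) u).prod := by
        have hprod : ∀ (g : ℕ → ℕ) (n : ℕ),
            ∏ i ∈ Finset.range n, g i = ((List.range n).map g).prod := by
          intro g n
          induction n with
          | zero => rfl
          | succ n ih =>
            rw [Finset.prod_range_succ, ih, List.range_succ, List.map_append, List.prod_append]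
            simp
        rw [hprod]
        rw [show ((List.range (2 * i₁)).map fun i => 1 + sv (d j) (lb h L) (w i)) =
          L.map fun u => 1 + sv (d j) (lb h L) u by rw [hL, List.map_map]; rfl]
      have e5 : (L.map fun u => 1 + sv (d j) (lb h L) u).prod ≤ pb d h L := by
        unfold pb
        refine Finset.single_le_sum (f := fun j => (L.map fun u => 1 + sv (d j) (lb h L) u).prod)
          (fun _ _ => Nat.zero_le _) (Finset.mem_range.2 ?_)
        rw [hL, List.length_map, List.length_range]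
        omega
      calc c ≤ _ := e1
        _ = _ := e2
        _ ≤ _ := e3
        _ = _ := e4
        _ ≤ _ := e5
    obtain ⟨-, hinf⟩ := hw4 j (k + 1) (2 * i₁) c M F' a' (by omega) hc1
      (Or.inr (hcC.trans (Nat.le_add_right _ _))) hM1 (Or.inr (hMC.trans (Nat.le_add_left _ _)))
      (fun l hl => by
        rcases l with _ | l
        · rw [hF'0]; exact Finset.singleton_nonempty _
        · rw [hF's]; exact (h1 l (by omega)).image _)
      (fun l hl i hi => by
        rcases l with _ | l
        · rw [hF'0, Finset.mem_singleton] at hi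
          omega
        · rw [hF's, Finset.mem_image] at hi
          obtain ⟨i', hi', rfl⟩ := hi
          have := hall l (by omega) i' hi'
          omega)
      (fun l hl i hi i' hi' => by
        rw [hF's, Finset.mem_image] at hi'
        obtain ⟨i₂, hi₂, rfl⟩ := hi'
        rcases l with _ | l
        · rw [hF'0, Finset.mem_singleton] at hi
          have := hall 0 (by omega) i₂ hi₂
          omega
        · rw [hF's, Finset.mem_image] at hi
          obtain ⟨i₃, hi₃, rfl⟩ := hi
          have := h3 l (by omega) i₃ hi₃ i₂ hi₂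
          omega) haH
    have hdisj : ∀ l l', l ≤ k → l' ≤ k → l < l' → ∀ i ∈ F l, ∀ i' ∈ F l', i < i' := by
      intro l l' _ hl' hll
      induction l', hll using Nat.le_induction with
      | base => exact h3 l (by omega)
      | succ l' hl ih =>
        intro i hi i' hi'
        obtain ⟨i₂, hi₂⟩ := h1 l' (by omega)
        exact (ih (by omega) i hi i₂ hi₂).trans (h3 l' (by omega) i₂ hi₂ i' hi')
    have hval : ∀ m ≤ k + 1, arr (d j) (wd w a' ((Finset.range (m + 1)).biUnion F')) -
        arr (d j) (wd w a' (F' 0)) = ∑ l ∈ Finset.range m, ∑ i ∈ F l,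
          (∑ p ∈ lp (w (2 * i + 1)), (d j p (let' w p) : ℤ) +
            ∑ p ∈ vp (w (2 * i + 1)), (d j p (a i) : ℤ)) := by
      intro m hm
      rw [arr_wd, arr_wd, Finset.sum_biUnion, Finset.sum_range_succ', add_sub_cancel_right]
      · refine Finset.sum_congr rfl fun l _ => ?_
        rw [hF's, Finset.sum_image (by intro x _ y _ h; simpa using h)]
        refine Finset.sum_congr rfl fun i _ => ?_
        rw [ha's, hX]
      · have hkey : ∀ l l', l < l' → l' < m + 1 → Disjoint (F' l) (F' l') := by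
          intro l l' hll hl'
          rw [Finset.disjoint_left]
          intro i hi hi'
          obtain ⟨l₁, rfl⟩ : ∃ l₁, l' = l₁ + 1 := ⟨l' - 1, by omega⟩
          rw [hF's, Finset.mem_image] at hi'
          obtain ⟨i₂, hi₂, rfl⟩ := hi'
          rcases l with _ | l
          · rw [hF'0, Finset.mem_singleton] at hi
            have := hall l₁ (by omega) i₂ hi₂
            omega
          · rw [hF's, Finset.mem_image] at hi
            obtain ⟨i₃, hi₃, h5⟩ := hi
            have := hdisj l l₁ (by omega) (by omega) (by omega) i₃ hi₃ i₂ hi₂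
            omega
        intro l hl l' hl' hne'
        rw [Finset.mem_coe, Finset.mem_range] at hl hl'
        rcases Nat.lt_or_gt_of_ne hne' with h5 | h5
        · exact hkey l l' h5 hl'
        · exact (hkey l' l h5 hl).symm
    refine hinf.congr fun m hm => ?_
    simp only
    rw [hcZ, hval m hm]

end Pool.Agent.Run7.h965.MX
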