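import Pool.Agent.Run7.h965.MX.IdxW

/-!
Vectors of consecutive prime gaps `p_(i+1) - p_i, p_(i+2) - p_(i+1), …` along systems of words, with the
index `i` in every residue class.
-/

set_option autoImplicit false

namespace Pool.Agent.Run7.h965.MX

open Filter Pool.Agent.W68.Mil Pool.Agent.H752R3.MT Pool.Agent.W68.Her

/-- the `i`-th prime -/
noncomputable def prI (i : ℕ) : ℕ := Nat.nth Nat.Prime (i - 1)

/-- for all `c` and `R` there are infinitely many `i ≡ c` modulo `M` for which `p_i ≡ r` modulo `q`, the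
next primes are at the distances `g 1, …, g k`, and no further prime is within distance `R` -/
def IC (q : ℕ) (r : ℤ) (M k : ℕ) (g : ℕ → ℤ) : Prop :=
  ∀ c R : ℕ, {i : ℕ | 1 ≤ i ∧ i ≡ c [MOD M] ∧ (prI i : ℤ) ≡ r [ZMOD q] ∧
    (∀ m ≤ k, (prI (i + m) : ℤ) = prI i + g m) ∧ (prI i : ℤ) + R < prI (i + (k + 1))}.Infinite

theorem IC.congr {q : ℕ} {r : ℤ} {M k : ℕ} {g g' : ℕ → ℤ} (h : IC q r M k g)
    (he : ∀ m ≤ k, g m = g' m) : IC q r M k g' := by
  intro c R
  refine (h c R).mono ?_
  rintro i ⟨h0, h1, h2, h3, h4⟩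
  exact ⟨h0, h1, h2, fun m hm => by rw [h3 m hm, he m hm], h4⟩

theorem prI_counting {n : ℕ} (hn : n.Prime) : prI (Nat.primeCounting n) = n := by
  unfold prI Nat.primeCounting Nat.primeCounting'
  rw [Nat.count_succ, if_pos hn, Nat.add_sub_cancel]
  exact Nat.nth_count hn

theorem idx_window {n k R : ℕ} {g : ℕ → ℤ} (h0 : g 0 = 0) (hg : ∀ m < k, g m < g (m + 1))
    (hR : g k ≤ R)
    (h : ∀ y : ℤ, 0 ≤ y → y ≤ R → (Nat.Prime ((n : ℤ) + y).toNat ↔ ∃ m ≤ k, y = g m)) :
    n.Prime ∧ (∀ m ≤ k, (prI (Nat.primeCounting n + m) : ℤ) = n + g m) ∧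
      (n : ℤ) + R < prI (Nat.primeCounting n + (k + 1)) := by
  classical
  have hR0 : (0 : ℤ) ≤ R := Int.natCast_nonneg _
  have hn : n.Prime := by
    have := (h 0 le_rfl hR0).2 ⟨0, Nat.zero_le _, h0.symm⟩
    simpa using this
  -- monotone
  have hmono : ∀ m, m ≤ k → ∀ l ≤ m, g l ≤ g m := by
    intro m
    induction m with
    | zero =>
      intro _ l hl
      have : l = 0 := by omega
      rw [this]
    | succ m ih =>
      intro hm l hl
      rcases Nat.lt_or_ge l (m + 1) with h1 | h1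
      · exact (ih (by omega) l (by omega)).trans (hg m (by omega)).le
      · have : l = m + 1 := by omega
        rw [this]
  have hnn : ∀ m ≤ k, 0 ≤ g m := fun m hm => h0 ▸ hmono m hm 0 (Nat.zero_le _)
  have hcnt : Nat.primeCounting n = Nat.count Nat.Prime n + 1 := by
    unfold Nat.primeCounting Nat.primeCounting'
    rw [Nat.count_succ, if_pos hn]
  -- the numbers
  have hval : ∀ m ≤ k, ((n + (g m).toNat : ℕ) : ℤ) = n + g m := by
    intro m hm
    rw [Nat.cast_add, Int.toNat_of_nonneg (hnn m hm)]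
  have hpr : ∀ m ≤ k, (n + (g m).toNat).Prime := by
    intro m hm
    have h1 := (h (g m) (hnn m hm) ((hmono k le_rfl m hm).trans hR)).2 ⟨m, hm, rfl⟩
    rw [← hval m hm, Int.toNat_natCast] at h1
    exact h1
  have hc : ∀ m, m ≤ k → Nat.count Nat.Prime (n + (g m).toNat) = Nat.count Nat.Prime n + m := by
    intro m
    induction m with
    | zero =>
      intro _
      rw [h0]
      simp
    | succ m ih =>
      intro hm
      have h1 := hval m (by omega)
      have h2 := hval (m + 1) hm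
      have h3 := hg m (by omega)
      rw [count_next (a := n + (g m).toNat) (by omega) (hpr m (by omega)) ?_, ih (by omega)]
      · omega
      · intro l hl1 hl2 hlp
        have h4 := h ((l : ℤ) - n) (by have := hnn m (by omega); omega) (by
          have := hmono k le_rfl (m + 1) hm
          omega)
        have e : ((n : ℤ) + ((l : ℤ) - n)).toNat = l := by omega
        rw [e] at h4
        obtain ⟨m', hm', h5⟩ := h4.1 hlp
        rcases Nat.lt_or_ge m m' with h6 | h6
        · have := hmono m' hm' (m + 1) h6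
          omega
        · have := hmono m (by omega) m' h6
          omega
  have hidx : ∀ m ≤ k, prI (Nat.primeCounting n + m) = n + (g m).toNat := by
    intro m hm
    unfold prI
    have e : Nat.primeCounting n + m - 1 = Nat.count Nat.Prime (n + (g m).toNat) := by
      rw [hc m hm, hcnt]
      omega
    rw [e]
    exact Nat.nth_count (hpr m hm)
  refine ⟨hn, fun m hm => ?_, ?_⟩
  · rw [hidx m hm, hval m hm]
  · by_contra hcon
    push Not at hcon
    set P : ℕ := prI (Nat.primeCounting n + (k + 1)) with hP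
    have hPp : P.Prime := Nat.nth_mem_of_infinite Nat.infinite_setOf_prime _
    have hlt : n + (g k).toNat < P := by
      rw [← hidx k le_rfl, hP]
      unfold prI
      exact Nat.nth_strictMono Nat.infinite_setOf_prime (by omega)
    have h1 := hval k le_rfl
    have h4 := h ((P : ℤ) - n) (by have := hnn k le_rfl; omega) (by omega)
    have e : ((n : ℤ) + ((P : ℤ) - n)).toNat = P := by omega
    rw [e] at h4
    obtain ⟨m', hm', h5⟩ := h4.1 hPp
    have := hmono k le_rfl m' hm'
    omega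

/-- from windows to indices -/
theorem ic_of_window {q : ℕ} {r : ℤ} {M k : ℕ} {g : ℕ → ℤ} (h0 : g 0 = 0)
    (hg : ∀ m < k, g m < g (m + 1))
    (h : ∀ c R : ℕ, {n : ℕ | (n : ℤ) ≡ r [ZMOD q] ∧ (∀ y : ℤ, 0 ≤ y → y ≤ R →
        (Nat.Prime ((n : ℤ) + y).toNat ↔ ∃ m ≤ k, y = g m)) ∧
        Nat.primeCounting n ≡ c [MOD M]}.Infinite) : IC q r M k g := by
  intro c R
  set R' : ℕ := R + (g k).toNat with hR'
  have hgk : g k ≤ R' := by
    have := Int.self_le_toNat (g k)
    push_cast
    have h1 : (0 : ℤ) ≤ R := Int.natCast_nonneg _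
    linarith
  have hinj : Set.InjOn Nat.primeCounting {n : ℕ | (n : ℤ) ≡ r [ZMOD q] ∧ (∀ y : ℤ, 0 ≤ y → y ≤ R' →
        (Nat.Prime ((n : ℤ) + y).toNat ↔ ∃ m ≤ k, y = g m)) ∧
        Nat.primeCounting n ≡ c [MOD M]} := by
    intro n hn n' hn' hnn
    have h1 := (idx_window h0 hg hgk hn.2.1).1
    have h2 := (idx_window h0 hg hgk hn'.2.1).1
    rw [← prI_counting h1, ← prI_counting h2, hnn]
  refine ((h c R').image hinj).mono ?_
  rintro _ ⟨n, ⟨h1, h2, h3⟩, rfl⟩
  obtain ⟨h4, h5, h6⟩ := idx_window h0 hg hgk h2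
  have hpi : 1 ≤ Nat.primeCounting n := by
    unfold Nat.primeCounting Nat.primeCounting'
    rw [Nat.count_succ, if_pos h4]
    omega
  refine ⟨hpi, h3, ?_, fun m hm => ?_, ?_⟩
  · rw [prI_counting h4]
    exact h1
  · rw [prI_counting h4]
    exact h5 m hm
  · rw [prI_counting h4]
    have : (R : ℤ) ≤ R' := by
      exact_mod_cast (by omega : R ≤ R')
    linarith

/-- consecutive prime gaps along systems of words, with multipliers and all classes of the index -/
theorem gapsI_mult (φ : ℕ → SW → ℤ) (hφ : ∀ j, Gr (φ j)) (q : ℕ → ℕ) (hq : ∀ j, 1 ≤ q j)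
    (r : ℕ → ℤ) (hr : ∀ j, IsCoprime (r j) (q j : ℤ)) (H C : List VW → ℕ) (N : ℕ) :
    ∃ w : ℕ → VW, (∀ i, Var (w i)) ∧ (∀ i, Bey N (w i)) ∧
      (∀ i, ∀ x ∈ w i, ∀ y ∈ w (i + 1), x.1 < y.1) ∧
      ∀ (j k i₀ c M : ℕ) (F : ℕ → Finset ℕ) (a : ℕ → ℕ), j ≤ i₀ → 1 ≤ c →
        (c = 1 ∨ c ≤ C ((List.range i₀).map w)) → 1 ≤ M →
        (M ≤ i₀ ∨ M ≤ C ((List.range i₀).map w)) →
        (∀ l ≤ k, (F l).Nonempty) → (∀ l ≤ k, ∀ i ∈ F l, i₀ ≤ i) →
        (∀ l < k, ∀ i ∈ F l, ∀ i' ∈ F (l + 1), i < i') →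
        (∀ i, a i ≤ H ((List.range i).map w)) →
        (∀ m ≤ k, (q j : ℤ) ∣ c * (φ j (wd w a ((Finset.range (m + 1)).biUnion F)) -
          φ j (wd w a (F 0)))) ∧
        IC (q j) (r j) M k fun m => c * (φ j (wd w a ((Finset.range (m + 1)).biUnion F)) -
          φ j (wd w a (F 0))) := by
  classical
  obtain ⟨w, hw1, hw2, hw3, hw4⟩ := gapsI_inf
    (fun j u s => (((Denumerable.ofNat (ℕ × ℕ) u).1 : ℤ) + 1) * φ j s)
    (fun j t s u hs hu hi => by
      have := hφ j s u hs hu hi
      have h0 : (0 : ℤ) < ((Denumerable.ofNat (ℕ × ℕ) t).1 : ℤ) + 1 := by positivity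
      exact mul_lt_mul_of_pos_left this h0)
    q hq r hr (fun u => (Denumerable.ofNat (ℕ × ℕ) u).2 + 1) (fun u => Nat.succ_pos _) H
    (fun L => cds (C L) (C L + L.length)) N
  refine ⟨w, hw1, hw2, hw3, ?_⟩
  intro j k i₀ c M F a hj hc hcC hM hMC h1 h2 h3 ha
  have hc' : (((c - 1 : ℕ) : ℤ) + 1) = c := by
    have : ((c - 1 : ℕ) : ℤ) = (c : ℤ) - 1 := by
      rw [Nat.cast_sub hc]
      simp
    rw [this]
    ring
  have hM' : M - 1 + 1 = M := by omega
  have hcpos : (0 : ℤ) < c := by exact_mod_cast hc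
  have hGr : Gr (fun s => (c : ℤ) * φ j s) := by
    intro s u hs hu hi
    exact mul_lt_mul_of_pos_left (hφ j s u hs hu hi) hcpos
  have hfin := gapsI_fin (φ := fun s => (c : ℤ) * φ j s) hGr (q := q j) (r := r j) (M := M)
    hw2 hw3 (j := i₀)
    (a := a) (fun F hF hF2 => by
      have h4 := hw4 j (Encodable.encode (c - 1, M - 1)) i₀ F a hj (le_cds (by omega) (by
        rw [List.length_map, List.length_range]
        omega)) hF hF2 ha
      simp only [Denumerable.ofNat_encode] at h4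
      rw [hc', hM'] at h4
      exact h4) k F h1 h2 h3
  obtain ⟨hf1, hf2⟩ := hfin
  refine ⟨by simpa only [mul_sub] using hf1, ?_⟩
  refine ic_of_window ?_ ?_ ?_
  · simp
  · intro m hm
    have hne : ∀ i, w i ≠ [] := fun i => (hw2 i).1
    have hs : ∀ i, (w i).Pairwise fun x y => x.1 < y.1 := fun i => (hw2 i).2.1
    have hlt : ∀ l l', l ≤ k → l' ≤ k → l < l' → ∀ i ∈ F l, ∀ i' ∈ F l', i < i' := by
      intro l l' _ hl' hll
      induction l', hll using Nat.le_induction with
      | base => exact h3 l (by omega)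
      | succ l' hl ih =>
        intro i hi i' hi'
        obtain ⟨i₂, hi₂⟩ := h1 l' (by omega)
        exact (ih (by omega) i hi i₂ hi₂).trans (h3 l' (by omega) i₂ hi₂ i' hi')
    have e3 := gr_card (hφ j) hne hs hw3 a (I := (Finset.range (m + 1)).biUnion F)
      (J := F (m + 1)) (by
      obtain ⟨i, hi⟩ := h1 0 (Nat.zero_le _)
      exact ⟨i, Finset.mem_biUnion.2 ⟨0, Finset.mem_range.2 (by omega), hi⟩⟩) (by
      intro x hx y hy
      obtain ⟨i, hi, hx⟩ := Finset.mem_biUnion.1 hx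
      have := Finset.mem_range.1 hi
      exact hlt i (m + 1) (by omega) (by omega) (by omega) x hx y hy)
    have e4 : (Finset.range (m + 1)).biUnion F ∪ F (m + 1) =
        (Finset.range (m + 1 + 1)).biUnion F := by
      rw [Finset.range_add_one (n := m + 1), Finset.biUnion_insert, Finset.union_comm]
    rw [e4] at e3
    have e5 : (1 : ℤ) ≤ (F (m + 1)).card := by
      exact_mod_cast Finset.card_pos.2 (h1 (m + 1) (by omega))
    exact mul_lt_mul_of_pos_left (by linarith) hcpos
  · intro c' R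
    have := hf2 c' R
    simpa only [mul_sub] using this

end Pool.Agent.Run7.h965.MX
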