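import Pool.Agent.Run7.h965.MX.IdxA

/-!
Countably many increasing sequences: vectors of consecutive prime gaps with the index in every class.
-/

set_option autoImplicit false

namespace Pool.Agent.Run7.h965.MX

open Filter Pool.Agent.W68.Mil Pool.Agent.H752R3.MT Pool.Agent.W68.Her

/-- the last position of a word -/
def top (s : SW) : ℕ := s.foldr (fun x m => max x.1 m) 0

theorem le_top {s : SW} {x : ℕ × ℕ} (hx : x ∈ s) : x.1 ≤ top s := by
  induction s with
  | nil => simp at hx
  | cons y s ih =>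
    unfold top
    rw [List.foldr_cons]
    rcases List.mem_cons.1 hx with rfl | h
    · exact le_max_left _ _
    · exact (ih h).trans (le_max_right _ _)

theorem top_mem {s : SW} (hs : s ≠ []) : ∃ x ∈ s, x.1 = top s := by
  induction s with
  | nil => exact absurd rfl hs
  | cons y s ih =>
    by_cases h0 : s = []
    · subst h0
      exact ⟨y, List.mem_cons_self, by simp [top]⟩
    · obtain ⟨x, hx, hx2⟩ := ih h0
      have e : top (y :: s) = max y.1 (top s) := rfl
      rcases le_total y.1 (top s) with h | h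
      · exact ⟨x, List.mem_cons_of_mem _ hx, by rw [e, max_eq_right h, hx2]⟩
      · exact ⟨y, List.mem_cons_self, by rw [e, max_eq_left h]⟩

theorem top_gr {α : ℕ → ℤ} (hα : StrictMono α) : Gr fun s => α (top s) := by
  intro s t hs ht hi
  refine hα ?_
  obtain ⟨x, hx, hx2⟩ := top_mem hs
  obtain ⟨y, hy⟩ := List.exists_mem_of_ne_nil _ ht
  have h1 : x.1 < y.1 := (List.pairwise_append.1 hi).2.2 x hx y hy
  have h2 := le_top (s := s ++ t) (List.mem_append_right _ hy)
  omega

/-- the last position of a variable word -/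
def vtop (s : VW) : ℕ := top (sb 0 s)

theorem top_sb (a : ℕ) (s : VW) : top (sb a s) = vtop s := by
  unfold vtop
  induction s with
  | nil => rfl
  | cons y s ih =>
    have e : ∀ b, top (sb b (y :: s)) = max y.1 (top (sb b s)) := fun b => rfl
    rw [e, e, ih]

theorem top_wd {w : ℕ → VW} (hne : ∀ i, w i ≠ [])
    (hw : ∀ i, ∀ x ∈ w i, ∀ y ∈ w (i + 1), x.1 < y.1) (a : ℕ → ℕ) {I : Finset ℕ} {n : ℕ}
    (hn : n ∈ I) (hmax : ∀ i ∈ I, i ≤ n) : top (wd w a I) = vtop (w n) := by
  have hlt : ∀ i j, i < j → ∀ x ∈ w i, ∀ y ∈ w j, x.1 < y.1 := by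
    intro i j hij
    induction j, hij using Nat.le_induction with
    | base => exact hw i
    | succ j hj ih =>
      intro x hx y hy
      obtain ⟨z, hz⟩ := List.exists_mem_of_ne_nil _ (hne j)
      exact (ih x hx z hz).trans (hw j z hz y hy)
  have hmem : ∀ x : ℕ × ℕ, x ∈ wd w a I ↔ ∃ i ∈ I, x ∈ sb (a i) (w i) := by
    intro x
    unfold wd wrd
    rw [List.mem_flatMap]
    simp
  have hsb : ∀ i, ∀ x ∈ sb (a i) (w i), ∃ y ∈ w i, y.1 = x.1 := by
    intro i x hx
    unfold sb at hx
    obtain ⟨y, hy, rfl⟩ := List.mem_map.1 hx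
    exact ⟨y, hy, rfl⟩
  have hn0 : sb (a n) (w n) ≠ [] := by
    unfold sb
    rw [ne_eq, List.map_eq_nil_iff]
    exact hne n
  obtain ⟨z, hz, hz2⟩ := top_mem hn0
  rw [top_sb] at hz2
  apply le_antisymm
  · obtain ⟨x, hx, hx2⟩ := top_mem (wd_ne_nil hne (w := w) (a := a) ⟨n, hn⟩)
    rw [← hx2]
    obtain ⟨i, hi, hx3⟩ := (hmem x).1 hx
    rcases Nat.lt_or_eq_of_le (hmax i hi) with h | rfl
    · obtain ⟨x', hx', e1⟩ := hsb i x hx3
      obtain ⟨z', hz', e2⟩ := hsb n z hz
      have := hlt i n h x' hx' z' hz'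
      omega
    · have := le_top hx3
      rwa [top_sb] at this
  · rw [← hz2]
    exact le_top ((hmem z).2 ⟨n, hn, hz⟩)

/-- the bound for the multipliers and the moduli -/
def bnd (B : ℕ → ℕ) (L : List VW) : ℕ := L.length + tot B (lst L.flatten)

/-- countably many increasing sequences -/
theorem seqsI (α : ℕ → ℕ → ℤ) (hα : ∀ j, StrictMono (α j)) (q : ℕ → ℕ) (hq : ∀ j, 1 ≤ q j)
    (r : ℕ → ℤ) (hr : ∀ j, IsCoprime (r j) (q j : ℤ)) (B : ℕ → ℕ) :
    ∃ n : ℕ → ℕ, StrictMono n ∧
      ∀ (j k c M : ℕ) (i : ℕ → ℕ), j ≤ i 0 → 1 ≤ c → 1 ≤ M →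
        (c ≤ i 0 ∨ ∃ i' < i 0, c ≤ B (n i')) → (M ≤ i 0 ∨ ∃ i' < i 0, M ≤ B (n i')) →
        (∀ l < k, i l < i (l + 1)) →
        (∀ m ≤ k, (q j : ℤ) ∣ c * (α j (n (i m)) - α j (n (i 0)))) ∧
        IC (q j) (r j) M k fun m => c * (α j (n (i m)) - α j (n (i 0))) := by
  classical
  obtain ⟨w, hw1, hw2, hw3, hw4⟩ := gapsI_mult (fun j s => α j (top s))
    (fun j => top_gr (hα j)) q hq r hr (fun _ => 0) (bnd B) 0
  have hne : ∀ i, w i ≠ [] := fun i => (hw2 i).1
  have hmono : StrictMono fun i => vtop (w i) := by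
    refine strictMono_nat_of_lt_succ fun i => ?_
    have h0 : sb 0 (w i) ≠ [] := by
      unfold sb
      rw [ne_eq, List.map_eq_nil_iff]
      exact hne i
    have h1 : sb 0 (w (i + 1)) ≠ [] := by
      unfold sb
      rw [ne_eq, List.map_eq_nil_iff]
      exact hne (i + 1)
    obtain ⟨x, hx, hx2⟩ := top_mem h0
    obtain ⟨y, hy, hy2⟩ := top_mem h1
    unfold sb at hx hy
    obtain ⟨x', hx', rfl⟩ := List.mem_map.1 hx
    obtain ⟨y', hy', rfl⟩ := List.mem_map.1 hy
    have := hw3 i x' hx' y' hy'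
    unfold vtop
    rw [← hx2, ← hy2]
    exact this
  refine ⟨fun i => vtop (w i), hmono, fun j k c M i hj hc hM hcB hMB hi => ?_⟩
  have hbnd : ∀ x : ℕ, (x ≤ i 0 ∨ ∃ i' < i 0, x ≤ B (vtop (w i'))) →
      x ≤ bnd B ((List.range (i 0)).map w) := by
    intro x hx
    unfold bnd
    rw [List.length_map, List.length_range]
    rcases hx with h | ⟨i', hi', h⟩
    · omega
    · have h0 : sb 0 (w i') ≠ [] := by
        unfold sb
        rw [ne_eq, List.map_eq_nil_iff]
        exact hne i'
      obtain ⟨y, hy, hy2⟩ := top_mem h0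
      unfold sb at hy
      obtain ⟨y', hy', rfl⟩ := List.mem_map.1 hy
      have h5 : y'.1 ≤ lst ((List.range (i 0)).map w).flatten :=
        le_lst (List.mem_flatten.2 ⟨w i', List.mem_map.2 ⟨i', List.mem_range.2 hi', rfl⟩, hy'⟩)
      have h6 : vtop (w i') = y'.1 := hy2.symm
      rw [h6] at h
      have := le_tot B h5
      omega
  have hile : ∀ m ≤ k, ∀ l ≤ m, i l ≤ i m := by
    intro m
    induction m with
    | zero =>
      intro _ l hl
      have : l = 0 := by omega
      rw [this]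
    | succ m ih =>
      intro hm l hl
      rcases Nat.lt_or_ge l (m + 1) with h1 | h1
      · exact (ih (by omega) l (by omega)).trans (hi m (by omega)).le
      · have : l = m + 1 := by omega
        rw [this]
  obtain ⟨h1, h2⟩ := hw4 j k (i 0) c M (fun l => {i l}) (fun _ => 0) hj hc (Or.inr (hbnd c hcB)) hM
    (Or.inr (hbnd M hMB)) (fun l _ => Finset.singleton_nonempty _)
    (fun l hl x hx => by
      rw [Finset.mem_singleton] at hx
      rw [hx]
      exact hile l hl 0 (Nat.zero_le _))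
    (fun l hl x hx y hy => by
      rw [Finset.mem_singleton] at hx hy
      rw [hx, hy]
      exact hi l hl) (fun _ => Nat.zero_le _)
  have e0 : top (wd w (fun _ => 0) {i 0}) = vtop (w (i 0)) :=
    top_wd hne hw3 _ (Finset.mem_singleton_self _) (fun x hx => by
      rw [Finset.mem_singleton] at hx
      exact hx.le)
  have e1 : ∀ m ≤ k, top (wd w (fun _ => 0) ((Finset.range (m + 1)).biUnion fun l => {i l})) =
      vtop (w (i m)) := by
    intro m hm
    refine top_wd hne hw3 _ ?_ ?_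
    · exact Finset.mem_biUnion.2 ⟨m, Finset.mem_range.2 (by omega), Finset.mem_singleton_self _⟩
    · intro x hx
      obtain ⟨l, hl, hx⟩ := Finset.mem_biUnion.1 hx
      rw [Finset.mem_singleton] at hx
      have := Finset.mem_range.1 hl
      rw [hx]
      exact hile m hm l (by omega)
  refine ⟨fun m hm => ?_, h2.congr fun m hm => ?_⟩
  · have := h1 m hm
    rwa [e0, e1 m hm] at this
  · simp only
    rw [e0, e1 m hm]

end Pool.Agent.Run7.h965.MX
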