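import Pool.Agent.Run7.h965.MX.Idx
import Pool.Agent.Run7.h965.MX.FormsFin

/-!
Vectors of consecutive prime gaps along systems of located variable words, with the index of the
first prime in every residue class.
-/

set_option autoImplicit false

namespace Pool.Agent.Run7.h965.MX

open Filter Pool.Agent.W68.Mil Pool.Agent.H752R3.MT Pool.Agent.W68.Her

/-- exact patterns relative to the first word, the index of the first prime in every class -/
def RelI (φ : SW → ℤ) (q : ℕ) (r : ℤ) (M : ℕ) (t : ℕ → SW) : Prop :=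
  (∀ m, (q : ℤ) ∣ φ (cat t m) - φ (t 0)) ∧
    ∀ c R : ℕ, {n : ℕ | (n : ℤ) ≡ r [ZMOD q] ∧ (∀ y : ℤ, 0 ≤ y → y ≤ R →
      (Nat.Prime ((n : ℤ) + y).toNat ↔ ∃ m, y = φ (cat t m) - φ (t 0))) ∧
      Nat.primeCounting n ≡ c [MOD M]}.Infinite

theorem relI_closed {φ : SW → ℤ} (hφ : Gr φ) {q M : ℕ} {r : ℤ} {t : ℕ → SW} (ht : BW t)
    (hG : ¬ RelI φ q r M t) :
    ∃ m, ∀ t', BW t' → (∀ i < m, t' i = t i) → ¬ RelI φ q r M t' := by
  unfold RelI at hG
  rw [not_and_or] at hG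
  rcases hG with hG | hG
  · push Not at hG
    obtain ⟨m, hm⟩ := hG
    refine ⟨m + 1, fun t' ht' htt hG' => hm ?_⟩
    have := hG'.1 m
    rwa [cat_congr htt (Nat.lt_succ_self m), htt 0 (by omega)] at this
  · push Not at hG
    obtain ⟨c, R, hR⟩ := hG
    refine ⟨R + 1, fun t' ht' htt hG' => ?_⟩
    have h0 : t' 0 = t 0 := htt 0 (by omega)
    refine Set.Infinite.mono ?_ (hG'.2 c R) hR
    rintro n ⟨h1, h2, h3⟩
    refine ⟨h1, fun y hy1 hy2 => ?_, h3⟩
    rw [h2 y hy1 hy2]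
    have hb : ∀ s : ℕ → SW, BW s → ∀ m, y = φ (cat s m) - φ (s 0) → m < R + 1 := by
      intro s hs m hm
      have h2 := hφ.le_cat hs m
      have : (m : ℤ) ≤ R := by linarith
      have : m ≤ R := by exact_mod_cast this
      omega
    constructor
    · rintro ⟨m, hm⟩
      refine ⟨m, ?_⟩
      rw [hm, cat_congr htt (hb t' ht' m hm), h0]
    · rintro ⟨m, hm⟩
      refine ⟨m, ?_⟩
      rw [hm, cat_congr htt (hb t ht m hm), h0]

theorem relI_exists {φ : SW → ℤ} (hφ : Gr φ) {q : ℕ} (hq : 1 ≤ q) {r : ℤ}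
    (hr : IsCoprime r (q : ℤ)) {M : ℕ} (hM : 1 ≤ M) {x : ℕ → SW} (hx : BW x) :
    ∃ F, Blk F ∧ RelI φ q r M (fun l => un x (F l)) := by
  classical
  have hq0 : (1 : ℤ) ≤ q := by exact_mod_cast hq
  have : NeZero q := ⟨by omega⟩
  obtain ⟨c, hc⟩ := Finite.exists_infinite_fiber fun n => ((φ (cat x n) : ℤ) : ZMod q)
  rw [Set.infinite_coe_iff] at hc
  set Nc : Set ℕ := (fun n => ((φ (cat x n) : ℤ) : ZMod q)) ⁻¹' {c} with hNc
  obtain ⟨nc, hnc⟩ := hc.nonempty
  have hdvd : ∀ n ∈ Nc, ∀ n' ∈ Nc, (q : ℤ) ∣ φ (cat x n) - φ (cat x n') := by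
    intro n hn n' hn'
    rw [← ZMod.intCast_zmod_eq_zero_iff_dvd, Int.cast_sub]
    rw [hNc, Set.mem_preimage, Set.mem_singleton_iff] at hn hn'
    rw [hn, hn', sub_self]
  obtain ⟨Z, hZN, hZi, hZ⟩ := all_classes (hφ.mono_cat hx) hq (r - φ (cat x nc)) hM Nc hc (by
    intro a ha
    obtain ⟨t, ht⟩ := hdvd a ha nc hnc
    have e : r - φ (cat x nc) + φ (cat x a) = r + q * t := by linarith
    rw [e]
    exact (IsCoprime.add_mul_left_right_iff).2 hr.symm)
  obtain ⟨F, hF, hFc⟩ := group (x := x) Z hZi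
  set μ : ℕ → ℕ := Nat.nth (· ∈ Z) with hμ
  have hμM : ∀ m, μ m ∈ Z := fun m => Nat.nth_mem_of_infinite hZi m
  have hinf : sInf Z = μ 0 := by
    rw [hμ, Nat.nth_zero]
    rfl
  have h00 : un x (F 0) = cat x (μ 0) := by
    rw [← hFc 0, cat_zero]
  refine ⟨F, hF, fun m => ?_, fun c R => ?_⟩
  · simp only
    rw [hFc, h00]
    exact hdvd _ (hZN (hμM m)) _ (hZN (hμM 0))
  · have h1 := hZ Z subset_rfl hZi c R
    have hR0 : (0 : ℤ) ≤ R := Int.natCast_nonneg _
    have hpos : ∀ n ∈ Cs (fun n => φ (cat x n)) q (r - φ (cat x nc)) M Z c R,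
        Nat.Prime ((q : ℤ) * n + (r - φ (cat x nc) + φ (cat x (μ 0)))).toNat ∧
        0 < (q : ℤ) * n + (r - φ (cat x nc) + φ (cat x (μ 0))) := by
      rintro n ⟨h2, -⟩
      have h3 := (h2 (φ (cat x (sInf Z))) le_rfl (by linarith)).2 ⟨sInf Z, Nat.sInf_mem hZi.nonempty, rfl⟩
      rw [hinf] at h3
      refine ⟨h3, ?_⟩
      by_contra hcc
      push Not at hcc
      rw [Int.toNat_of_nonpos hcc] at h3
      exact Nat.not_prime_zero h3
    have hinj : Set.InjOn (fun n : ℕ => ((q : ℤ) * n + (r - φ (cat x nc) + φ (cat x (μ 0)))).toNat)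
        (Cs (fun n => φ (cat x n)) q (r - φ (cat x nc)) M Z c R) := by
      intro n hn n' hn' h
      have e1 := (hpos n hn).2
      have e2 := (hpos n' hn').2
      simp only at h
      have e3 : (q : ℤ) * n = q * n' := by omega
      have e4 := mul_left_cancel₀ (by omega : (q : ℤ) ≠ 0) e3
      exact_mod_cast e4
    refine (h1.image hinj).mono ?_
    rintro _ ⟨n, hn, rfl⟩
    obtain ⟨-, e1⟩ := hpos n hn
    obtain ⟨h2, h3⟩ := hn
    have e2 : (((((q : ℤ) * n + (r - φ (cat x nc) + φ (cat x (μ 0)))).toNat : ℕ)) : ℤ) =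
        (q : ℤ) * n + (r - φ (cat x nc) + φ (cat x (μ 0))) := Int.toNat_of_nonneg e1.le
    refine ⟨?_, fun y hy1 hy2 => ?_, ?_⟩
    · rw [e2]
      obtain ⟨t, ht⟩ := hdvd _ (hZN (hμM 0)) nc hnc
      have e : (q : ℤ) * n + (r - φ (cat x nc) + φ (cat x (μ 0))) = r + q * (n + t) := by
        rw [mul_add, ← ht]
        ring
      rw [e]
      exact (Int.modEq_iff_dvd.2 ⟨-(n + t), by ring⟩)
    · rw [e2]
      have h4 := h2 (φ (cat x (sInf Z)) + y) (by linarith) (by linarith)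
      rw [hinf] at h4
      have e : (q : ℤ) * n + (r - φ (cat x nc) + (φ (cat x (μ 0)) + y)) =
          (q : ℤ) * n + (r - φ (cat x nc) + φ (cat x (μ 0))) + y := by ring
      rw [e] at h4
      rw [h4]
      constructor
      · rintro ⟨a, ha, h5⟩
        obtain ⟨m, rfl⟩ : ∃ m, μ m = a := by
          have h : Set.range (Nat.nth (· ∈ Z)) = {n | n ∈ Z} := Nat.range_nth_of_infinite hZi
          have h' : a ∈ Set.range (Nat.nth (· ∈ Z)) := by
            rw [h]; exact ha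
          exact h'
        refine ⟨m, ?_⟩
        simp only at h5 ⊢
        rw [hFc, h00]
        linarith
      · rintro ⟨m, h5⟩
        refine ⟨μ m, hμM m, ?_⟩
        simp only at h5
        rw [hFc, h00] at h5
        rw [h5]
        ring
    · rw [hinf] at h3
      exact h3

/-- consecutive prime gaps along systems of words, infinite patterns, all classes of the index -/
theorem gapsI_inf (φ : ℕ → ℕ → SW → ℤ) (hφ : ∀ j u, Gr (φ j u)) (q : ℕ → ℕ) (hq : ∀ j, 1 ≤ q j)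
    (r : ℕ → ℤ) (hr : ∀ j, IsCoprime (r j) (q j : ℤ)) (M : ℕ → ℕ) (hM : ∀ u, 1 ≤ M u)
    (H C : List VW → ℕ) (N : ℕ) :
    ∃ w : ℕ → VW, (∀ i, Var (w i)) ∧ (∀ i, Bey N (w i)) ∧
      (∀ i, ∀ x ∈ w i, ∀ y ∈ w (i + 1), x.1 < y.1) ∧
      ∀ (j u i₀ : ℕ) (F : ℕ → Finset ℕ) (a : ℕ → ℕ), j ≤ i₀ →
        u ≤ C ((List.range i₀).map w) → Blk F → (∀ l, ∀ i ∈ F l, i₀ ≤ i) →
        (∀ i, a i ≤ H ((List.range i).map w)) →
        RelI (φ j u) (q j) (r j) (M u) (fun l => wd w a (F l)) :=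
  param_words (fun j u t => RelI (φ j u) (q j) (r j) (M u) t)
    (fun j u _ ht hG => relI_closed (hφ j u) ht hG)
    (fun j u _ hx => relI_exists (hφ j u) (hq j) (hr j) (hM u) hx) H C N

/-- the finite patterns -/
theorem gapsI_fin {φ : SW → ℤ} (hφ : Gr φ) {q : ℕ} {r : ℤ} {M : ℕ} {w : ℕ → VW} {N : ℕ}
    (hw2 : ∀ i, Bey N (w i)) (hw3 : ∀ i, ∀ x ∈ w i, ∀ y ∈ w (i + 1), x.1 < y.1) {j : ℕ}
    {a : ℕ → ℕ} (hR : ∀ F : ℕ → Finset ℕ, Blk F → (∀ l, ∀ i ∈ F l, j ≤ i) →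
      RelI φ q r M (fun l => wd w a (F l))) (k : ℕ) (F : ℕ → Finset ℕ)
    (h1 : ∀ l ≤ k, (F l).Nonempty) (h2 : ∀ l ≤ k, ∀ i ∈ F l, j ≤ i)
    (h3 : ∀ l < k, ∀ i ∈ F l, ∀ i' ∈ F (l + 1), i < i') :
    (∀ m ≤ k, (q : ℤ) ∣ φ (wd w a ((Finset.range (m + 1)).biUnion F)) - φ (wd w a (F 0))) ∧
      ∀ c R : ℕ, {n : ℕ | (n : ℤ) ≡ r [ZMOD q] ∧ (∀ y : ℤ, 0 ≤ y → y ≤ R →
        (Nat.Prime ((n : ℤ) + y).toNat ↔ ∃ m ≤ k,
          y = φ (wd w a ((Finset.range (m + 1)).biUnion F)) - φ (wd w a (F 0)))) ∧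
        Nat.primeCounting n ≡ c [MOD M]}.Infinite := by
  classical
  have hne : ∀ i, w i ≠ [] := fun i => (hw2 i).1
  have hs : ∀ i, (w i).Pairwise fun x y => x.1 < y.1 := fun i => (hw2 i).2.1
  have hext := fun R => Pool.Agent.W68.Gap.extend j (k + 1) F (fun l hl => h1 l (by omega))
    (fun l hl => h2 l (by omega)) (fun l hl => h3 l (by omega)) R
  have hcong : ∀ G : ℕ → Finset ℕ, (∀ l < k + 1, G l = F l) → ∀ m ≤ k,
      (Finset.range (m + 1)).biUnion G = (Finset.range (m + 1)).biUnion F := by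
    intro G hG m hm
    refine Finset.biUnion_congr rfl fun l hl => hG l ?_
    have := Finset.mem_range.1 hl
    omega
  constructor
  · intro m hm
    obtain ⟨G, hG1, hG2, hG3, -⟩ := hext 0
    have h4 := (hR G hG1 hG3).1 m
    rw [cat_wd hG1] at h4
    simp only at h4
    rwa [hcong G hG2 m hm, hG2 0 (by omega)] at h4
  · intro c R
    obtain ⟨G, hG1, hG2, hG3, hG4⟩ := hext R
    have hwin := (hR G hG1 hG3).2 c R
    have hbw : BW (fun l => wd w a (G l)) := bw_wd hne hs hw3 hG1 a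
    have hbig : ∀ m, k < m → (R : ℤ) < φ (cat (fun l => wd w a (G l)) m) - φ (wd w a (G 0)) := by
      intro m hm
      have e1 : φ (cat (fun l => wd w a (G l)) (k + 1)) ≤ φ (cat (fun l => wd w a (G l)) m) :=
        (hφ.mono_cat hbw).monotone hm
      have e2 : φ (wd w a (G 0)) ≤ φ (cat (fun l => wd w a (G l)) k) := by
        have := (hφ.mono_cat hbw).monotone (Nat.zero_le k)
        simp only [cat_zero] at this
        exact this
      have e3 := gr_card hφ hne hs hw3 a (I := (Finset.range (k + 1)).biUnion G) (J := G (k + 1)) (by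
        obtain ⟨i, hi⟩ := hG1.1 0
        exact ⟨i, Finset.mem_biUnion.2 ⟨0, Finset.mem_range.2 (by omega), hi⟩⟩) (by
        intro x hx y hy
        obtain ⟨i, hi, hx⟩ := Finset.mem_biUnion.1 hx
        have := Finset.mem_range.1 hi
        exact hG1.lt (by omega : i < k + 1) x hx y hy)
      have e4 : (Finset.range (k + 1)).biUnion G ∪ G (k + 1) =
          (Finset.range (k + 1 + 1)).biUnion G := by
        rw [Finset.range_add_one (n := k + 1), Finset.biUnion_insert, Finset.union_comm]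
      rw [e4, ← cat_wd hG1, ← cat_wd hG1] at e3
      have e5 : (R : ℤ) < (G (k + 1)).card := by exact_mod_cast hG4
      linarith
    refine hwin.mono ?_
    rintro n ⟨hn1, hn2, hn3⟩
    refine ⟨hn1, fun y hy1 hy2 => ?_, hn3⟩
    rw [hn2 y hy1 hy2]
    constructor
    · rintro ⟨m, hm0⟩
      by_cases hm : m ≤ k
      · refine ⟨m, hm, ?_⟩
        simp only at hm0
        rw [hm0, cat_wd hG1, hcong G hG2 m hm, hG2 0 (by omega)]
      · exfalso
        have h5 := hbig m (by omega)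
        simp only at hm0
        linarith
    · rintro ⟨m, hm, h2⟩
      refine ⟨m, ?_⟩
      simp only
      rw [cat_wd hG1, hcong G hG2 m hm, hG2 0 (by omega)]
      exact h2

end Pool.Agent.Run7.h965.MX
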