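import Pool.Agent.Run7.h965.MX.FormsFin

/-!
The forms `q r + e` with `r` given by functions of words.
-/

set_option autoImplicit false

namespace Pool.Agent.Run7.h965.MX

open Filter Pool.Agent.W68.Mil Pool.Agent.H752R3.MT Pool.Agent.W68.Her

/-- the product of an array over a word -/
def mar (d : ℕ → ℕ → ℕ) (s : SW) : ℕ := (s.map fun x => d x.1 x.2).prod

theorem mar_append (d : ℕ → ℕ → ℕ) (s t : SW) : mar d (s ++ t) = mar d s * mar d t := by
  unfold mar
  rw [List.map_append, List.prod_append]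

theorem mar_two {d : ℕ → ℕ → ℕ} (hd : ∀ p a, 2 ≤ d p a) {s : SW} (hs : s ≠ []) : 2 ≤ mar d s := by
  induction s with
  | nil => exact absurd rfl hs
  | cons x s ih =>
    have h0 := hd x.1 x.2
    have h1 : mar d (x :: s) = d x.1 x.2 * mar d s := by
      unfold mar
      rw [List.map_cons, List.prod_cons]
    rw [h1]
    by_cases h2 : s = []
    · rw [h2]
      unfold mar
      simpa using h0
    · have := ih h2
      nlinarith

theorem mar_wd (d : ℕ → ℕ → ℕ) (w : ℕ → VW) (a : ℕ → ℕ) (I : Finset ℕ) :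
    mar d (wd w a I) = ∏ i ∈ I, mar d (sb (a i) (w i)) := by
  classical
  have h1 : ∀ L : List ℕ, mar d (wrd w a L) = (L.map fun i => mar d (sb (a i) (w i))).prod := by
    intro L
    induction L with
    | nil => rfl
    | cons i L ih =>
      rw [List.map_cons, List.prod_cons, ← ih, ← mar_append]
      rfl
  unfold wd
  rw [h1]
  conv_rhs => rw [← Finset.sort_toFinset I (· ≤ ·)]
  rw [List.prod_toFinset _ (Finset.sort_nodup _ _)]

theorem mar_sb {w : ℕ → VW} (hne : ∀ i, w i ≠ [])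
    (hs : ∀ i, (w i).Pairwise fun x y => x.1 < y.1)
    (hw : ∀ i, ∀ x ∈ w i, ∀ y ∈ w (i + 1), x.1 < y.1) (d : ℕ → ℕ → ℕ) (i c : ℕ) :
    mar d (sb c (w i)) = (∏ p ∈ lp (w i), d p (let' w p)) * ∏ p ∈ vp (w i), d p c := by
  classical
  have hnd : (w i).Nodup := (hs i).imp fun h h' => by rw [h'] at h; omega
  have h1 : mar d (sb c (w i)) = ∏ x ∈ (w i).toFinset, d x.1 (x.2.getD c) := by
    unfold mar sb
    rw [List.map_map, List.prod_toFinset _ hnd]
    rfl
  have hinj : Set.InjOn Prod.fst (((w i).toFinset : Finset (ℕ × Option ℕ)) : Set (ℕ × Option ℕ)) := by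
    intro x hx y hy hxy
    rw [Finset.mem_coe, List.mem_toFinset] at hx hy
    exact pos_unique hne hs hw hx hy hxy
  rw [h1, ← Finset.prod_filter_mul_prod_filter_not _ (fun x => x.2 = none), mul_comm]
  unfold lp vp
  congr 1
  · rw [Finset.prod_image (fun x hx y hy h => hinj (Finset.filter_subset _ _ hx)
      (Finset.filter_subset _ _ hy) h)]
    refine Finset.prod_congr rfl fun x hx => ?_
    rw [Finset.mem_filter, List.mem_toFinset] at hx
    obtain ⟨b, hb⟩ := Option.ne_none_iff_exists'.1 hx.2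
    have h2 : (x.1, some b) ∈ w i := by rw [← hb]; exact hx.1
    rw [let_eq hne hs hw h2, hb]
    rfl
  · rw [Finset.prod_image (fun x hx y hy h => hinj (Finset.filter_subset _ _ hx)
      (Finset.filter_subset _ _ hy) h)]
    refine Finset.prod_congr rfl fun x hx => ?_
    rw [Finset.mem_filter] at hx
    rw [hx.2]
    rfl

/-- the sum of an array over a word, as a natural number -/
def nar (d : ℕ → ℕ → ℕ) (s : SW) : ℕ := (s.map fun x => d x.1 x.2).sum

theorem nar_cast (d : ℕ → ℕ → ℕ) (s : SW) : ((nar d s : ℕ) : ℤ) = arr d s := by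
  unfold nar arr
  induction s with
  | nil => rfl
  | cons x s ih => rw [List.map_cons, List.map_cons, List.sum_cons, List.sum_cons, ← ih]; push_cast; rfl

/-- exactly the numbers `q r m + e` are prime -/
def EM (e : ℤ) (k : ℕ) (r : ℕ → ℕ) : Prop :=
  ∀ R : ℕ, {q : ℕ | ∀ s b : ℤ, 1 ≤ s → s ≤ R → |b| ≤ R →
    (Nat.Prime ((q : ℤ) * s + b).toNat ↔ b = e ∧ ∃ m ≤ k, s = r m)}.Infinite

theorem em_of_exF {e : ℤ} {k : ℕ} {r : ℕ → ℕ}
    (h : ExF {f | ∃ m ≤ k, f = (((r m : ℕ) : ℤ), e)}) : EM e k r := by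
  classical
  intro R
  set T : Finset (ℤ × ℤ) := Finset.Icc (1 : ℤ) R ×ˢ Finset.Icc (-(R : ℤ)) R with hT
  have h1 := h T (by
    intro f hf
    rw [hT, Finset.mem_product, Finset.mem_Icc] at hf
    exact hf.1.1)
  refine h1.mono fun q hq s b hs1 hs2 hb => ?_
  have h2 := hq (s, b) (by
    rw [hT, Finset.mem_product, Finset.mem_Icc, Finset.mem_Icc]
    exact ⟨⟨hs1, hs2⟩, abs_le.1 hb⟩)
  rw [show ((q : ℤ) * s + b) = (s, b).1 * q + (s, b).2 by simp only; ring, h2]
  simp only [Set.mem_ofPred_eq, Prod.mk.injEq]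
  constructor
  · rintro ⟨m, hm, h3, h4⟩
    exact ⟨h4, m, hm, h3⟩
  · rintro ⟨h4, m, hm, h3⟩
    exact ⟨m, hm, h3, h4⟩

open Classical in
/-- the multiplier with the code `c` -/
noncomputable def mlt (e : ℤ) (c : ℕ) : ℕ := if 1 ≤ c ∧ IsCoprime (c : ℤ) e then c else 1

theorem mlt_pos (e : ℤ) (c : ℕ) : 1 ≤ mlt e c := by
  unfold mlt
  split_ifs with h
  · exact h.1
  · exact le_rfl

theorem mlt_cop (e : ℤ) (c : ℕ) : IsCoprime (mlt e c : ℤ) e := by
  unfold mlt
  split_ifs with h
  · exact h.2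
  · simp [isCoprime_one_left]

theorem mult_main (φ : ℕ → SW → ℕ) (e : ℕ → ℤ)
    (hφ : ∀ j s t, s ≠ [] → t ≠ [] → Inc (s ++ t) → φ j s < φ j (s ++ t))
    (hpos : ∀ j s, s ≠ [] → Inc s → 1 ≤ φ j s)
    (hcop : ∀ j s, s ≠ [] → Inc s → IsCoprime (φ j s : ℤ) (e j)) (H C : List VW → ℕ) (N : ℕ) :
    ∃ w : ℕ → VW, (∀ i, Var (w i)) ∧ (∀ i, Bey N (w i)) ∧
      (∀ i, ∀ x ∈ w i, ∀ y ∈ w (i + 1), x.1 < y.1) ∧
      ∀ (j k c i₀ : ℕ) (F : ℕ → Finset ℕ) (a : ℕ → ℕ), j ≤ i₀ → 1 ≤ c → IsCoprime (c : ℤ) (e j) →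
        (c = 1 ∨ c ≤ C ((List.range i₀).map w)) →
        (∀ l ≤ k, (F l).Nonempty) → (∀ l ≤ k, ∀ i ∈ F l, i₀ ≤ i) →
        (∀ l < k, ∀ i ∈ F l, ∀ i' ∈ F (l + 1), i < i') →
        (∀ i, a i ≤ H ((List.range i).map w)) →
        EM (e j) k (fun m => c * φ j (wd w a ((Finset.range (m + 1)).biUnion F))) := by
  classical
  have hlt : ∀ j c, Gr (fun s => (mlt (e j) c : ℤ) * φ j s) := by
    intro j c s t hs ht hi
    have h1 : (φ j s : ℤ) < φ j (s ++ t) := by exact_mod_cast hφ j s t hs ht hi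
    have h2 : (0 : ℤ) < mlt (e j) c := by exact_mod_cast mlt_pos (e j) c
    exact mul_lt_mul_of_pos_left h1 h2
  obtain ⟨w, h1, h2, h3, h4⟩ := forms_param
    (fun j c s => ((mlt (e j) c : ℤ) * φ j s, e j)) (fun j c s => (mlt (e j) c : ℤ) * φ j s)
    hlt (fun j c s => by
      have h1 := le_abs_self ((mlt (e j) c : ℤ) * φ j s)
      have h2 := abs_nonneg (e j)
      simp only
      linarith)
    (fun j c s hs hi => by
      have h1 : (1 : ℤ) ≤ φ j s := by exact_mod_cast hpos j s hs hi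
      have h2 : (1 : ℤ) ≤ mlt (e j) c := by exact_mod_cast mlt_pos (e j) c
      refine ⟨by nlinarith, ?_⟩
      exact (mlt_cop (e j) c).mul_left (hcop j s hs hi))
    (fun j c t ht n n' hnn => by
      have h1 := (Prod.ext_iff.1 hnn).1
      exact ((hlt j c).mono_cat ht).injective h1)
    H (fun L => C L + 1) N
  refine ⟨w, h1, h2, h3, fun j k c i₀ F a hj hc1 hcc hc hF1 hF2 hF3 ha => ?_⟩
  have h5 := h4 j k c i₀ F a hj (by omega) hF1 hF2 hF3 ha
  have e1 : mlt (e j) c = c := by
    unfold mlt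
    rw [if_pos ⟨hc1, hcc⟩]
  rw [e1] at h5
  refine em_of_exF ?_
  have e2 : {f : ℤ × ℤ | ∃ m ≤ k, f = (((c * φ j (wd w a ((Finset.range (m + 1)).biUnion F)) : ℕ) : ℤ),
      e j)} = {f | ∃ m ≤ k, f = ((c : ℤ) * φ j (wd w a ((Finset.range (m + 1)).biUnion F)), e j)} := by
    ext f
    simp only [Set.mem_ofPred_eq, Nat.cast_mul]
  rw [e2]
  exact h5

/-- sums and products of arrays -/
theorem mult_arrays (d : ℕ → ℕ → ℕ → ℕ) (hd : ∀ j p a, 2 ≤ d j p a) (h : ℕ → ℕ) :
    ∃ (V W : ℕ → Finset ℕ) (b : ℕ → ℕ), (∀ i, (W i).Nonempty) ∧ (∀ i, Disjoint (V i) (W i)) ∧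
      (∀ i, ∀ x ∈ V i ∪ W i, ∀ y ∈ V (i + 1) ∪ W (i + 1), x < y) ∧
      ∀ (j k : ℕ) (F : ℕ → Finset ℕ) (a : ℕ → ℕ), (∀ l ≤ k, (F l).Nonempty) →
        (∀ l ≤ k, ∀ i ∈ F l, j ≤ i) → (∀ l < k, ∀ i ∈ F l, ∀ i' ∈ F (l + 1), i < i') →
        (∀ i, a i ≤ i ∨ ∃ i' < i, ∃ p ∈ V i' ∪ W i', a i ≤ h p) →
        EM 1 k (fun m => ∑ i ∈ (Finset.range (m + 1)).biUnion F,
          (∑ p ∈ V i, d j p (b p) + ∑ p ∈ W i, d j p (a i))) ∧
        EM 1 k (fun m => ∏ i ∈ (Finset.range (m + 1)).biUnion F,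
          ((∏ p ∈ V i, d j p (b p)) * ∏ p ∈ W i, d j p (a i))) := by
  classical
  obtain ⟨w, hw1, hw2, hw3, hw4⟩ := mult_main
    (fun t => if t % 2 = 0 then nar (d (t / 2)) else mar (d (t / 2))) (fun _ => 1)
    (fun t s u hs hu _ => by
      by_cases ht : t % 2 = 0
      · simp only [if_pos ht]
        have h1 : nar (d (t / 2)) (s ++ u) = nar (d (t / 2)) s + nar (d (t / 2)) u := by
          unfold nar
          rw [List.map_append, List.sum_append]
        have h2 : 0 < nar (d (t / 2)) u := by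
          have := arr_pos (d := d (t / 2)) (fun p a => by have := hd (t / 2) p a; omega) hu
          rw [← nar_cast] at this
          exact_mod_cast this
        omega
      · simp only [if_neg ht]
        rw [mar_append]
        have h1 := mar_two (hd (t / 2)) hs
        have h2 := mar_two (hd (t / 2)) hu
        nlinarith)
    (fun t s hs _ => by
      by_cases ht : t % 2 = 0
      · simp only [if_pos ht]
        have := arr_pos (d := d (t / 2)) (fun p a => by have := hd (t / 2) p a; omega) hs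
        rw [← nar_cast] at this
        exact_mod_cast this
      · simp only [if_neg ht]
        have := mar_two (hd (t / 2)) hs
        omega)
    (fun _ _ _ _ => isCoprime_one_right)
    (fun L => L.length + tot h (lst L.flatten)) (fun _ => 1) 0
  have hne : ∀ i, w i ≠ [] := fun i => (hw2 i).1
  have hs : ∀ i, (w i).Pairwise fun x y => x.1 < y.1 := fun i => (hw2 i).2.1
  -- all indices are doubled
  have hlt : ∀ i j, i < j → ∀ x ∈ w i, ∀ y ∈ w j, x.1 < y.1 := by
    intro i j hij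
    induction j, hij using Nat.le_induction with
    | base => exact hw3 i
    | succ j hj ih =>
      intro x hx y hy
      obtain ⟨z, hz⟩ := List.exists_mem_of_ne_nil _ (hne j)
      exact (ih x hx z hz).trans (hw3 j z hz y hy)
  refine ⟨fun i => lp (w (2 * i + 1)), fun i => vp (w (2 * i + 1)), let' w, fun i => ?_, fun i => ?_,
    fun i x hx y hy => ?_, ?_⟩
  · obtain ⟨x, hx, hx2⟩ := hw1 (2 * i + 1)
    exact ⟨x.1, Finset.mem_image.2 ⟨x, Finset.mem_filter.2 ⟨List.mem_toFinset.2 hx, hx2⟩, rfl⟩⟩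
  · rw [Finset.disjoint_left]
    intro p hp hp'
    unfold lp at hp
    unfold vp at hp'
    obtain ⟨x, hx, rfl⟩ := Finset.mem_image.1 hp
    obtain ⟨y, hy, hxy⟩ := Finset.mem_image.1 hp'
    rw [Finset.mem_filter, List.mem_toFinset] at hx hy
    have := pos_unique hne hs hw3 hy.1 hx.1 hxy
    rw [this] at hy
    exact hx.2 hy.2
  · obtain ⟨x', hx', rfl⟩ := mem_vl hx
    obtain ⟨y', hy', rfl⟩ := mem_vl hy
    exact hlt (2 * i + 1) (2 * (i + 1) + 1) (by omega) x' hx' y' hy'
  · intro j k F a h1 h2 h3 ha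
    set a' : ℕ → ℕ := fun i => if i % 2 = 0 then 0 else a (i / 2) with ha'
    have ha's : ∀ i, a' (2 * i + 1) = a i := by
      intro i
      simp only [ha']
      rw [if_neg (by omega)]
      congr 1
      omega
    have haH : ∀ i, a' i ≤ ((List.range i).map w).length +
        tot h (lst ((List.range i).map w).flatten) := by
      intro i
      by_cases h4 : i % 2 = 0
      · simp only [ha']
        rw [if_pos h4]
        exact Nat.zero_le _
      · simp only [ha']
        rw [if_neg h4, List.length_map, List.length_range]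
        rcases ha (i / 2) with h4 | ⟨i', hi', p, hp, h4⟩
        · omega
        · obtain ⟨x, hx, rfl⟩ := mem_vl hp
          have h5 : x.1 ≤ lst ((List.range i).map w).flatten :=
            le_lst (List.mem_flatten.2 ⟨w (2 * i' + 1), List.mem_map.2 ⟨2 * i' + 1,
              List.mem_range.2 (by omega), rfl⟩, hx⟩)
          have h6 := le_tot h h5
          omega
    set F' : ℕ → Finset ℕ := fun l => (F l).image (fun i => 2 * i + 1) with hF'
    have hkey := fun t (ht : t ≤ 2 * j + 1) => hw4 t k 1 (2 * j + 1) F' a' ht le_rfl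
      isCoprime_one_right (Or.inl rfl) (fun l hl => (h1 l hl).image _)
      (fun l hl i hi => by
        obtain ⟨i', hi', rfl⟩ := Finset.mem_image.1 hi
        have := h2 l hl i' hi'
        omega)
      (fun l hl i hi i' hi' => by
        obtain ⟨i₂, hi₂, rfl⟩ := Finset.mem_image.1 hi
        obtain ⟨i₃, hi₃, rfl⟩ := Finset.mem_image.1 hi'
        have := h3 l hl i₂ hi₂ i₃ hi₃
        omega) haH
    have hU : ∀ m, (Finset.range (m + 1)).biUnion F' =
        ((Finset.range (m + 1)).biUnion F).image (fun i => 2 * i + 1) := by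
      intro m
      rw [Finset.biUnion_image]
    constructor
    · have h4 := hkey (2 * j) (by omega)
      have e : (fun m => 1 * (if 2 * j % 2 = 0 then nar (d (2 * j / 2)) else mar (d (2 * j / 2)))
          (wd w a' ((Finset.range (m + 1)).biUnion F'))) =
          fun m => ∑ i ∈ (Finset.range (m + 1)).biUnion F,
            (∑ p ∈ lp (w (2 * i + 1)), d j p (let' w p) + ∑ p ∈ vp (w (2 * i + 1)), d j p (a i)) := by
        funext m
        rw [if_pos (by omega), show 2 * j / 2 = j by omega, one_mul]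
        have h5 : ((nar (d j) (wd w a' ((Finset.range (m + 1)).biUnion F')) : ℕ) : ℤ) =
            ((∑ i ∈ (Finset.range (m + 1)).biUnion F, (∑ p ∈ lp (w (2 * i + 1)), d j p (let' w p) +
              ∑ p ∈ vp (w (2 * i + 1)), d j p (a i)) : ℕ) : ℤ) := by
          rw [nar_cast, arr_wd, hU, Finset.sum_image (by intro x _ y _ h; simpa using h)]
          push_cast
          refine Finset.sum_congr rfl fun i _ => ?_
          rw [ha's, arr_sb hne hs hw3]
        exact_mod_cast h5
      rw [e] at h4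
      exact h4
    · have h4 := hkey (2 * j + 1) (by omega)
      have e : (fun m => 1 * (if (2 * j + 1) % 2 = 0 then nar (d ((2 * j + 1) / 2)) else
          mar (d ((2 * j + 1) / 2))) (wd w a' ((Finset.range (m + 1)).biUnion F'))) =
          fun m => ∏ i ∈ (Finset.range (m + 1)).biUnion F,
            ((∏ p ∈ lp (w (2 * i + 1)), d j p (let' w p)) * ∏ p ∈ vp (w (2 * i + 1)), d j p (a i)) := by
        funext m
        rw [if_neg (by omega), show (2 * j + 1) / 2 = j by omega, one_mul, mar_wd, hU,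
          Finset.prod_image (by intro x _ y _ h; simpa using h)]
        refine Finset.prod_congr rfl fun i _ => ?_
        rw [ha's, mar_sb hne hs hw3]
      rw [e] at h4
      exact h4

end Pool.Agent.Run7.h965.MX
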