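import Pool.Agent.Run7.h965.MX.FormsFin
import Pool.Agent.Run7.h965.Aff

/-!
Exact chains of primes along words in affine maps, and exact times of primes in orbits.
-/

set_option autoImplicit false

namespace Pool.Agent.Run7.h965.MX

open Filter Pool.Agent.W68.Mil Pool.Agent.H752R3.MT Pool.Agent.W68.Her

/-- the composition of the maps `x ↦ A x + B` of the letters of a word (first letter first), as a pair -/
def cmp (A B : ℕ → ℕ → ℤ) (s : SW) : ℤ × ℤ :=
  s.foldl (fun f x => (A x.1 x.2 * f.1, A x.1 x.2 * f.2 + B x.1 x.2)) (1, 0)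

theorem foldl_cmp (A B : ℕ → ℕ → ℤ) (s : SW) (f : ℤ × ℤ) :
    s.foldl (fun f x => (A x.1 x.2 * f.1, A x.1 x.2 * f.2 + B x.1 x.2)) f =
      ((cmp A B s).1 * f.1, (cmp A B s).1 * f.2 + (cmp A B s).2) := by
  unfold cmp
  induction s generalizing f with
  | nil => simp
  | cons x s ih =>
    rw [List.foldl_cons, List.foldl_cons, ih, ih (A x.1 x.2 * ((1 : ℤ), (0 : ℤ)).1, _)]
    ext
    · simp only
      ring
    · simp only
      ring

theorem cmp_append (A B : ℕ → ℕ → ℤ) (s t : SW) :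
    cmp A B (s ++ t) = ((cmp A B t).1 * (cmp A B s).1,
      (cmp A B t).2 + (cmp A B t).1 * (cmp A B s).2) := by
  have h : cmp A B (s ++ t) = t.foldl (fun f x => (A x.1 x.2 * f.1, A x.1 x.2 * f.2 + B x.1 x.2))
      (cmp A B s) := by
    unfold cmp
    rw [List.foldl_append]
  rw [h, foldl_cmp]
  ext
  · rfl
  · simp only
    ring

theorem cmp_two {A B : ℕ → ℕ → ℤ} (hA : ∀ p a, 2 ≤ A p a) {s : SW} (hs : s ≠ []) :
    2 ≤ (cmp A B s).1 := by
  induction s using List.reverseRecOn with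
  | nil => exact absurd rfl hs
  | append_singleton s x ih =>
    rw [cmp_append]
    have h1 : (cmp A B [x]).1 = A x.1 x.2 := by simp [cmp]
    have h2 := hA x.1 x.2
    simp only
    rw [h1]
    by_cases h3 : s = []
    · rw [h3]
      simp [cmp]
      exact h2
    · have := ih h3
      nlinarith

/-- exact prime patterns in orbits, for forms -/
def EO (E : Set (ℤ × ℤ)) : Prop :=
  ∀ R : ℕ, {p : ℕ | p.Prime ∧ ∀ α β : ℤ, 1 ≤ α → α ≤ R → |β| ≤ R →
    (Nat.Prime (α * p + β).toNat ↔ (α, β) ∈ E)}.Infinite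

theorem eo_of_exF {E : Set (ℤ × ℤ)} (h : ExF E) (h1 : ((1 : ℤ), (0 : ℤ)) ∈ E) : EO E := by
  classical
  intro R
  set T : Finset (ℤ × ℤ) := Finset.Icc (1 : ℤ) (R + 1) ×ˢ Finset.Icc (-(R : ℤ)) R with hT
  have h2 := h T (by
    intro f hf
    rw [hT, Finset.mem_product, Finset.mem_Icc] at hf
    exact hf.1.1)
  refine h2.mono fun p hp => ⟨?_, fun α β hα1 hα2 hβ => ?_⟩
  · have h3 := hp (1, 0) (by
      rw [hT, Finset.mem_product, Finset.mem_Icc, Finset.mem_Icc]
      simp)
    simpa using h3.2 h1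
  · exact hp (α, β) (by
      rw [hT, Finset.mem_product, Finset.mem_Icc, Finset.mem_Icc]
      exact ⟨⟨hα1, by simp only; omega⟩, abs_le.1 hβ⟩)

/-- chains along words in affine maps -/
theorem orbit_main (A B : ℕ → ℕ → ℕ → ℤ) (hA : ∀ j p a, 2 ≤ A j p a)
    (hp : ∀ j s, s ≠ [] → Inc s → IsCoprime (cmp (A j) (B j) s).1 (cmp (A j) (B j) s).2)
    (H : List VW → ℕ) (N : ℕ) :
    ∃ w : ℕ → VW, (∀ i, Var (w i)) ∧ (∀ i, Bey N (w i)) ∧
      (∀ i, ∀ x ∈ w i, ∀ y ∈ w (i + 1), x.1 < y.1) ∧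
      ∀ (j k : ℕ) (F : ℕ → Finset ℕ) (a : ℕ → ℕ),
        (∀ l < k, (F l).Nonempty) → (∀ l < k, ∀ i ∈ F l, j < i) →
        (∀ l, l + 1 < k → ∀ i ∈ F l, ∀ i' ∈ F (l + 1), i < i') →
        (∀ i, a i ≤ H ((List.range i).map w)) →
        EO {f | ∃ m ≤ k, f = cmp (A j) (B j) (wd w a ((Finset.range m).biUnion F))} := by
  classical
  have hGr : ∀ j : ℕ, Gr (fun s => (cmp (A j) (B j) s).1) := by
    intro j s t hs ht _
    simp only
    rw [cmp_append]
    have h1 := cmp_two (B := B j) (hA j) hs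
    have h2 := cmp_two (B := B j) (hA j) ht
    simp only
    nlinarith
  obtain ⟨w, h1, h2, h3, h4⟩ := forms_param
    (fun j _ s => cmp (A j) (B j) s) (fun j _ s => (cmp (A j) (B j) s).1)
    (fun j _ => hGr j) (fun j _ s => by
      have h1 := le_abs_self (cmp (A j) (B j) s).1
      have h2 := abs_nonneg (cmp (A j) (B j) s).2
      linarith)
    (fun j _ s hs hi => ⟨by have := cmp_two (B := B j) (hA j) hs; omega, hp j s hs hi⟩)
    (fun j _ t ht n n' hnn => by
      have h1 := (Prod.ext_iff.1 hnn).1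
      exact ((hGr j).mono_cat ht).injective h1)
    H (fun _ => 0) N
  refine ⟨w, h1, h2, h3, fun j k F a hF1 hF2 hF3 ha => ?_⟩
  have hne : ∀ i, w i ≠ [] := fun i => (h2 i).1
  set G : ℕ → Finset ℕ := fun l => if l = 0 then {j} else F (l - 1) with hG
  have hG0 : G 0 = {j} := by simp [hG]
  have hGs : ∀ l, G (l + 1) = F l := by intro l; simp [hG]
  have h5 := h4 j k 0 j G a le_rfl le_rfl
    (fun l hl => by
      rcases l with _ | l
      · rw [hG0]; exact Finset.singleton_nonempty _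
      · rw [hGs]; exact hF1 l (by omega))
    (fun l hl i hi => by
      rcases l with _ | l
      · rw [hG0, Finset.mem_singleton] at hi
        omega
      · rw [hGs] at hi
        exact (hF2 l (by omega) i hi).le)
    (fun l hl i hi i' hi' => by
      rw [hGs] at hi'
      rcases l with _ | l
      · rw [hG0, Finset.mem_singleton] at hi
        rw [hi]
        exact hF2 0 (by omega) i' hi'
      · rw [hGs] at hi
        exact hF3 l (by omega) i hi i' hi') ha
  have hU : ∀ m ≤ k, wd w a ((Finset.range (m + 1)).biUnion G) =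
      wd w a {j} ++ wd w a ((Finset.range m).biUnion F) := by
    intro m hm
    have e : (Finset.range (m + 1)).biUnion G = {j} ∪ (Finset.range m).biUnion F := by
      ext x
      simp only [Finset.mem_biUnion, Finset.mem_range, Finset.mem_union, Finset.mem_singleton]
      constructor
      · rintro ⟨l, hl, hx⟩
        rcases l with _ | l
        · rw [hG0, Finset.mem_singleton] at hx
          exact Or.inl hx
        · rw [hGs] at hx
          exact Or.inr ⟨l, by omega, hx⟩
      · rintro (hx | ⟨l, hl, hx⟩)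
        · refine ⟨0, by omega, ?_⟩
          rw [hG0, Finset.mem_singleton]
          exact hx
        · refine ⟨l + 1, by omega, ?_⟩
          rw [hGs]
          exact hx
    rw [e]
    unfold wd wrd
    rw [← List.flatMap_append]
    congr 1
    have h6 : (({j} : Finset ℕ).sort (· ≤ ·) ++ ((Finset.range m).biUnion F).sort (· ≤ ·)).toFinset =
        {j} ∪ (Finset.range m).biUnion F := by
      ext x
      simp
    rw [← h6]
    have hpw : (({j} : Finset ℕ).sort (· ≤ ·) ++
        ((Finset.range m).biUnion F).sort (· ≤ ·)).Pairwise (· < ·) :=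
      List.pairwise_append.2 ⟨(Finset.sortedLT_sort _).pairwise, (Finset.sortedLT_sort _).pairwise,
        fun x hx y hy => by
          rw [Finset.mem_sort] at hx hy
          rw [Finset.mem_singleton] at hx
          obtain ⟨l, hl, hy⟩ := Finset.mem_biUnion.1 hy
          have := Finset.mem_range.1 hl
          rw [hx]
          exact hF2 l (by omega) y hy⟩
    refine (List.toFinset_sort (· ≤ ·) (hpw.imp fun h => h.ne)).2 ?_
    exact hpw.imp fun h => h.le
  have hs0 : wd w a {j} ≠ [] := wd_ne_nil hne (Finset.singleton_nonempty j)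
  set f0 := cmp (A j) (B j) (wd w a {j}) with hf0
  have hf01 : 2 ≤ f0.1 := cmp_two (hA j) hs0
  have h6 := Pool.Agent.Run7.h965.Aff.exF_precomp h5 f0.1 f0.2 (by omega)
  refine eo_of_exF ?_ ⟨0, Nat.zero_le _, by simp [cmp, wd, wrd]⟩
  have e : {f : ℤ × ℤ | ∃ m ≤ k, f = cmp (A j) (B j) (wd w a ((Finset.range m).biUnion F))} =
      {h | (h.1 * f0.1, h.2 + h.1 * f0.2) ∈ {f | ∃ m ≤ k, f =
        cmp (A j) (B j) (wd w a ((Finset.range (m + 1)).biUnion G))}} := by
    ext h
    simp only [Set.mem_ofPred_eq]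
    constructor
    · rintro ⟨m, hm, rfl⟩
      refine ⟨m, hm, ?_⟩
      rw [hU m hm, cmp_append]
    · rintro ⟨m, hm, h7⟩
      refine ⟨m, hm, ?_⟩
      rw [hU m hm, cmp_append, Prod.mk.injEq] at h7
      have h8 : h.1 = (cmp (A j) (B j) (wd w a ((Finset.range m).biUnion F))).1 :=
        mul_right_cancel₀ (by omega : f0.1 ≠ 0) h7.1
      have h9 := h7.2
      rw [h8] at h9
      ext
      · exact h8
      · linarith
  rw [e]
  exact h6

/-- the `n`-th iterate of `x ↦ a x + b`, as a pair -/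
def itp (a b : ℤ) (n : ℕ) : ℤ × ℤ := (a ^ n, b * ∑ i ∈ Finset.range n, a ^ i)

theorem itp_add (a b : ℤ) (m n : ℕ) : itp a b (m + n) =
    ((itp a b n).1 * (itp a b m).1, (itp a b n).2 + (itp a b n).1 * (itp a b m).2) := by
  unfold itp
  ext
  · simp only
    ring
  · simp only
    have h1 : ∑ i ∈ Finset.range (m + n), a ^ i = ∑ i ∈ Finset.range n, a ^ i +
        a ^ n * ∑ i ∈ Finset.range m, a ^ i := by
      rw [Nat.add_comm m n, Finset.sum_range_add, Finset.mul_sum]
      congr 1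
      refine Finset.sum_congr rfl fun i _ => ?_
      rw [pow_add]
    rw [h1]
    ring

theorem itp_coprime {a b : ℤ} (h : IsCoprime a b) (n : ℕ) :
    IsCoprime (itp a b n).1 (itp a b n).2 := by
  unfold itp
  simp only
  rcases n with _ | n
  · simp only [pow_zero]
    exact isCoprime_one_left
  · refine IsCoprime.mul_right ?_ ?_
    · exact h.pow_left
    · refine IsCoprime.pow_left ?_
      rw [Finset.sum_range_succ']
      simp only [pow_succ, pow_zero]
      have : ∑ i ∈ Finset.range n, a ^ i * a = a * ∑ i ∈ Finset.range n, a ^ i := by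
        rw [Finset.mul_sum]
        exact Finset.sum_congr rfl fun i _ => mul_comm _ _
      rw [this]
      exact ⟨-(∑ i ∈ Finset.range n, a ^ i), 1, by ring⟩

theorem itp_iter (a b : ℤ) (n : ℕ) (x : ℤ) :
    (fun z => a * z + b)^[n] x = (itp a b n).1 * x + (itp a b n).2 := by
  induction n with
  | zero => simp [itp]
  | succ n ih =>
    rw [Function.iterate_succ_apply', ih]
    have h1 := itp_add a b n 1
    have h2 : itp a b 1 = (a, b) := by simp [itp]
    rw [h1, h2]
    simp only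
    ring

/-- exact sets of times -/
def ET (a b : ℤ) (E : Set ℕ) : Prop :=
  ∀ R : ℕ, {p : ℕ | p.Prime ∧ ∀ y ≤ R,
    (Nat.Prime ((fun z : ℤ => a * z + b)^[y] p).toNat ↔ y ∈ E)}.Infinite

/-- times of primes in orbits given by functions of words -/
theorem times_main (a b : ℕ → ℤ) (ha : ∀ j, 2 ≤ a j) (hab : ∀ j, IsCoprime (a j) (b j))
    (φ : ℕ → SW → ℕ)
    (hφ : ∀ j s t, s ≠ [] → t ≠ [] → Inc (s ++ t) → φ j s < φ j (s ++ t))
    (H C : List VW → ℕ) (N : ℕ) :
    ∃ w : ℕ → VW, (∀ i, Var (w i)) ∧ (∀ i, Bey N (w i)) ∧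
      (∀ i, ∀ x ∈ w i, ∀ y ∈ w (i + 1), x.1 < y.1) ∧
      ∀ (j k c i₀ : ℕ) (F : ℕ → Finset ℕ) (α : ℕ → ℕ), j ≤ i₀ → 1 ≤ c →
        (c = 1 ∨ c ≤ C ((List.range i₀).map w)) →
        (∀ l ≤ k, (F l).Nonempty) → (∀ l ≤ k, ∀ i ∈ F l, i₀ ≤ i) →
        (∀ l < k, ∀ i ∈ F l, ∀ i' ∈ F (l + 1), i < i') →
        (∀ i, α i ≤ H ((List.range i).map w)) →
        ET (a j) (b j) {y | ∃ m ≤ k, y = c * (φ j (wd w α ((Finset.range (m + 1)).biUnion F)) -
          φ j (wd w α (F 0)))} := by
  classical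
  have hmono : ∀ j, StrictMono fun n : ℕ => (a j) ^ n := fun j =>
    pow_right_strictMono₀ (by have := ha j; omega)
  have hpos : ∀ j (n : ℕ), 1 ≤ (a j) ^ n := fun j n => one_le_pow₀ (by have := ha j; omega)
  have hGr : ∀ j c : ℕ, Gr (fun s => (itp (a j) (b j) ((c + 1) * φ j s)).1) := by
    intro j c s t hs ht hi
    have h1 := hφ j s t hs ht hi
    unfold itp
    simp only
    refine hmono j ?_
    exact Nat.mul_lt_mul_of_pos_left h1 (by omega)
  obtain ⟨w, h1, h2, h3, h4⟩ := forms_param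
    (fun j c s => itp (a j) (b j) ((c + 1) * φ j s))
    (fun j c s => (itp (a j) (b j) ((c + 1) * φ j s)).1)
    hGr (fun j c s => by
      have h1 := le_abs_self (itp (a j) (b j) ((c + 1) * φ j s)).1
      have h2 := abs_nonneg (itp (a j) (b j) ((c + 1) * φ j s)).2
      linarith)
    (fun j c s _ _ => ⟨hpos j _, itp_coprime (hab j) _⟩)
    (fun j c t ht n n' hnn => by
      have h1 := (Prod.ext_iff.1 hnn).1
      exact ((hGr j c).mono_cat ht).injective h1)
    H C N
  refine ⟨w, h1, h2, h3, fun j k c i₀ F α hj hc1 hc hF1 hF2 hF3 hα => ?_⟩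
  have hne : ∀ i, w i ≠ [] := fun i => (h2 i).1
  have hs : ∀ i, (w i).Pairwise fun x y => x.1 < y.1 := fun i => (h2 i).2.1
  have h5 := h4 j k (c - 1) i₀ F α hj (by omega) hF1 hF2 hF3 hα
  rw [show c - 1 + 1 = c by omega] at h5
  -- monotonicity along the chain
  have hle : ∀ m ≤ k, φ j (wd w α (F 0)) ≤ φ j (wd w α ((Finset.range (m + 1)).biUnion F)) := by
    intro m hm
    obtain ⟨G, hG1, hG2, hG3, -⟩ := Pool.Agent.W68.Gap.extend i₀ (k + 1) F
      (fun l hl => hF1 l (by omega)) (fun l hl => hF2 l (by omega))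
      (fun l hl => hF3 l (by omega)) 0
    have hbw : BW (fun l => wd w α (G l)) := bw_wd hne hs h3 hG1 α
    have hG' : Gr (fun s => (φ j s : ℤ)) := fun s t hs ht hi => by
      show (φ j s : ℤ) < (φ j (s ++ t) : ℤ)
      exact_mod_cast hφ j s t hs ht hi
    have h6 := (hG'.mono_cat hbw).monotone (Nat.zero_le m)
    simp only [cat_zero] at h6
    rw [cat_wd hG1, hG2 0 (by omega)] at h6
    have e : (Finset.range (m + 1)).biUnion G = (Finset.range (m + 1)).biUnion F := by
      refine Finset.biUnion_congr rfl fun l hl => hG2 l ?_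
      have := Finset.mem_range.1 hl
      omega
    rw [e] at h6
    exact_mod_cast h6
  set n0 := c * φ j (wd w α (F 0)) with hn0
  set f0 := itp (a j) (b j) n0 with hf0
  have h6 := Pool.Agent.Run7.h965.Aff.exF_precomp h5 f0.1 f0.2 (hpos j n0)
  have e : {h : ℤ × ℤ | (h.1 * f0.1, h.2 + h.1 * f0.2) ∈ {f | ∃ m ≤ k, f =
      itp (a j) (b j) (c * φ j (wd w α ((Finset.range (m + 1)).biUnion F)))}} =
      {f | ∃ m ≤ k, f = itp (a j) (b j) (c * (φ j (wd w α ((Finset.range (m + 1)).biUnion F)) -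
          φ j (wd w α (F 0))))} := by
    ext h
    simp only [Set.mem_ofPred_eq]
    have hsum : ∀ m ≤ k, c * φ j (wd w α ((Finset.range (m + 1)).biUnion F)) =
        n0 + c * (φ j (wd w α ((Finset.range (m + 1)).biUnion F)) - φ j (wd w α (F 0))) := by
      intro m hm
      have := hle m hm
      rw [hn0, ← Nat.mul_add]
      congr 1
      omega
    constructor
    · rintro ⟨m, hm, h7⟩
      refine ⟨m, hm, ?_⟩
      rw [hsum m hm, itp_add, Prod.mk.injEq] at h7
      have h8 := mul_right_cancel₀ (by have := hpos j n0; show f0.1 ≠ 0; rw [hf0]; unfold itp; simp only; omega) h7.1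
      have h9 := h7.2
      rw [h8] at h9
      ext
      · exact h8
      · linarith
    · rintro ⟨m, hm, rfl⟩
      refine ⟨m, hm, ?_⟩
      rw [hsum m hm, itp_add]
  rw [e] at h6
  have h7 := eo_of_exF h6 ⟨0, Nat.zero_le _, by simp [itp]⟩
  intro R
  obtain ⟨R', hR'⟩ : ∃ R' : ℕ, ∀ y ≤ R, (itp (a j) (b j) y).1 ≤ R' ∧ |(itp (a j) (b j) y).2| ≤ R' := by
    refine ⟨∑ y ∈ Finset.range (R + 1), ((itp (a j) (b j) y).1.toNat +
      (itp (a j) (b j) y).2.natAbs), fun y hy => ?_⟩
    have h8 := Finset.single_le_sum (f := fun y => (itp (a j) (b j) y).1.toNat +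
      (itp (a j) (b j) y).2.natAbs) (fun _ _ => Nat.zero_le _)
      (Finset.mem_range.2 (by omega : y < R + 1))
    have h9 := Int.self_le_toNat (itp (a j) (b j) y).1
    have h10 := Int.natCast_natAbs (itp (a j) (b j) y).2
    constructor
    · omega
    · rw [← h10]
      omega
  refine (h7 R').mono ?_
  rintro p ⟨hp1, hp2⟩
  refine ⟨hp1, fun y hy => ?_⟩
  have hpy : (1 : ℤ) ≤ (itp (a j) (b j) y).1 := hpos j y
  rw [itp_iter, hp2 _ _ hpy (hR' y hy).1 (hR' y hy).2]
  simp only [Prod.mk.eta, Set.mem_ofPred_eq]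
  constructor
  · rintro ⟨m, hm, h8⟩
    refine ⟨m, hm, ?_⟩
    exact (hmono j).injective (Prod.ext_iff.1 h8).1
  · rintro ⟨m, hm, rfl⟩
    exact ⟨m, hm, rfl⟩

end Pool.Agent.Run7.h965.MX
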