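import Pool.Agent.Run7.h965.MX.Mult
import Pool.Agent.Run7.h965.Aff

/-!
Primes `p_0, …, p_k` such that the ratios `(g p_m + b) / (g p_0 + b)` are given by functions of words.
-/

set_option autoImplicit false

namespace Pool.Agent.Run7.h965.MX

open Filter Pool.Agent.W68.Mil Pool.Agent.H752R3.MT Pool.Agent.W68.Her

/-- functions of words which grow and whose values divide each other along extensions -/
structure Dv (φ : SW → ℕ) (g : ℕ) (b : ℤ) : Prop where
  dvd : ∀ s t, s ≠ [] → t ≠ [] → Inc (s ++ t) → φ s ∣ φ (s ++ t)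
  lt : ∀ s t, s ≠ [] → t ≠ [] → Inc (s ++ t) → φ s < φ (s ++ t)
  pos : ∀ s, s ≠ [] → Inc s → 1 ≤ φ s
  cg : ∀ s, s ≠ [] → Inc s → IsCoprime (φ s : ℤ) (g : ℤ)
  cb : ∀ s, s ≠ [] → Inc s → IsCoprime (φ s : ℤ) b

/-- the ratio -/
def rt (φ : SW → ℕ) (s s₀ : SW) : ℕ := φ s / φ s₀

/-- the form of the ratio `K` -/
def rf (g : ℕ) (b : ℤ) (K : ℤ) : ℤ × ℤ := (K, b * ((K - 1) / g))

/-- exact patterns of ratios -/
def Rt (φ : SW → ℕ) (g : ℕ) (b : ℤ) (t : ℕ → SW) : Prop :=
  (∀ m, (g : ℤ) ∣ (rt φ (cat t m) (t 0) : ℤ) - 1) ∧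
    ExF (Set.range fun m => rf g b (rt φ (cat t m) (t 0)))

section

variable {φ : SW → ℕ} {g : ℕ} {b : ℤ} (hφ : Dv φ g b)

include hφ

theorem Dv.dvd_cat {t : ℕ → SW} (ht : BW t) {m n : ℕ} (h : m ≤ n) :
    φ (cat t m) ∣ φ (cat t n) := by
  induction n, h using Nat.le_induction with
  | base => exact dvd_rfl
  | succ n hn ih =>
    refine ih.trans ?_
    rw [cat_succ]
    refine hφ.dvd _ _ (ht.cat_ne n) (ht.1 _).1 ?_
    rw [← cat_succ]
    exact ht.inc_cat _

theorem Dv.lt_cat {t : ℕ → SW} (ht : BW t) : StrictMono fun m => φ (cat t m) :=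
  strictMono_nat_of_lt_succ fun m => by
    rw [cat_succ]
    refine hφ.lt _ _ (ht.cat_ne m) (ht.1 _).1 ?_
    rw [← cat_succ]
    exact ht.inc_cat _

theorem Dv.rt_mul {t : ℕ → SW} (ht : BW t) {m n : ℕ} (h : m ≤ n) :
    rt φ (cat t n) (cat t m) * φ (cat t m) = φ (cat t n) :=
  Nat.div_mul_cancel (hφ.dvd_cat ht h)

theorem Dv.rt_lt {t : ℕ → SW} (ht : BW t) {l m n : ℕ} (hlm : l ≤ m) (h : m < n) :
    rt φ (cat t m) (cat t l) < rt φ (cat t n) (cat t l) := by
  have h1 := hφ.rt_mul ht hlm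
  have h2 := hφ.rt_mul ht (hlm.trans h.le)
  have h3 := hφ.lt_cat ht h
  simp only at h3
  rw [← h1, ← h2] at h3
  exact lt_of_mul_lt_mul_right h3 (Nat.zero_le _)

theorem Dv.le_rt {t : ℕ → SW} (ht : BW t) (m : ℕ) : m + 1 ≤ rt φ (cat t m) (t 0) := by
  induction m with
  | zero =>
    rw [cat_zero]
    have := hφ.pos _ (ht.1 0).1 (ht.1 0).2
    unfold rt
    rw [Nat.div_self (by omega)]
  | succ m ih =>
    have h1 : rt φ (cat t m) (t 0) < rt φ (cat t (m + 1)) (t 0) := by
      have := hφ.rt_lt ht (Nat.zero_le m) (Nat.lt_succ_self m)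
      rwa [cat_zero] at this
    omega

theorem rt_closed {t : ℕ → SW} (_ht : BW t) (hG : ¬ Rt φ g b t) :
    ∃ m, ∀ t', BW t' → (∀ i < m, t' i = t i) → ¬ Rt φ g b t' := by
  unfold Rt at hG
  rw [not_and_or] at hG
  rcases hG with hG | hG
  · push Not at hG
    obtain ⟨m, hm⟩ := hG
    refine ⟨m + 1, fun t' ht' htt hG' => hm ?_⟩
    have := hG'.1 m
    rwa [cat_congr htt (Nat.lt_succ_self m), htt 0 (by omega)] at this
  · unfold ExF at hG
    push Not at hG
    obtain ⟨T, hT1, hT2⟩ := hG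
    obtain ⟨M, hM⟩ : ∃ M : ℕ, ∀ f ∈ T, f.1 < M := by
      refine ⟨(T.sup fun f => f.1.toNat) + 1, fun f hf => ?_⟩
      have h1 : f.1.toNat ≤ T.sup fun f => f.1.toNat :=
        Finset.le_sup (f := fun f : ℤ × ℤ => f.1.toNat) hf
      have h2 := Int.self_le_toNat f.1
      have h3 : (f.1.toNat : ℤ) ≤ ((T.sup fun f => f.1.toNat : ℕ) : ℤ) := by exact_mod_cast h1
      push_cast
      linarith
    refine ⟨M + 1, fun t' ht' htt hG' => ?_⟩
    have h0 : t' 0 = t 0 := htt 0 (by omega)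
    refine (congr_inf (fun f hf => ?_) (hG'.2 T hT1)) hT2
    have hb : ∀ s : ℕ → SW, BW s → ∀ m, rf g b (rt φ (cat s m) (s 0)) = f → m < M + 1 := by
      intro s hs m hm
      have h1 := hM f hf
      have h2 := hφ.le_rt hs m
      rw [← hm] at h1
      have h3 : (rt φ (cat s m) (s 0) : ℤ) < M := h1
      have : rt φ (cat s m) (s 0) < M := by exact_mod_cast h3
      omega
    constructor
    · rintro ⟨m, rfl⟩
      refine ⟨m, ?_⟩
      simp only
      rw [cat_congr htt (hb t' ht' m rfl), h0]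
    · rintro ⟨m, rfl⟩
      refine ⟨m, ?_⟩
      simp only
      rw [cat_congr htt (hb t _ht m rfl), h0]

theorem rt_exists (hg : 1 ≤ g) {x : ℕ → SW} (hx : BW x) :
    ∃ F, Blk F ∧ Rt φ g b (fun l => un x (F l)) := by
  classical
  have : NeZero g := ⟨by omega⟩
  have hg0 : (0 : ℤ) < g := by exact_mod_cast hg
  obtain ⟨c, hc⟩ := Finite.exists_infinite_fiber fun n => ((φ (cat x n) : ℕ) : ZMod g)
  rw [Set.infinite_coe_iff] at hc
  set Nc : Set ℕ := (fun n => ((φ (cat x n) : ℕ) : ZMod g)) ⁻¹' {c} with hNc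
  obtain ⟨nc, hnc⟩ := hc.nonempty
  set N1 : Set ℕ := Nc \ Set.Iio nc with hN1
  have hN1i : N1.Infinite := hc.sdiff (Set.finite_Iio _)
  have hle : ∀ n ∈ N1, nc ≤ n := fun n hn => not_lt.1 hn.2
  -- ratios of values in the same class are `1` modulo `g`
  have hone : ∀ n ∈ Nc, ∀ n' ∈ Nc, n ≤ n' →
      ∃ u : ℤ, (rt φ (cat x n') (cat x n) : ℤ) = 1 + g * u := by
    intro n hn n' hn' hnn
    have h1 := hφ.rt_mul hx hnn
    have h2 : (g : ℤ) ∣ ((rt φ (cat x n') (cat x n) : ℤ) - 1) * φ (cat x n) := by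
      rw [← ZMod.intCast_zmod_eq_zero_iff_dvd]
      have h3 : (((rt φ (cat x n') (cat x n) : ℤ) - 1) * φ (cat x n) : ℤ) =
          ((rt φ (cat x n') (cat x n) * φ (cat x n) : ℕ) : ℤ) - φ (cat x n) := by
        push_cast
        ring
      rw [h3, h1]
      push_cast
      rw [hNc, Set.mem_preimage, Set.mem_singleton_iff] at hn hn'
      rw [hn, hn', sub_self]
    have h4 := (hφ.cg _ (hx.cat_ne n) (hx.inc_cat n)).symm.dvd_of_dvd_mul_right h2
    obtain ⟨u, hu⟩ := h4
    exact ⟨u, by linarith⟩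
  have hrf : ∀ u : ℤ, rf g b (1 + g * u) = (1 + g * u, b * u) := by
    intro u
    unfold rf
    rw [add_sub_cancel_left, Int.mul_ediv_cancel_left _ hg0.ne']
  set K : ℕ → ℤ := fun n => (rt φ (cat x n) (cat x nc) : ℤ) with hK
  set f : ℕ → ℤ × ℤ := fun n => rf g b (K n) with hf
  have hfinj : Set.InjOn f N1 := by
    intro m hm m' hm' h
    have h1 : K m = K m' := (Prod.ext_iff.1 h).1
    rcases Nat.lt_trichotomy m m' with h2 | h2 | h2
    · have := hφ.rt_lt hx (hle m hm) h2
      simp only [hK] at h1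
      omega
    · exact h2
    · have := hφ.rt_lt hx (hle m' hm') h2
      simp only [hK] at h1
      omega
  obtain ⟨G, hG1, hG2, hG3⟩ := Pool.Agent.H361R2.Inf.exact_infinite (f '' N1)
    (hN1i.image hfinj) (by
      rintro _ ⟨n, hn, rfl⟩
      obtain ⟨u, hu⟩ := hone nc hnc n hn.1 (hle n hn)
      have h1 := hφ.rt_mul hx (hle n hn)
      have h2 := hφ.pos _ (hx.cat_ne n) (hx.inc_cat n)
      have h3 : 1 ≤ rt φ (cat x n) (cat x nc) := by
        by_contra h
        have : rt φ (cat x n) (cat x nc) = 0 := by omega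
        rw [this, zero_mul] at h1
        omega
      have e : f n = (1 + g * u, b * u) := by
        simp only [hf, hK]
        rw [hu, hrf]
      rw [e]
      refine ⟨?_, ?_⟩
      · show (1 : ℤ) ≤ 1 + g * u
        rw [← hu]
        exact_mod_cast h3
      simp only
      refine IsCoprime.mul_right ?_ ?_
      · rw [← hu]
        have h4 := hφ.cb _ (hx.cat_ne n) (hx.inc_cat n)
        rw [← h1, Nat.cast_mul] at h4
        exact h4.of_mul_left_left
      · exact ⟨1, -g, by ring⟩)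
  set M : Set ℕ := {n | n ∈ N1 ∧ f n ∈ G} with hM
  have hMG : f '' M = G := by
    ext h
    constructor
    · rintro ⟨m, hm, rfl⟩; exact hm.2
    · intro hg'
      obtain ⟨m, hm, rfl⟩ := hG1 hg'
      exact ⟨m, ⟨hm, hg'⟩, rfl⟩
  have hMi : M.Infinite := by
    intro h
    apply hG2
    rw [← hMG]
    exact h.image _
  obtain ⟨F, hF, hFc⟩ := group (x := x) M hMi
  set μ : ℕ → ℕ := Nat.nth (· ∈ M) with hμ
  have hμM : ∀ m, μ m ∈ M := fun m => Nat.nth_mem_of_infinite hMi m
  have hμm : StrictMono μ := Nat.nth_strictMono hMi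
  have hμ0 : ∀ m, μ 0 ≤ μ m := fun m => hμm.monotone (Nat.zero_le m)
  have h00 : un x (F 0) = cat x (μ 0) := by
    rw [← hFc 0, cat_zero]
  obtain ⟨u0, hu0⟩ := hone nc hnc (μ 0) (hμM 0).1.1 (hle _ (hμM 0).1)
  have hK0 : 1 ≤ K (μ 0) := by
    have h1 := hφ.rt_mul hx (hle _ (hμM 0).1)
    have h2 := hφ.pos _ (hx.cat_ne (μ 0)) (hx.inc_cat (μ 0))
    have h3 : 1 ≤ rt φ (cat x (μ 0)) (cat x nc) := by
      by_contra h
      have : rt φ (cat x (μ 0)) (cat x nc) = 0 := by omega
      rw [this, zero_mul] at h1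
      omega
    simp only [hK]
    exact_mod_cast h3
  have hKm : ∀ m, (rt φ (cat x (μ m)) (cat x (μ 0)) : ℤ) * K (μ 0) = K (μ m) := by
    intro m
    have h1 := hφ.rt_mul hx (hμ0 m)
    have h2 := hφ.rt_mul hx (hle _ (hμM 0).1)
    have h3 := hφ.rt_mul hx (hle _ (hμM m).1)
    have h4 := hφ.pos _ (hx.cat_ne nc) (hx.inc_cat nc)
    rw [← h2, ← h3, ← mul_assoc] at h1
    have h5 := Nat.eq_of_mul_eq_mul_right (by omega) h1
    simp only [hK]
    exact_mod_cast h5
  refine ⟨F, hF, fun m => ?_, ?_⟩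
  · simp only
    rw [hFc, h00]
    obtain ⟨u, hu⟩ := hone _ (hμM 0).1.1 _ (hμM m).1.1 (hμ0 m)
    exact ⟨u, by rw [hu]; ring⟩
  · have h1 := Pool.Agent.Run7.h965.Aff.exF_precomp hG3 (K (μ 0)) (b * u0) hK0
    have hset : (Set.range fun m => rf g b (rt φ (cat (fun l => un x (F l)) m)
        (un x (F 0)) : ℤ)) = {h | (h.1 * K (μ 0), h.2 + h.1 * (b * u0)) ∈ G} := by
      ext h
      simp only [Set.mem_range, Set.mem_ofPred_eq]
      constructor
      · rintro ⟨m, rfl⟩
        rw [hFc, h00]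
        obtain ⟨u, hu⟩ := hone _ (hμM 0).1.1 _ (hμM m).1.1 (hμ0 m)
        have h2 := hKm m
        rw [hu] at h2 ⊢
        rw [hrf]
        simp only
        have h3 : f (μ m) = ((1 + g * u) * K (μ 0), b * u + (1 + g * u) * (b * u0)) := by
          simp only [hf]
          rw [← h2]
          have h4 : (1 + (g : ℤ) * u) * K (μ 0) = 1 + g * (u + (1 + g * u) * u0) := by
            have : K (μ 0) = 1 + g * u0 := hu0
            rw [this]
            ring
          rw [h4, hrf]
          ext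
          · simp only
          · simp only
            ring
        rw [← h3]
        exact (hμM m).2
      · intro hh
        rw [← hMG] at hh
        obtain ⟨n, hn, he⟩ := hh
        obtain ⟨m, rfl⟩ : ∃ m, μ m = n := by
          have h : Set.range (Nat.nth (· ∈ M)) = {n | n ∈ M} := Nat.range_nth_of_infinite hMi
          have h' : n ∈ Set.range (Nat.nth (· ∈ M)) := by
            rw [h]; exact hn
          exact h'
        refine ⟨m, ?_⟩
        obtain ⟨u, hu⟩ := hone _ (hμM 0).1.1 _ (hμM m).1.1 (hμ0 m)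
        rw [hFc, h00, hu, hrf]
        have h2 := hKm m
        rw [hu] at h2
        have h3 : f (μ m) = ((1 + g * u) * K (μ 0), b * u + (1 + g * u) * (b * u0)) := by
          simp only [hf]
          rw [← h2]
          have h4 : (1 + (g : ℤ) * u) * K (μ 0) = 1 + g * (u + (1 + g * u) * u0) := by
            have : K (μ 0) = 1 + g * u0 := hu0
            rw [this]
            ring
          rw [h4, hrf]
          ext
          · simp only
          · simp only
            ring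
        rw [h3, Prod.mk.injEq] at he
        have h5 : h.1 = 1 + g * u := by
          have := mul_right_cancel₀ (by omega : K (μ 0) ≠ 0) he.1
          exact this.symm
        have h6 := he.2
        rw [h5] at h6
        ext
        · simp only
          exact h5.symm
        · simp only
          linarith
    show ExF (Set.range fun m => rf g b (rt φ (cat (fun l => un x (F l)) m) (un x (F 0)) : ℤ))
    rw [hset]
    exact h1

end

end Pool.Agent.Run7.h965.MX
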