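import Pool.Agent.Run7.h965.MX.Ratio

/-!
Primes whose ratios are given by functions of words: finite patterns, exponents, arrays.
-/

set_option autoImplicit false

namespace Pool.Agent.Run7.h965.MX

open Filter Pool.Agent.W68.Mil Pool.Agent.H752R3.MT Pool.Agent.W68.Her

theorem Dv.gr {φ : SW → ℕ} {g : ℕ} {b : ℤ} (hφ : Dv φ g b) : Gr (fun s => (φ s : ℤ)) :=
  fun s t hs ht hi => by
    show (φ s : ℤ) < (φ (s ++ t) : ℤ)
    exact_mod_cast hφ.lt s t hs ht hi

theorem rt_cut {φ : SW → ℕ} {g : ℕ} {b : ℤ} (hφ : Dv φ g b) {w : ℕ → VW} {N : ℕ}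
    (hw2 : ∀ i, Bey N (w i)) (hw3 : ∀ i, ∀ x ∈ w i, ∀ y ∈ w (i + 1), x.1 < y.1) {i₀ : ℕ}
    {a : ℕ → ℕ} (hR : ∀ F : ℕ → Finset ℕ, Blk F → (∀ l, ∀ i ∈ F l, i₀ ≤ i) →
      Rt φ g b (fun l => wd w a (F l))) (k : ℕ)
    (F : ℕ → Finset ℕ) (h1 : ∀ l ≤ k, (F l).Nonempty) (h2 : ∀ l ≤ k, ∀ i ∈ F l, i₀ ≤ i)
    (h3 : ∀ l < k, ∀ i ∈ F l, ∀ i' ∈ F (l + 1), i < i') :
    (∀ m ≤ k, (g : ℤ) ∣
      (rt φ (wd w a ((Finset.range (m + 1)).biUnion F)) (wd w a (F 0)) : ℤ) - 1) ∧
    ExF {f | ∃ m ≤ k, f =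
      rf g b (rt φ (wd w a ((Finset.range (m + 1)).biUnion F)) (wd w a (F 0)))} := by
  classical
  have hne : ∀ i, w i ≠ [] := fun i => (hw2 i).1
  have hs : ∀ i, (w i).Pairwise fun x y => x.1 < y.1 := fun i => (hw2 i).2.1
  have hext := fun R => Pool.Agent.W68.Gap.extend i₀ (k + 1) F
    (fun l hl => h1 l (by omega)) (fun l hl => h2 l (by omega)) (fun l hl => h3 l (by omega)) R
  have hcong : ∀ G : ℕ → Finset ℕ, (∀ l < k + 1, G l = F l) → ∀ m ≤ k,
      (Finset.range (m + 1)).biUnion G = (Finset.range (m + 1)).biUnion F := by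
    intro G hG m hm
    refine Finset.biUnion_congr rfl fun l hl => hG l ?_
    have := Finset.mem_range.1 hl
    omega
  constructor
  · intro m hm
    obtain ⟨G, hG1, hG2, hG3, -⟩ := hext 0
    have h4 := (hR G hG1 hG3).1 m
    rw [cat_wd hG1] at h4
    simp only at h4
    rwa [hcong G hG2 m hm, hG2 0 (by omega)] at h4
  · intro T hT
    obtain ⟨M, hM⟩ : ∃ M : ℕ, ∀ f ∈ T, f.1 < M := by
      refine ⟨(T.sup fun f => f.1.toNat) + 1, fun f hf => ?_⟩
      have h1 : f.1.toNat ≤ T.sup fun f => f.1.toNat :=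
        Finset.le_sup (f := fun f : ℤ × ℤ => f.1.toNat) hf
      have h2 := Int.self_le_toNat f.1
      have h3 : (f.1.toNat : ℤ) ≤ ((T.sup fun f => f.1.toNat : ℕ) : ℤ) := by exact_mod_cast h1
      push_cast
      linarith
    set c0 := φ (wd w a (F 0)) with hc0
    obtain ⟨G, hG1, hG2, hG3, hG4⟩ := hext (M * c0)
    have hbw : BW (fun l => wd w a (G l)) := bw_wd hne hs hw3 hG1 a
    have hbig : ∀ m, k < m →
        M ≤ rt φ (wd w a ((Finset.range (m + 1)).biUnion G)) (wd w a (G 0)) := by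
      intro m hm
      have e1 : φ (cat (fun l => wd w a (G l)) (k + 1)) ≤ φ (cat (fun l => wd w a (G l)) m) :=
        (hφ.lt_cat hbw).monotone hm
      have e3 := gr_card hφ.gr hne hs hw3 a (I := (Finset.range (k + 1)).biUnion G)
        (J := G (k + 1)) (by
        obtain ⟨i, hi⟩ := hG1.1 0
        exact ⟨i, Finset.mem_biUnion.2 ⟨0, Finset.mem_range.2 (by omega), hi⟩⟩) (by
        intro x hx y hy
        obtain ⟨i, hi, hx⟩ := Finset.mem_biUnion.1 hx
        have := Finset.mem_range.1 hi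
        exact hG1.lt (by omega : i < k + 1) x hx y hy)
      have e4 : (Finset.range (k + 1)).biUnion G ∪ G (k + 1) =
          (Finset.range (k + 1 + 1)).biUnion G := by
        rw [Finset.range_add_one (n := k + 1), Finset.biUnion_insert, Finset.union_comm]
      rw [e4, ← cat_wd hG1, ← cat_wd hG1] at e3
      have e6 := hφ.rt_mul hbw (Nat.zero_le m)
      rw [cat_zero] at e6
      rw [← cat_wd hG1]
      have e7 : φ (wd w a (G 0)) = c0 := by rw [hG2 0 (by omega)]
      have e8 : (φ (cat (fun l => wd w a (G l)) k) : ℤ) + (G (k + 1)).card ≤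
          φ (cat (fun l => wd w a (G l)) (k + 1)) := e3
      have e9 : φ (cat (fun l => wd w a (G l)) k) + (G (k + 1)).card ≤
          φ (cat (fun l => wd w a (G l)) (k + 1)) := by exact_mod_cast e8
      by_contra hlt
      rw [not_le] at hlt
      rw [e7] at e6
      have e10 : rt φ (cat (fun l => wd w a (G l)) m) (wd w a (G 0)) * c0 ≤ M * c0 :=
        Nat.mul_le_mul_right _ hlt.le
      omega
    refine congr_inf (fun f hf => ?_) ((hR G hG1 hG3).2 T hT)
    constructor
    · rintro ⟨m, hm⟩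
      by_cases hmk : m ≤ k
      · refine ⟨m, hmk, ?_⟩
        rw [← hm]
        simp only
        rw [cat_wd hG1, hcong G hG2 m hmk, hG2 0 (by omega)]
      · exfalso
        have h4 := hbig m (by omega)
        have h5 := hM f hf
        rw [← hm] at h5
        simp only at h5
        rw [cat_wd hG1] at h5
        have h6 : (rt φ (wd w a ((Finset.range (m + 1)).biUnion G)) (wd w a (G 0)) : ℤ) < M := h5
        have h7 : rt φ (wd w a ((Finset.range (m + 1)).biUnion G)) (wd w a (G 0)) < M := by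
          exact_mod_cast h6
        omega
    · rintro ⟨m, hm, h⟩
      refine ⟨m, ?_⟩
      simp only
      rw [cat_wd hG1, hcong G hG2 m hm, hG2 0 (by omega)]
      exact h.symm

theorem Dv.pow {φ : SW → ℕ} {g : ℕ} {b : ℤ} (hφ : Dv φ g b) (c : ℕ) (hc : 1 ≤ c) :
    Dv (fun s => φ s ^ c) g b where
  dvd s t hs ht hi := pow_dvd_pow_of_dvd (hφ.dvd s t hs ht hi) c
  lt s t hs ht hi := Nat.pow_lt_pow_left (hφ.lt s t hs ht hi) (by omega)
  pos s hs hi := Nat.one_le_pow _ _ (hφ.pos s hs hi)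
  cg s hs hi := by
    simp only [Nat.cast_pow]
    exact (hφ.cg s hs hi).pow_left
  cb s hs hi := by
    simp only [Nat.cast_pow]
    exact (hφ.cb s hs hi).pow_left

/-- exactly the ratios `K m` occur -/
def ER (g : ℕ) (b : ℤ) (k : ℕ) (K : ℕ → ℕ) : Prop :=
  ∀ R : ℕ, {p : ℕ | p.Prime ∧ ∀ α β : ℤ, 1 ≤ α → α ≤ R → |β| ≤ R →
    (Nat.Prime (α * p + β).toNat ↔ ∃ m ≤ k, α = K m ∧ g * β = b * (α - 1))}.Infinite

theorem er_of_exF {g : ℕ} (hg : 1 ≤ g) {b : ℤ} {k : ℕ} {K : ℕ → ℕ} (hK0 : K 0 = 1)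
    (hK : ∀ m ≤ k, (g : ℤ) ∣ (K m : ℤ) - 1) (h : ExF {f | ∃ m ≤ k, f = rf g b (K m)}) :
    ER g b k K := by
  classical
  have hg0 : (0 : ℤ) < g := by exact_mod_cast hg
  intro R
  set T : Finset (ℤ × ℤ) := Finset.Icc (1 : ℤ) (R + 1) ×ˢ Finset.Icc (-(R : ℤ)) R with hT
  have h1 := h T (by
    intro f hf
    rw [hT, Finset.mem_product, Finset.mem_Icc] at hf
    exact hf.1.1)
  refine h1.mono fun p hp => ⟨?_, fun α β hα1 hα2 hβ => ?_⟩
  · have h2 := hp (1, 0) (by
      rw [hT, Finset.mem_product, Finset.mem_Icc, Finset.mem_Icc]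
      simp)
    have h3 : ((1 : ℤ), (0 : ℤ)) ∈ {f | ∃ m ≤ k, f = rf g b (K m)} := by
      refine ⟨0, Nat.zero_le _, ?_⟩
      rw [hK0]
      unfold rf
      simp
    have h4 := h2.2 h3
    simpa using h4
  · have h2 := hp (α, β) (by
      rw [hT, Finset.mem_product, Finset.mem_Icc, Finset.mem_Icc]
      exact ⟨⟨hα1, by simp only; omega⟩, abs_le.1 hβ⟩)
    rw [show α * (p : ℤ) + β = (α, β).1 * p + (α, β).2 from rfl, h2]
    simp only [Set.mem_ofPred_eq]
    constructor
    · rintro ⟨m, hm, h3⟩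
      unfold rf at h3
      rw [Prod.mk.injEq] at h3
      refine ⟨m, hm, h3.1, ?_⟩
      rw [h3.2, h3.1]
      obtain ⟨u, hu⟩ := hK m hm
      rw [hu, Int.mul_ediv_cancel_left _ hg0.ne']
      ring
    · rintro ⟨m, hm, h3, h4⟩
      refine ⟨m, hm, ?_⟩
      unfold rf
      rw [Prod.mk.injEq]
      refine ⟨h3, ?_⟩
      obtain ⟨u, hu⟩ := hK m hm
      rw [hu, Int.mul_ediv_cancel_left _ hg0.ne']
      rw [h3, hu] at h4
      have : (g : ℤ) * β = g * (b * u) := by rw [h4]; ring
      exact mul_left_cancel₀ hg0.ne' this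

theorem ratio_main (φ : ℕ → SW → ℕ) (g : ℕ → ℕ) (hg : ∀ j, 1 ≤ g j) (b : ℕ → ℤ)
    (hφ : ∀ j, Dv (φ j) (g j) (b j)) (H C : List VW → ℕ) (N : ℕ) :
    ∃ w : ℕ → VW, (∀ i, Var (w i)) ∧ (∀ i, Bey N (w i)) ∧
      (∀ i, ∀ x ∈ w i, ∀ y ∈ w (i + 1), x.1 < y.1) ∧
      ∀ (j k c i₀ : ℕ) (F : ℕ → Finset ℕ) (a : ℕ → ℕ), j ≤ i₀ → 1 ≤ c →
        (c = 1 ∨ c ≤ C ((List.range i₀).map w)) →
        (∀ l ≤ k, (F l).Nonempty) → (∀ l ≤ k, ∀ i ∈ F l, i₀ ≤ i) →
        (∀ l < k, ∀ i ∈ F l, ∀ i' ∈ F (l + 1), i < i') →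
        (∀ i, a i ≤ H ((List.range i).map w)) →
        (∀ m ≤ k, φ j (wd w a (F 0)) ∣ φ j (wd w a ((Finset.range (m + 1)).biUnion F))) ∧
        ER (g j) (b j) k (fun m =>
          (φ j (wd w a ((Finset.range (m + 1)).biUnion F)) / φ j (wd w a (F 0))) ^ c) := by
  classical
  obtain ⟨w, h1, h2, h3, h4⟩ := param_words
    (fun j c t => Rt (fun s => φ j s ^ (c + 1)) (g j) (b j) t)
    (fun j c t ht hG => rt_closed ((hφ j).pow (c + 1) (by omega)) ht hG)
    (fun j c x hx => rt_exists ((hφ j).pow (c + 1) (by omega)) (hg j) hx) H C N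
  refine ⟨w, h1, h2, h3, fun j k c i₀ F a hj hc1 hc hF1 hF2 hF3 ha => ?_⟩
  have hne : ∀ i, w i ≠ [] := fun i => (h2 i).1
  have hs : ∀ i, (w i).Pairwise fun x y => x.1 < y.1 := fun i => (h2 i).2.1
  have hdvd : ∀ m ≤ k, φ j (wd w a (F 0)) ∣ φ j (wd w a ((Finset.range (m + 1)).biUnion F)) := by
    intro m hm
    obtain ⟨G, hG1, hG2, hG3, -⟩ := Pool.Agent.W68.Gap.extend i₀ (k + 1) F
      (fun l hl => hF1 l (by omega)) (fun l hl => hF2 l (by omega))
      (fun l hl => hF3 l (by omega)) 0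
    have hbw : BW (fun l => wd w a (G l)) := bw_wd hne hs h3 hG1 a
    have h5 := (hφ j).dvd_cat hbw (Nat.zero_le m)
    rw [cat_zero, cat_wd hG1] at h5
    rw [hG2 0 (by omega)] at h5
    have e : (Finset.range (m + 1)).biUnion G = (Finset.range (m + 1)).biUnion F := by
      refine Finset.biUnion_congr rfl fun l hl => hG2 l ?_
      have := Finset.mem_range.1 hl
      omega
    rwa [e] at h5
  refine ⟨hdvd, ?_⟩
  have hc' : c - 1 + 1 = c := by omega
  obtain ⟨h5, h6⟩ := rt_cut ((hφ j).pow c hc1) h2 h3 (i₀ := i₀) (a := a) (fun F hF hF2 => by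
    have h7 := h4 j (c - 1) i₀ F a hj (by omega) hF hF2 ha
    rwa [hc'] at h7) k F hF1 hF2 hF3
  have hK : ∀ m ≤ k, rt (fun s => φ j s ^ c) (wd w a ((Finset.range (m + 1)).biUnion F))
      (wd w a (F 0)) = (φ j (wd w a ((Finset.range (m + 1)).biUnion F)) /
        φ j (wd w a (F 0))) ^ c := fun m hm => by
    unfold rt
    rw [Nat.div_pow (hdvd m hm)]
  refine er_of_exF (hg j) ?_ (fun m hm => ?_) ?_
  · have e : (Finset.range (0 + 1)).biUnion F = F 0 := by simp
    rw [e]
    have hbw := bw_wd hne hs h3 (F := fun l => {(F 0).min' (hF1 0 (by omega)) + l}) (by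
      refine ⟨fun l => Finset.singleton_nonempty _, fun l x hx y hy => ?_⟩
      rw [Finset.mem_singleton] at hx hy
      omega) a
    have hpos : 1 ≤ φ j (wd w a (F 0)) := by
      obtain ⟨G, hG1, hG2, hG3, -⟩ := Pool.Agent.W68.Gap.extend i₀ (k + 1) F
        (fun l hl => hF1 l (by omega)) (fun l hl => hF2 l (by omega))
        (fun l hl => hF3 l (by omega)) 0
      have hbw : BW (fun l => wd w a (G l)) := bw_wd hne hs h3 hG1 a
      have h7 := (hφ j).pos _ (hbw.1 0).1 (hbw.1 0).2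
      simp only at h7
      rwa [hG2 0 (by omega)] at h7
    rw [Nat.div_self (by omega), one_pow]
  · have := h5 m hm
    rwa [hK m hm] at this
  · have e : {f : ℤ × ℤ | ∃ m ≤ k, f = rf (g j) (b j) (rt (fun s => φ j s ^ c)
        (wd w a ((Finset.range (m + 1)).biUnion F)) (wd w a (F 0)))} =
        {f | ∃ m ≤ k, f = rf (g j) (b j) (((φ j (wd w a ((Finset.range (m + 1)).biUnion F)) /
          φ j (wd w a (F 0))) ^ c : ℕ) : ℤ)} := by
      ext f
      simp only [Set.mem_ofPred_eq]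
      constructor
      · rintro ⟨m, hm, h7⟩
        exact ⟨m, hm, by rw [h7, hK m hm]⟩
      · rintro ⟨m, hm, h7⟩
        exact ⟨m, hm, by rw [h7, hK m hm]⟩
    rw [← e]
    exact h6

/-- the values of the word `u`, summed over all letters up to `A` -/
def svm (d : ℕ → ℕ → ℕ) (A : ℕ) (u : VW) : ℕ := ∑ a ∈ Finset.range (A + 1), mar d (sb a u)

/-- the bound for the products -/
def pbm (d : ℕ → ℕ → ℕ → ℕ) (h : ℕ → ℕ) (L : List VW) : ℕ :=
  ∑ j ∈ Finset.range (L.length + 1), (L.map fun u => 1 + svm (d j) (lb h L) u).prod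

/-- arrays of multipliers -/
theorem ratio_arrays (g : ℕ → ℕ) (hg : ∀ j, 1 ≤ g j) (b : ℕ → ℤ) (d : ℕ → ℕ → ℕ → ℕ)
    (hd : ∀ j p a, 2 ≤ d j p a) (hdg : ∀ j p a, IsCoprime (d j p a : ℤ) (g j : ℤ))
    (hdb : ∀ j p a, IsCoprime (d j p a : ℤ) (b j)) (h : ℕ → ℕ) :
    ∃ (V W : ℕ → Finset ℕ) (β : ℕ → ℕ), (∀ i, (W i).Nonempty) ∧ (∀ i, Disjoint (V i) (W i)) ∧
      (∀ i, ∀ x ∈ V i ∪ W i, ∀ y ∈ V (i + 1) ∪ W (i + 1), x < y) ∧
      ∀ (j k : ℕ) (F : ℕ → Finset ℕ) (E : Finset ℕ) (a : ℕ → ℕ), (∀ l ≤ k, (F l).Nonempty) →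
        (∀ l ≤ k, ∀ i ∈ F l, j ≤ i) → (∀ l < k, ∀ i ∈ F l, ∀ i' ∈ F (l + 1), i < i') →
        (∀ i ∈ E, ∀ i' ∈ F 0, i < i') →
        (∀ i, a i ≤ i ∨ ∃ i' < i, ∃ p ∈ V i' ∪ W i', a i ≤ h p) →
        ER (g j) (b j) (k + 1) (fun m => (∏ i ∈ (Finset.range m).biUnion F,
          ((∏ p ∈ V i, d j p (β p)) * ∏ p ∈ W i, d j p (a i))) ^
            (∏ i ∈ E, ((∏ p ∈ V i, d j p (β p)) * ∏ p ∈ W i, d j p (a i)))) := by
  classical
  have hDv : ∀ j, Dv (mar (d j)) (g j) (b j) := by
    intro j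
    have hcop : ∀ z : ℤ, (∀ p a, IsCoprime (d j p a : ℤ) z) → ∀ s : SW, IsCoprime (mar (d j) s : ℤ) z := by
      intro z hz s
      induction s with
      | nil => simpa [mar] using isCoprime_one_left
      | cons x s ih =>
        have e : mar (d j) (x :: s) = d j x.1 x.2 * mar (d j) s := by
          unfold mar
          rw [List.map_cons, List.prod_cons]
        rw [e, Nat.cast_mul]
        exact (hz _ _).mul_left ih
    exact
      { dvd := fun s t _ _ _ => by rw [mar_append]; exact dvd_mul_right _ _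
        lt := fun s t hs ht _ => by
          rw [mar_append]
          have h1 := mar_two (hd j) hs
          have h2 := mar_two (hd j) ht
          nlinarith
        pos := fun s hs _ => by have := mar_two (hd j) hs; omega
        cg := fun s _ _ => hcop _ (hdg j) s
        cb := fun s _ _ => hcop _ (hdb j) s }
  obtain ⟨w, hw1, hw2, hw3, hw4⟩ := ratio_main (fun j => mar (d j)) g hg b hDv (lb h) (pbm d h) 0
  have hne : ∀ i, w i ≠ [] := fun i => (hw2 i).1
  have hs : ∀ i, (w i).Pairwise fun x y => x.1 < y.1 := fun i => (hw2 i).2.1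
  have hlt : ∀ i j, i < j → ∀ x ∈ w i, ∀ y ∈ w j, x.1 < y.1 := by
    intro i j hij
    induction j, hij using Nat.le_induction with
    | base => exact hw3 i
    | succ j hj ih =>
      intro x hx y hy
      obtain ⟨z, hz⟩ := List.exists_mem_of_ne_nil _ (hne j)
      exact (ih x hx z hz).trans (hw3 j z hz y hy)
  refine ⟨fun i => lp (w (2 * i + 1)), fun i => vp (w (2 * i + 1)), let' w, fun i => ?_, fun i => ?_,
    fun i x hx y hy => ?_, ?_⟩
  · obtain ⟨x, hx, hx2⟩ := hw1 (2 * i + 1)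
    exact ⟨x.1, Finset.mem_image.2 ⟨x, Finset.mem_filter.2 ⟨List.mem_toFinset.2 hx, hx2⟩, rfl⟩⟩
  · rw [Finset.disjoint_left]
    intro p hp hp'
    unfold lp at hp
    unfold vp at hp'
    obtain ⟨x, hx, rfl⟩ := Finset.mem_image.1 hp
    obtain ⟨y, hy, hxy⟩ := Finset.mem_image.1 hp'
    rw [Finset.mem_filter, List.mem_toFinset] at hx hy
    have := pos_unique hne hs hw3 hy.1 hx.1 hxy
    rw [this] at hy
    exact hx.2 hy.2
  · obtain ⟨x', hx', rfl⟩ := mem_vl hx
    obtain ⟨y', hy', rfl⟩ := mem_vl hy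
    exact hlt (2 * i + 1) (2 * (i + 1) + 1) (by omega) x' hx' y' hy'
  · intro j k F E a h1 h2 h3 hE ha
    obtain ⟨i₁, hi₁, hmin⟩ : ∃ i₁ ∈ F 0, ∀ i ∈ F 0, i₁ ≤ i :=
      ⟨(F 0).min' (h1 0 (by omega)), Finset.min'_mem _ _, fun i hi => Finset.min'_le _ _ hi⟩
    have hji₁ : j ≤ i₁ := h2 0 (by omega) i₁ hi₁
    have hall : ∀ l ≤ k, ∀ i ∈ F l, i₁ ≤ i := by
      intro l
      induction l with
      | zero => intro _; exact hmin
      | succ l ih =>
        intro hl i hi
        obtain ⟨i', hi'⟩ := h1 l (by omega)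
        exact (ih (by omega) i' hi').trans (h3 l (by omega) i' hi' i hi).le
    set F' : ℕ → Finset ℕ := fun l => if l = 0 then {2 * i₁} else
      (F (l - 1)).image (fun i => 2 * i + 1) with hF'
    set a' : ℕ → ℕ := fun i => if i % 2 = 0 then 0 else a (i / 2) with ha'
    have hF'0 : F' 0 = {2 * i₁} := by simp [hF']
    have hF's : ∀ l, F' (l + 1) = (F l).image (fun i => 2 * i + 1) := by intro l; simp [hF']
    have ha's : ∀ i, a' (2 * i + 1) = a i := by
      intro i
      simp only [ha']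
      rw [if_neg (by omega)]
      congr 1
      omega
    have halb : ∀ i n, 2 * i + 1 ≤ n → a i ≤ lb h ((List.range n).map w) := by
      intro i n hn
      unfold lb
      rw [List.length_map, List.length_range]
      rcases ha i with h4 | ⟨i', hi', p, hp, h4⟩
      · omega
      · obtain ⟨x, hx, rfl⟩ := mem_vl hp
        have h5 : x.1 ≤ lst ((List.range n).map w).flatten :=
          le_lst (List.mem_flatten.2 ⟨w (2 * i' + 1), List.mem_map.2 ⟨2 * i' + 1,
            List.mem_range.2 (by omega), rfl⟩, hx⟩)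
        have h6 := le_tot h h5
        omega
    have haH : ∀ i, a' i ≤ lb h ((List.range i).map w) := by
      intro i
      by_cases h4 : i % 2 = 0
      · simp only [ha']
        rw [if_pos h4]
        exact Nat.zero_le _
      · simp only [ha']
        rw [if_neg h4]
        exact halb (i / 2) i (by omega)
    have hX : ∀ i c, (∏ p ∈ lp (w (2 * i + 1)), d j p (let' w p)) *
        ∏ p ∈ vp (w (2 * i + 1)), d j p c = mar (d j) (sb c (w (2 * i + 1))) :=
      fun i c => (mar_sb hne hs hw3 (d j) (2 * i + 1) c).symm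
    have hXpos : ∀ i c, 2 ≤ mar (d j) (sb c (w i)) := fun i c => mar_two (hd j) (by
      unfold sb
      rw [ne_eq, List.map_eq_nil_iff]
      exact hne i)
    set c : ℕ := ∏ i ∈ E, ((∏ p ∈ lp (w (2 * i + 1)), d j p (let' w p)) *
      ∏ p ∈ vp (w (2 * i + 1)), d j p (a i)) with hc
    have hc' : c = ∏ i ∈ E, mar (d j) (sb (a i) (w (2 * i + 1))) :=
      Finset.prod_congr rfl fun i _ => hX i (a i)
    have hc1 : 1 ≤ c := by
      rw [hc']
      refine Nat.one_le_iff_ne_zero.2 (Finset.prod_ne_zero_iff.2 fun i _ => ?_)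
      have := hXpos (2 * i + 1) (a i)
      omega
    have hcC : c ≤ pbm d h ((List.range (2 * i₁)).map w) := by
      set L := (List.range (2 * i₁)).map w with hL
      have hEi : ∀ i ∈ E, i < i₁ := fun i hi => hE i hi i₁ hi₁
      have e1 : c ≤ ∏ i ∈ E, (1 + svm (d j) (lb h L) (w (2 * i + 1))) := by
        rw [hc']
        refine Finset.prod_le_prod' fun i hi => ?_
        have h5 : a i ≤ lb h L := halb i _ (by have := hEi i hi; omega)
        have h6 : mar (d j) (sb (a i) (w (2 * i + 1))) ≤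
            svm (d j) (lb h L) (w (2 * i + 1)) :=
          Finset.single_le_sum (f := fun a => mar (d j) (sb a (w (2 * i + 1))))
            (fun _ _ => Nat.zero_le _) (Finset.mem_range.2 (by omega))
        omega
      have e2 : ∏ i ∈ E, (1 + svm (d j) (lb h L) (w (2 * i + 1))) =
          ∏ i ∈ E.image (fun i => 2 * i + 1), (1 + svm (d j) (lb h L) (w i)) := by
        rw [Finset.prod_image (by intro x _ y _ h; simpa using h)]
      have e3 : ∏ i ∈ E.image (fun i => 2 * i + 1), (1 + svm (d j) (lb h L) (w i)) ≤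
          ∏ i ∈ Finset.range (2 * i₁), (1 + svm (d j) (lb h L) (w i)) := by
        refine Finset.prod_le_prod_of_subset_of_one_le' ?_ (fun i _ _ => by omega)
        intro x hx
        obtain ⟨i, hi, rfl⟩ := Finset.mem_image.1 hx
        have := hEi i hi
        exact Finset.mem_range.2 (by omega)
      have e4 : ∏ i ∈ Finset.range (2 * i₁), (1 + svm (d j) (lb h L) (w i)) =
          (L.map fun u => 1 + svm (d j) (lb h L) u).prod := by
        have hprod : ∀ (g : ℕ → ℕ) (n : ℕ),
            ∏ i ∈ Finset.range n, g i = ((List.range n).map g).prod := by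
          intro g n
          induction n with
          | zero => rfl
          | succ n ih =>
            rw [Finset.prod_range_succ, ih, List.range_succ, List.map_append, List.prod_append]
            simp
        rw [hprod]
        rw [show ((List.range (2 * i₁)).map fun i => 1 + svm (d j) (lb h L) (w i)) =
          L.map fun u => 1 + svm (d j) (lb h L) u by rw [hL, List.map_map]; rfl]
      have e5 : (L.map fun u => 1 + svm (d j) (lb h L) u).prod ≤ pbm d h L := by
        unfold pbm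
        refine Finset.single_le_sum (f := fun j => (L.map fun u => 1 + svm (d j) (lb h L) u).prod)
          (fun _ _ => Nat.zero_le _) (Finset.mem_range.2 ?_)
        rw [hL, List.length_map, List.length_range]
        omega
      calc c ≤ _ := e1
        _ = _ := e2
        _ ≤ _ := e3
        _ = _ := e4
        _ ≤ _ := e5
    obtain ⟨-, hinf⟩ := hw4 j (k + 1) c (2 * i₁) F' a' (by omega) hc1 (Or.inr hcC)
      (fun l hl => by
        rcases l with _ | l
        · rw [hF'0]; exact Finset.singleton_nonempty _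
        · rw [hF's]; exact (h1 l (by omega)).image _)
      (fun l hl i hi => by
        rcases l with _ | l
        · rw [hF'0, Finset.mem_singleton] at hi
          omega
        · rw [hF's, Finset.mem_image] at hi
          obtain ⟨i', hi', rfl⟩ := hi
          have := hall l (by omega) i' hi'
          omega)
      (fun l hl i hi i' hi' => by
        rw [hF's, Finset.mem_image] at hi'
        obtain ⟨i₂, hi₂, rfl⟩ := hi'
        rcases l with _ | l
        · rw [hF'0, Finset.mem_singleton] at hi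
          have := hall 0 (by omega) i₂ hi₂
          omega
        · rw [hF's, Finset.mem_image] at hi
          obtain ⟨i₃, hi₃, rfl⟩ := hi
          have := h3 l (by omega) i₃ hi₃ i₂ hi₂
          omega) haH
    have hval : ∀ m ≤ k + 1, mar (d j) (wd w a' ((Finset.range (m + 1)).biUnion F')) /
        mar (d j) (wd w a' (F' 0)) = ∏ i ∈ (Finset.range m).biUnion F,
          ((∏ p ∈ lp (w (2 * i + 1)), d j p (let' w p)) *
            ∏ p ∈ vp (w (2 * i + 1)), d j p (a i)) := by
      intro m hm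
      have hU : (Finset.range (m + 1)).biUnion F' =
          {2 * i₁} ∪ ((Finset.range m).biUnion F).image (fun i => 2 * i + 1) := by
        ext x
        simp only [Finset.mem_biUnion, Finset.mem_range, Finset.mem_union, Finset.mem_singleton,
          Finset.mem_image]
        constructor
        · rintro ⟨l, hl, hx⟩
          rcases l with _ | l
          · rw [hF'0, Finset.mem_singleton] at hx
            exact Or.inl hx
          · rw [hF's, Finset.mem_image] at hx
            obtain ⟨i, hi, rfl⟩ := hx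
            exact Or.inr ⟨i, ⟨l, by omega, hi⟩, rfl⟩
        · rintro (hx | ⟨i, ⟨l, hl, hi⟩, rfl⟩)
          · refine ⟨0, by omega, ?_⟩
            rw [hF'0, Finset.mem_singleton]
            exact hx
          · refine ⟨l + 1, by omega, ?_⟩
            rw [hF's]
            exact Finset.mem_image_of_mem _ hi
      have hdisj : Disjoint ({2 * i₁} : Finset ℕ)
          (((Finset.range m).biUnion F).image (fun i => 2 * i + 1)) := by
        rw [Finset.disjoint_left]
        intro x hx hx'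
        rw [Finset.mem_singleton] at hx
        obtain ⟨i, -, rfl⟩ := Finset.mem_image.1 hx'
        omega
      rw [hU, mar_wd, mar_wd, hF'0, Finset.prod_union hdisj, Finset.prod_singleton,
        Nat.mul_div_cancel_left _ (by have := hXpos (2 * i₁) (a' (2 * i₁)); omega),
        Finset.prod_image (by intro x _ y _ h; simpa using h)]
      refine Finset.prod_congr rfl fun i _ => ?_
      rw [ha's, hX]
    intro R
    refine (hinf R).mono ?_
    rintro p ⟨hp1, hp2⟩
    refine ⟨hp1, fun α β' hα1 hα2 hβ => ?_⟩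
    rw [hp2 α β' hα1 hα2 hβ]
    constructor
    · rintro ⟨m, hm, h5, h6⟩
      refine ⟨m, hm, ?_, h6⟩
      simp only at h5 ⊢
      rw [h5, hval m hm]
    · rintro ⟨m, hm, h5, h6⟩
      refine ⟨m, hm, ?_, h6⟩
      simp only at h5 ⊢
      rw [h5, hval m hm]

end Pool.Agent.Run7.h965.MX
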