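import Mathlib

/-!
Ultrafilters on located words: the algebraic part of Carlson's theorem, for an infinite alphabet.
-/

set_option autoImplicit false

namespace Pool.Agent.Run7.h965.MX

open Filter Topology

/-- concatenation of lists -/
@[reducible] def lsg (α : Type) : Semigroup (List α) where
  mul x y := x ++ y
  mul_assoc := List.append_assoc

attribute [local instance] lsg Ultrafilter.mul Ultrafilter.semigroup

theorem mem_mul {α : Type} (U V : Ultrafilter (List α)) (s : Set (List α)) :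
    s ∈ U * V ↔ {x | {y | x ++ y ∈ s} ∈ V} ∈ U :=
  Ultrafilter.eventually_mul U V (fun x => x ∈ s)

theorem map_mul' {α β : Type} (θ : List α → List β) (hθ : ∀ x y, θ (x ++ y) = θ x ++ θ y)
    (U V : Ultrafilter (List α)) : (U * V).map θ = U.map θ * V.map θ := by
  apply Ultrafilter.ext
  intro s
  rw [Ultrafilter.mem_map, mem_mul, mem_mul, Ultrafilter.mem_map]
  have : {x | {y | x ++ y ∈ θ ⁻¹' s} ∈ V} = θ ⁻¹' {x | {y | x ++ y ∈ s} ∈ V.map θ} := by
    ext x
    simp only [Set.mem_ofPred_eq, Set.mem_preimage, Ultrafilter.mem_map, hθ]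
    rfl
  rw [this]

theorem continuous_map' {α β : Type} (θ : α → β) :
    Continuous (fun U : Ultrafilter α => U.map θ) := by
  refine continuous_generateFrom_iff.2 ?_
  rintro _ ⟨s, rfl⟩
  exact ultrafilter_isOpen_basic (θ ⁻¹' s)

/-- minimal closed left ideals of a closed subsemigroup -/
theorem min_ideal {M : Type} [Semigroup M] [TopologicalSpace M] [CompactSpace M] [T2Space M]
    (hc : ∀ r : M, Continuous (fun x : M => x * r)) (D : Set M) (hD : IsClosed D)
    (hDn : D.Nonempty) (hDm : ∀ x ∈ D, ∀ y ∈ D, x * y ∈ D) :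
    ∃ L ⊆ D, L.Nonempty ∧ IsClosed L ∧ (∀ x ∈ D, ∀ y ∈ L, x * y ∈ L) ∧
      ∀ f ∈ L, ∀ y ∈ L, ∃ z, y = z * f := by
  let S : Set (Set M) := {N | N ⊆ D ∧ IsClosed N ∧ N.Nonempty ∧ ∀ x ∈ D, ∀ y ∈ N, x * y ∈ N}
  obtain ⟨L, hL⟩ : ∃ L, Minimal (· ∈ S) L := by
    refine zorn_superset _ fun c hcs hch => ?_
    obtain rfl | hcne := c.eq_empty_or_nonempty
    · exact ⟨D, ⟨subset_rfl, hD, hDn, fun x hx y hy => hDm x hx y hy⟩, fun s hs => absurd hs (by simp)⟩
    · refine ⟨⋂₀ c, ⟨?_, isClosed_sInter fun t ht => (hcs ht).2.1, ?_, fun x hx y hy => ?_⟩,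
        fun s hs => Set.sInter_subset_of_mem hs⟩
      · obtain ⟨t, ht⟩ := hcne
        exact (Set.sInter_subset_of_mem ht).trans (hcs ht).1
      · rw [Set.sInter_eq_iInter]
        have := hcne.coe_sort
        refine IsCompact.nonempty_iInter_of_directed_nonempty_isCompact_isClosed _ ?_ ?_ ?_ ?_
        · exact DirectedOn.directed_val (IsChain.directedOn hch.symm)
        · exact fun i => (hcs i.prop).2.2.1
        · exact fun i => (hcs i.prop).2.1.isCompact
        · exact fun i => (hcs i.prop).2.1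
      · rw [Set.mem_sInter]
        exact fun t ht => (hcs ht).2.2.2 x hx y (Set.mem_sInter.mp hy t ht)
  obtain ⟨hLD, hcl, hne, hmul⟩ := hL.prop
  refine ⟨L, hLD, hne, hcl, hmul, fun f hf y hy => ?_⟩
  have himg : (· * f) '' D = L := by
    refine hL.eq_of_subset ?_ ?_
    · refine ⟨?_, (hc f).isClosedMap _ hD, hDn.image _, ?_⟩
      · rintro _ ⟨m, hm, rfl⟩
        exact hDm m hm f (hLD hf)
      · rintro x hx _ ⟨m, hm, rfl⟩
        exact ⟨x * m, hDm x hx m hm, mul_assoc _ _ _⟩
    · rintro _ ⟨m, hm, rfl⟩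
      exact hmul m hm f hf
  rw [← himg] at hy
  obtain ⟨z, _, hz⟩ := hy
  exact ⟨z, hz.symm⟩

/-- nonempty, with increasing positions beyond `n` -/
def Bey {β : Type} (n : ℕ) (s : List (ℕ × β)) : Prop :=
  s ≠ [] ∧ s.Pairwise (fun x y => x.1 < y.1) ∧ ∀ x ∈ s, n < x.1

/-- the last position -/
def lst {β : Type} (s : List (ℕ × β)) : ℕ := (s.map Prod.fst).foldr max 0

theorem le_lst {β : Type} {s : List (ℕ × β)} {x : ℕ × β} (hx : x ∈ s) : x.1 ≤ lst s := by
  induction s with
  | nil => simp at hx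
  | cons y s ih =>
    unfold lst at *
    rw [List.map_cons, List.foldr_cons]
    rcases List.mem_cons.1 hx with rfl | h
    · exact le_max_left _ _
    · exact (ih h).trans (le_max_right _ _)

theorem Bey.append {β : Type} {n : ℕ} {s t : List (ℕ × β)} (hs : Bey n s)
    (ht : Bey (max n (lst s)) t) : Bey n (s ++ t) := by
  obtain ⟨h1, h2, h3⟩ := hs
  obtain ⟨k1, k2, k3⟩ := ht
  refine ⟨by simp [h1], List.pairwise_append.2 ⟨h2, k2, fun x hx y hy => ?_⟩, fun x hx => ?_⟩
  · have := le_lst hx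
    have := k3 y hy
    omega
  · rcases List.mem_append.1 hx with h | h
    · exact h3 x h
    · have := k3 x h
      omega

/-- the closed semigroup of all ultrafilters which go to infinity -/
def DD (β : Type) : Set (Ultrafilter (List (ℕ × β))) := {p | ∀ n, {s | Bey n s} ∈ p}

theorem DD_closed (β : Type) : IsClosed (DD β) := by
  have : DD β = ⋂ n, {p | {s | Bey n s} ∈ p} := by
    ext p
    simp [DD]
  rw [this]
  exact isClosed_iInter fun n => ultrafilter_isClosed_basic _

theorem DD_mul {β : Type} {p q : Ultrafilter (List (ℕ × β))} (hp : p ∈ DD β) (hq : q ∈ DD β) :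
    p * q ∈ DD β := by
  intro n
  rw [mem_mul]
  filter_upwards [hp n] with s hs
  filter_upwards [hq (max n (lst s))] with t ht
  exact Bey.append hs ht

theorem DD_single {β : Type} (b : β) :
    (hyperfilter ℕ : Ultrafilter ℕ).map (fun n => [(n, b)]) ∈ DD β := by
  intro n
  rw [Ultrafilter.mem_map]
  refine Filter.mem_of_superset (Set.Finite.compl_mem_hyperfilter (Set.finite_Iic n)) ?_
  intro m hm
  rw [Set.mem_compl_iff, Set.mem_Iic, not_le] at hm
  refine ⟨by simp, List.pairwise_singleton _ _, fun x hx => ?_⟩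
  rw [List.mem_singleton] at hx
  rw [hx]
  exact hm

/-- substitution of a letter for the variable -/
def sb (a : ℕ) (w : List (ℕ × Option ℕ)) : List (ℕ × ℕ) := w.map fun p => (p.1, p.2.getD a)

/-- words as variable words without a variable -/
def emb (s : List (ℕ × ℕ)) : List (ℕ × Option ℕ) := s.map fun p => (p.1, some p.2)

theorem sb_append (a : ℕ) (x y : List (ℕ × Option ℕ)) : sb a (x ++ y) = sb a x ++ sb a y :=
  List.map_append

theorem emb_append (x y : List (ℕ × ℕ)) : emb (x ++ y) = emb x ++ emb y := List.map_append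

theorem sb_emb (a : ℕ) (s : List (ℕ × ℕ)) : sb a (emb s) = s := by
  unfold sb emb
  rw [List.map_map]
  conv_rhs => rw [← List.map_id s]
  exact List.map_congr_left fun _ _ => rfl

theorem Bey.map {β γ : Type} {n : ℕ} {s : List (ℕ × β)} (hs : Bey n s) (f : ℕ × β → ℕ × γ)
    (hf : ∀ p, (f p).1 = p.1) : Bey n (s.map f) := by
  obtain ⟨h1, h2, h3⟩ := hs
  refine ⟨by simpa using h1, ?_, fun x hx => ?_⟩
  · rw [List.pairwise_map]
    exact h2.imp fun h => by rwa [hf, hf]
  · obtain ⟨y, hy, rfl⟩ := List.mem_map.1 hx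
    rw [hf]
    exact h3 y hy

theorem DD_sb {p : Ultrafilter (List (ℕ × Option ℕ))} (hp : p ∈ DD (Option ℕ)) (a : ℕ) :
    p.map (sb a) ∈ DD ℕ := by
  intro n
  rw [Ultrafilter.mem_map]
  filter_upwards [hp n] with s hs
  exact hs.map _ fun _ => rfl

theorem DD_emb {p : Ultrafilter (List (ℕ × ℕ))} (hp : p ∈ DD ℕ) :
    p.map emb ∈ DD (Option ℕ) := by
  intro n
  rw [Ultrafilter.mem_map]
  filter_upwards [hp n] with s hs
  exact hs.map _ fun _ => rfl

theorem map_sb_emb (p : Ultrafilter (List (ℕ × ℕ))) (a : ℕ) : (p.map emb).map (sb a) = p := by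
  rw [Ultrafilter.map_map]
  have : sb a ∘ emb = id := by
    funext s
    exact sb_emb a s
  rw [this, Ultrafilter.map_id]

/-- the variable occurs -/
def Var (w : List (ℕ × Option ℕ)) : Prop := ∃ x ∈ w, x.2 = none

theorem exists_ult : ∃ (v : Ultrafilter (List (ℕ × ℕ))) (E : Ultrafilter (List (ℕ × Option ℕ))),
    (∀ X ∈ v, {s | {t | s ++ t ∈ X} ∈ v} ∈ v) ∧ (∀ a, E.map (sb a) = v) ∧
      (∀ n, {w | Bey n w} ∈ E) ∧ {w | Var w} ∈ E ∧ ∀ n, {s | Bey n s} ∈ v := by
  have : Nonempty (Ultrafilter (List (ℕ × ℕ))) := ⟨pure []⟩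
  obtain ⟨L, hLD, ⟨l, hl⟩, hLc, hLi, hLm⟩ := min_ideal
    (fun r : Ultrafilter (List (ℕ × ℕ)) => Ultrafilter.continuous_mul_left r) (DD ℕ)
    (DD_closed ℕ) ⟨_, DD_single 0⟩ (fun x hx y hy => DD_mul hx hy)
  set M : Set (Ultrafilter (List (ℕ × Option ℕ))) :=
    {z | z ∈ DD (Option ℕ) ∧ {w | Var w} ∈ z ∧ ∀ a, z.map (sb a) ∈ L} with hM
  have hMc : IsClosed M := by
    have h1 : M = DD (Option ℕ) ∩ ({z | {w | Var w} ∈ z} ∩
        ⋂ a, (fun z : Ultrafilter (List (ℕ × Option ℕ)) => z.map (sb a)) ⁻¹' L) := by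
      ext z
      simp only [hM, Set.mem_inter_iff, Set.mem_ofPred_eq, Set.mem_iInter, Set.mem_preimage]
    rw [h1]
    exact (DD_closed _).inter ((ultrafilter_isClosed_basic _).inter
      (isClosed_iInter fun a => hLc.preimage (continuous_map' (sb a))))
  have hMm : ∀ᵉ (x ∈ M) (y ∈ M), x * y ∈ M := by
    rintro x ⟨hx0, hx1, hx2⟩ y ⟨hy0, hy1, hy2⟩
    refine ⟨DD_mul hx0 hy0, ?_, fun a => ?_⟩
    · rw [mem_mul]
      filter_upwards [hx1] with w hw
      obtain ⟨p, hp, hp2⟩ := hw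
      exact Filter.Eventually.of_forall fun t => ⟨p, List.mem_append_left _ hp, hp2⟩
    · rw [map_mul' _ (sb_append a)]
      exact hLi _ (DD_sb hx0 a) _ (hy2 a)
  have hMn : M.Nonempty := by
    refine ⟨(hyperfilter ℕ : Ultrafilter ℕ).map (fun n => [(n, (none : Option ℕ))]) * l.map emb,
      DD_mul (DD_single none) (DD_emb (hLD hl)), ?_, fun a => ?_⟩
    · rw [mem_mul, Ultrafilter.mem_map]
      refine Filter.Eventually.of_forall fun n => ?_
      show {y | Var ([(n, none)] ++ y)} ∈ l.map emb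
      exact Filter.Eventually.of_forall fun t => ⟨(n, none), by simp, rfl⟩
    · rw [map_mul' _ (sb_append a), map_sb_emb]
      exact hLi _ (DD_sb (DD_single none) a) _ hl
  obtain ⟨e, heM, hee⟩ := exists_idempotent_in_compact_subsemigroup
    (fun r : Ultrafilter (List (ℕ × Option ℕ)) => Ultrafilter.continuous_mul_left r) M hMn
    hMc.isCompact hMm
  have h1 : ∀ a, e.map (sb a) * e.map (sb a) = e.map (sb a) := by
    intro a
    rw [← map_mul' _ (sb_append a), hee]
  have h2 : ∀ a b, e.map (sb a) * e.map (sb b) = e.map (sb a) := by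
    intro a b
    obtain ⟨z, hz⟩ := hLm (e.map (sb b)) (heM.2.2 b) (e.map (sb a)) (heM.2.2 a)
    calc e.map (sb a) * e.map (sb b) = z * e.map (sb b) * e.map (sb b) := by rw [← hz]
      _ = z * (e.map (sb b) * e.map (sb b)) := mul_assoc _ _ _
      _ = z * e.map (sb b) := by rw [h1]
      _ = e.map (sb a) := hz.symm
  refine ⟨e.map (sb 0), (e.map (sb 0)).map emb * e, ?_, fun a => ?_, ?_, ?_, ?_⟩
  · intro X hX
    rw [← mem_mul, h2]
    exact hX
  · rw [map_mul' _ (sb_append a), map_sb_emb, h2]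
  · exact DD_mul (DD_emb (DD_sb heM.1 0)) heM.1
  · rw [mem_mul]
    refine Filter.Eventually.of_forall fun s => ?_
    filter_upwards [heM.2.1] with w hw
    obtain ⟨p, hp, hp2⟩ := hw
    exact ⟨p, List.mem_append_right _ hp, hp2⟩
  · exact DD_sb heM.1 0

end Pool.Agent.Run7.h965.MX
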